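import Pool.Agent.Y69.VN.GalNT

/-!
# Chern characters of the higher K-theory of group rings of characteristic zero
-/

set_option autoImplicit false
set_option linter.unusedSectionVars false

namespace Pool.Agent.Y69.VN.Chn

open Pool.Agent.W644.HK Pool.Agent.Y69.VN Polynomial

universe u v w x

section aux

variable {𝒢 : Type u} [Group 𝒢] {ℋ : Type v} [Group ℋ]

lemma contractNth_map (φ : 𝒢 →* ℋ) {n : ℕ} (j : Fin (n + 1)) (x : Fin (n + 1) → 𝒢) :
    Fin.contractNth j (· * ·) (fun i => φ (x i)) =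
      fun i => φ (Fin.contractNth j (· * ·) x i) := by
  funext i
  unfold Fin.contractNth
  split_ifs
  · rfl
  · rw [map_mul]
  · rfl

lemma barBoundary_map (φ : 𝒢 →* ℋ) {n : ℕ} (z : (Fin (n + 1) → 𝒢) →₀ ℤ) :
    barBoundary (z.mapDomain fun x i => φ (x i)) =
      (barBoundary z).mapDomain fun x i => φ (x i) := by
  unfold barBoundary
  rw [Finsupp.sum_mapDomain_index]
  · unfold Finsupp.sum
    rw [Finsupp.mapDomain_finsetSum]
    apply Finset.sum_congr rfl
    intro x _
    rw [Finsupp.mapDomain_add, Finsupp.mapDomain_single, Finsupp.mapDomain_finsetSum]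
    beta_reduce
    congr 1
    apply Finset.sum_congr rfl
    intro j _
    rw [Finsupp.mapDomain_single, contractNth_map]
  · intro x
    simp
  · intro x a b
    rw [Finsupp.single_add]
    simp only [mul_add, Finsupp.single_add, Finset.sum_add_distrib]
    abel

end aux

open Classical in
/-- The `t`-th conjugate of a cochain `f`: if `u = g_0 ⋯ g_n` satisfies `u ^ m = 1`, the value at
`(g_0, …, g_n)` is `f (u ^ t u⁻¹ g_0, g_1, …, g_n)` (a tuple with product `u ^ t`), otherwise it
is zero. -/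
noncomputable def twist {G : Type v} [Group G] {n : ℕ} (m t : ℕ) (f : (Fin (n + 1) → G) → ℤ)
    (g : Fin (n + 1) → G) : ℤ :=
  if (List.ofFn g).prod ^ m = 1 then
    f (Fin.cons ((List.ofFn g).prod ^ t * (List.ofFn g).prod⁻¹ * g 0) fun i => g i.succ)
  else 0

section aux2

variable {G : Type v} [Group G] {n : ℕ}

lemma cpow_rot (m t : ℕ) (f : (Fin (n + 1) → G) → ℤ) (g : Fin (n + 1) → G) :
    cpow m t (cf f) (rot g).prod (pts 1 (rot g)) = twist m t f g := by
  set a : G := (List.ofFn fun i : Fin n => g i.succ).prod with ha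
  set u : G := (List.ofFn g).prod with hu
  have h1 : (rot g).prod = a * g 0 := by
    rw [rot, List.prod_append, List.prod_singleton]
  have h2 : u = g 0 * a := by
    rw [hu, List.ofFn_succ, List.prod_cons]
  have h3 : (rot g).prod = (g 0)⁻¹ * u * (g 0)⁻¹⁻¹ := by
    rw [h1, h2]
    group
  have h4 : (rot g).prod ^ m = 1 ↔ u ^ m = 1 := by
    rw [h3]
    exact conj_pow_one _ _
  unfold cpow twist
  by_cases hm : u ^ m = 1
  · rw [if_pos (h4.2 hm), if_pos hm]
    set g' : Fin (n + 1) → G := Fin.cons (u ^ t * u⁻¹ * g 0) fun i => g i.succ with hg'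
    rw [← cf_rot f g']
    have h5 : rot g' = (List.ofFn fun i : Fin n => g i.succ) ++ [u ^ t * u⁻¹ * g 0] := rfl
    have h6 : (rot g').prod = (rot g).prod ^ t := by
      rw [h5, List.prod_append, List.prod_singleton, ← ha, h1]
      have h7 : a * u ^ t * a⁻¹ = (a * g 0) ^ t := by
        rw [← conj_pow, h2]
        congr 1
        group
      have h8 : a * (u ^ t * u⁻¹ * g 0) = (a * u ^ t * a⁻¹) * (a * u⁻¹ * g 0) := by group
      rw [h8, h7, h2]
      group
    have h9 : pts 1 (rot g') = pts 1 (rot g) := by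
      rw [h5, rot, pts_append, pts_append]
      rfl
    rw [h6, h9]
  · rw [if_neg (fun h => hm (h4.1 h)), if_neg hm]

lemma exists_rot (l : List G) (hl : l.length = n + 1) : ∃ g : Fin (n + 1) → G, rot g = l := by
  obtain ⟨h, rfl⟩ : ∃ h : Fin (n + 1) → G, List.ofFn h = l := by
    refine ⟨fun i => l.get (i.cast hl.symm), ?_⟩
    apply List.ext_getElem
    · rw [List.length_ofFn, hl]
    · intro i h1 h2
      rw [List.getElem_ofFn]
      rfl
  refine ⟨Fin.cons (h (Fin.last n)) fun i => h i.castSucc, ?_⟩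
  rw [rot, List.ofFn_succ' h]
  simp

variable {K : Type u} [CommRing K] {r : Type w} [Fintype r] [DecidableEq r]

lemma dennis_twist (m t : ℕ) (f : (Fin (n + 1) → G) → ℤ)
    (z : (Fin n → (Matrix r r (MonoidAlgebra K G))ˣ) →₀ ℤ) :
    dennis (fun g => ((twist m t f g : ℤ) : K)) z = TF (cst K (cpow m t (cf f))) z := by
  rw [dennis_eq]
  unfold TF Finsupp.sum
  apply Finset.sum_congr rfl
  intro x _
  congr 1
  apply SS_congr
  intro l hl
  have hlen : l.length = n + 1 := by
    have := length_of_mem_Lset _ _ hl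
    rwa [length_XX, List.length_ofFn] at this
  obtain ⟨g, rfl⟩ := exists_rot l hlen
  rw [cf_rot]
  unfold cst
  rw [cpow_rot]

lemma dennis_cast (f : (Fin (n + 1) → G) → ℤ)
    (z : (Fin n → (Matrix r r (MonoidAlgebra K G))ˣ) →₀ ℤ) :
    dennis (fun g => ((f g : ℤ) : K)) z = TF (cst K (cf f)) z := by
  rw [dennis_eq]
  unfold TF Finsupp.sum
  apply Finset.sum_congr rfl
  intro x _
  congr 1
  apply SS_congr
  intro l hl
  have hlen : l.length = n + 1 := by
    have := length_of_mem_Lset _ _ hl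
    rwa [length_XX, List.length_ofFn] at this
  obtain ⟨g, rfl⟩ := exists_rot l hlen
  rw [cf_rot]
  unfold cst
  rw [cf_rot]

end aux2

/-- **Galois equivariance of the Dennis trace at torsion elements.**  Let `K` be a field of
characteristic zero, `G` any group, `z` a cycle of degree `n + 1` in the bar complex of the group of
invertible matrices over `K[G]` and `f` a Hochschild `(n+1)`-cocycle on `G` with integral values
which vanishes on the tuples whose product `u` does not satisfy `u ^ m = 1`.  Let `ζ` be a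
primitive `m`-th root of unity in an extension field of `K`.  Then the value of `f` on the Dennis
trace of `z` is of the form `P(ζ)` for a polynomial `P` with rational coefficients, and the value of
the `t`-th conjugate of `f` is `P(ζ ^ s)`, for all `s`, `t` with `s t = 1` modulo `m`. -/
theorem galois_field {K : Type u} [Field K] [CharZero K] {G : Type v} [Group G] {r : Type w} [Fintype r]
    [DecidableEq r] {n : ℕ}
    (z : (Fin (n + 1) → (Matrix r r (MonoidAlgebra K G))ˣ) →₀ ℤ) (hz : barBoundary z = 0)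
    {m : ℕ} (hm : 0 < m)
    (f : (Fin (n + 2) → G) → ℤ) (hf : IsHochschildCocycle f)
    (hfm : ∀ g, (List.ofFn g).prod ^ m ≠ 1 → f g = 0)
    {E : Type x} [Field E] [CharZero E] [Algebra K E] (ζ : E) (hζ : IsPrimitiveRoot ζ m) :
    ∃ P : ℚ[X], algebraMap K E (dennis (fun g => ((f g : ℤ) : K)) z) = aeval ζ P ∧
      ∀ s t : ℕ, s * t ≡ 1 [MOD m] →
        algebraMap K E (dennis (fun g => ((twist m t f g : ℤ) : K)) z) = aeval (ζ ^ s) P := by
  have hc : Fam (n + 1) (cf f) := fam_cf f hf
  have hcm : ∀ g l, cf f g l ≠ 0 → g ^ m = 1 := by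
    intro g l h
    by_contra hg
    exact h (cf_eq_zero f (fun g => g ^ m ≠ 1)
      (fun x g hg hx => hg ((conj_pow_one x g).1 hx)) hfm g hg l)
  -- the value is cyclotomic
  have h1 : algebraMap K E (dennis (fun g => ((f g : ℤ) : K)) z) ∈
      IntermediateField.adjoin ℚ {ζ} := by
    have h2 := Pool.Agent.Y75.Hk.dennis_cyclotomic z hz m hm 1 one_pos
      (fun g => ((f g : ℤ) : ℚ)) (fun g => ⟨0, f g, by simp⟩)
      (hoch_push f hf (Int.castAddHom ℚ)) (fun g hg => by rw [hfm g hg, Int.cast_zero]) ζ hζ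
    have h3 : (fun g => (((f g : ℤ) : ℚ) : K)) = fun g => ((f g : ℤ) : K) := by
      funext g
      rw [Rat.cast_intCast]
    rwa [h3] at h2
  obtain ⟨P, hP⟩ : ∃ P : ℚ[X],
      algebraMap K E (dennis (fun g => ((f g : ℤ) : K)) z) = aeval ζ P := by
    have hint : IsIntegral ℚ ζ := (hζ.isIntegral hm).tower_top
    rw [← IntermediateField.mem_toSubalgebra,
      IntermediateField.adjoin_simple_toSubalgebra_of_isAlgebraic hint.isAlgebraic,
      Algebra.adjoin_singleton_eq_range_aeval] at h1
    obtain ⟨P, hP⟩ := h1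
    exact ⟨P, hP.symm⟩
  refine ⟨P, hP, fun s t hst => ?_⟩
  have hct : Fam (n + 1) (cpow m t (cf f)) := Fam.cpow hc m t
  have hctm : ∀ g l, cpow m t (cf f) g l ≠ 0 → g ^ m = 1 := by
    intro g l h
    by_contra hg
    apply h
    rw [cpow, if_neg hg]
  have hcomp : cpow m s (cpow m t (cf f)) = cf f := by
    funext g l
    by_cases hg : g ^ m = 1
    · have hgs : (g ^ s) ^ m = 1 := by rw [← pow_mul, mul_comm, pow_mul, hg, one_pow]
      have h2 : (g ^ s) ^ t = g := by
        rw [← pow_mul]
        have h3 : g ^ (s * t) = g ^ 1 := pow_eq_pow_iff_modEq.2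
          (hst.of_dvd (orderOf_dvd_of_pow_eq_one hg))
        rw [h3, pow_one]
      rw [cpow, if_pos hg, cpow, if_pos hgs, h2]
    · rw [cpow, if_neg hg]
      by_contra hne
      exact hg (hcm g l (Ne.symm hne))
  have hs : s.Coprime m := by
    have h2 : (s * t).gcd m = 1 := by
      rw [hst.gcd_eq]
      exact Nat.gcd_one_left m
    exact Nat.Coprime.coprime_dvd_left (Dvd.intro t rfl) h2
  have hcg := cong_gal z hz (t := s) hm (cpow m t (cf f)) hct hctm
  rw [hcomp] at hcg
  rw [dennis_cast] at hP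
  rw [dennis_twist]
  exact galois_of_cong (zcoef z) hm hs hcg ζ hζ.pow_eq_one P hP

/-- change of coefficients -/
lemma dennis_coeff {R : Type u} [CommRing R] {S : Type x} [CommRing S] (φ : R →+* S)
    {G : Type v} [Group G] {r : Type w} [Fintype r] [DecidableEq r] {n : ℕ}
    (f : (Fin (n + 1) → G) → ℤ) (z : (Fin n → (Matrix r r (MonoidAlgebra R G))ˣ) →₀ ℤ) :
    φ (dennis (fun g => ((f g : ℤ) : R)) z) =
      dennis (fun g => ((f g : ℤ) : S)) (z.mapDomain fun g i => GLm φ (g i)) := by
  rw [dennis_cast, dennis_cast]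
  exact (TF_map φ (cf f) z).symm

/-- **Galois equivariance**, for the values in a field -/
theorem galois_ring (R : Type u) [CommRing R] (G : Type v) [Group G]
    (r : Type w) [Fintype r] [DecidableEq r] (n : ℕ)
    (z : (Fin (n + 1) → (Matrix r r (MonoidAlgebra R G))ˣ) →₀ ℤ) (hz : barBoundary z = 0)
    (f : (Fin (n + 2) → G) → ℤ) (hf : IsHochschildCocycle f) (m : ℕ) (hm : 0 < m)
    (hfm : ∀ g, (List.ofFn g).prod ^ m ≠ 1 → f g = 0)
    (E : Type x) [Field E] [CharZero E] (φ : R →+* E) (ζ : E) (hζ : IsPrimitiveRoot ζ m) :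
    ∃ P : ℚ[X], φ (dennis (fun g => ((f g : ℤ) : R)) z) = aeval ζ P ∧
      ∀ s t : ℕ, s * t ≡ 1 [MOD m] →
        φ (dennis (fun g => ((twist m t f g : ℤ) : R)) z) = aeval (ζ ^ s) P := by
  have hz' : barBoundary (z.mapDomain fun g i => GLm φ (g i)) = 0 := by
    rw [barBoundary_map (GLm φ) z, hz]
    simp
  obtain ⟨P, hP, h⟩ := galois_field (K := E) (E := E) _ hz' hm f hf hfm ζ hζ
  refine ⟨P, ?_, fun s t hst => ?_⟩
  · rw [dennis_coeff φ f z]
    exact hP
  · rw [dennis_coeff φ (twist m t f) z]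
    exact h s t hst

end Pool.Agent.Y69.VN.Chn
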