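import Pool.Agent.Y69.VN.Inf
import Pool.Agent.W644.HK.CharP

/-!
# Vanishing of the Dennis trace at elements which are not infinitely divisible
-/

set_option autoImplicit false
set_option linter.unusedSectionVars false

namespace Pool.Agent.Y69.VN

open Finset Pool.Agent.W644.HK

universe u v w x y z

variable {k : Type u} [CommRing k] {G : Type v} [Group G] {r : Type w} [Fintype r] [DecidableEq r]
  {V : Type x} [AddCommGroup V] [Module k V]

lemma noroot_conj {q : ℕ} {P : G} (h : ∀ g : G, g ^ q ≠ P) (x : G) (g : G) :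
    g ^ q ≠ x * P * x⁻¹ := by
  intro hg
  apply h (x⁻¹ * g * x)
  have := conj_pow (a := x⁻¹) (b := g) (i := q)
  rw [inv_inv] at this
  rw [this, hg]
  group

/-- **Vanishing**, for families of cochains -/
theorem vanish_fam
    (htf : ∀ (a : ℕ) (v : V), 0 < a → a • v = 0 → v = 0)
    {𝒢 : Type y} [Group 𝒢] (θ : 𝒢 →* Matrix r r (MonoidAlgebra k G))
    (n : ℕ) (hn : 1 ≤ n) (c : G → List G → V) (hc : Fam n c)
    (hsupp : ∀ P l, c P l ≠ 0 → (IsOfFinOrder P ∨ SI (c P) P) ∧ ∃ p : ℕ, p.Prime ∧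
      (∀ v : V, (∀ e : ℕ, ∃ v' : V, v = p ^ e • v') → v = 0) ∧ ∃ h : ℕ, ∀ g : G, g ^ p ^ h ≠ P)
    {ι : Type z} (I : Finset ι) (mm : ι → ℤ) (x : ι → List 𝒢) (hz : IsCyc V n I mm x) :
    ∑ i ∈ I, mm i • SS θ c (x i) = 0 := by
  classical
  -- the products of the words in the support
  set S : Finset G := I.biUnion fun i => (Lset (XX θ (x i))).image List.prod with hS
  set K : Finset (ConjClasses G) := S.image ConjClasses.mk with hK
  have h1 : ∀ i ∈ I, SS θ c (x i) =
      ∑ κ ∈ K, SS θ (fun g l => if ConjClasses.mk g = κ then c g l else 0) (x i) := by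
    intro i hi
    rw [← SS_sum]
    apply SS_congr
    intro l hl
    rw [sum_ite_eq, if_pos]
    rw [hK, mem_image]
    exact ⟨l.prod, mem_biUnion.2 ⟨i, hi, mem_image_of_mem _ hl⟩, rfl⟩
  rw [sum_congr rfl fun i hi => by rw [h1 i hi, smul_sum], sum_comm]
  apply sum_eq_zero
  intro κ _
  set cκ : G → List G → V := fun g l => if ConjClasses.mk g = κ then c g l else 0 with hcκ
  have hfam : Fam n cκ := hc.restrict κ
  have hval : ∀ P l, cκ P l ≠ 0 → ConjClasses.mk P = κ ∧ c P l ≠ 0 := by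
    intro P l h
    simp only [hcκ] at h
    split_ifs at h with h'
    · exact ⟨h', h⟩
    · exact absurd rfl h
  by_cases hne : ∃ P l, cκ P l ≠ 0
  · obtain ⟨P0, l0, h0⟩ := hne
    obtain ⟨hP0, hc0⟩ := hval P0 l0 h0
    obtain ⟨hor, p, hp, hsep, h, hroot⟩ := hsupp P0 l0 hc0
    have : Fact p.Prime := ⟨hp⟩
    have hconj : ∀ P, ConjClasses.mk P = κ → ∃ x, P = x * P0 * x⁻¹ := by
      intro P hP
      have h2 : IsConj P0 P := ConjClasses.mk_eq_mk_iff_isConj.1 (hP0.trans hP.symm)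
      obtain ⟨x, hx⟩ := isConj_iff.1 h2
      exact ⟨x, hx.symm⟩
    by_cases hfin : IsOfFinOrder P0
    · refine vanish_all (p := p) h (orderOf P0) hfin.orderOf_pos htf hsep θ n hn cκ hfam ?_ I mm x
        hz
      intro P l hPl
      obtain ⟨x, rfl⟩ := hconj P (hval P l hPl).1
      refine ⟨?_, noroot_conj hroot x⟩
      rw [conj_pow, pow_orderOf_eq_one]
      group
    · refine vanish_inf (p := p) h htf hsep θ n hn cκ hfam ?_ I mm x hz
      intro P l hPl
      obtain ⟨hP, hcP⟩ := hval P l hPl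
      obtain ⟨x, hx⟩ := hconj P hP
      refine ⟨?_, by rw [hx]; exact noroot_conj hroot x⟩
      have h3 : cκ P = c P := by
        funext l
        simp only [hcκ, if_pos hP]
      rw [h3]
      refine (hsupp P l hcP).1.resolve_left fun hf => hfin ?_
      obtain ⟨m, hm, hm1⟩ := isOfFinOrder_iff_pow_eq_one.1 hf
      rw [hx, conj_pow] at hm1
      refine isOfFinOrder_iff_pow_eq_one.2 ⟨m, hm, ?_⟩
      have h4 : P0 ^ m = x⁻¹ * (x * P0 ^ m * x⁻¹) * x := by group
      rw [h4, hm1]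
      group
  · push Not at hne
    apply sum_eq_zero
    intro i _
    have h2 : SS θ cκ (x i) = SS θ (fun _ _ => (0 : V)) (x i) :=
      SS_congr _ _ _ _ fun l _ => hne _ _
    have h3 : SS θ (fun _ _ => (0 : V)) (x i) = 0 := by
      have := SS_hom θ (fun _ _ => (0 : V)) (0 : V →ₗ[k] V) (x i)
      simpa using this
    rw [h2, h3, smul_zero]

/-- the tuple `(y_n⁻¹ P y_0, y_0⁻¹ y_1, …, y_{n-1}⁻¹ y_n)` -/
def pointWord {n : ℕ} (P : G) (y : Fin (n + 1) → G) : Fin (n + 1) → G :=
  fun i => (y (i - 1))⁻¹ * (if i = 0 then P else 1) * y i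

omit [Module k V] in
lemma lt_eq_pointWord {n : ℕ} (P : G) (l : List G) :
    lt (n := n) P l = pointWord P fun i : Fin (n + 1) => l.getD i 1 := by
  funext i
  have h1 : ((i - 1 : Fin (n + 1)) : ℕ) = if i = 0 then n else (i : ℕ) - 1 := Fin.coe_sub_one i
  unfold lt pointWord
  by_cases hi : i = 0
  · subst hi
    rw [if_pos (by simp), if_pos rfl]
    rw [if_pos rfl] at h1
    show _ = (l.getD ((0 - 1 : Fin (n + 1)) : ℕ) 1)⁻¹ * P * l.getD ((0 : Fin (n + 1)) : ℕ) 1
    rw [h1]
    simp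
  · have hi' : (i : ℕ) ≠ 0 := fun h => hi (Fin.ext h)
    rw [if_neg hi] at h1
    rw [if_neg hi', if_neg hi, mul_one]
    show _ = (l.getD ((i - 1 : Fin (n + 1)) : ℕ) 1)⁻¹ * l.getD (i : ℕ) 1
    rw [h1]

omit [Module k V] in
lemma SI_cf {n : ℕ} (f : (Fin (n + 1) → G) → V) (P : G)
    (h : ∀ (y : Fin (n + 1) → G) (j : Fin (n + 1)),
      f (pointWord P (Function.update y j (P * y j))) = f (pointWord P y)) : SI (cf f P) P := by
  intro l l' a
  by_cases hlen : (l ++ a :: l').length = n + 1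
  · have hlen' : (l ++ (P * a) :: l').length = n + 1 := by simpa using hlen
    rw [cf_of_length _ _ _ hlen, cf_of_length _ _ _ hlen', lt_eq_pointWord, lt_eq_pointWord]
    have hj : l.length < n + 1 := by simp at hlen; omega
    rw [← h (fun i : Fin (n + 1) => (l ++ a :: l').getD i 1) ⟨l.length, hj⟩]
    congr 2
    funext i
    by_cases hi : (i : ℕ) = l.length
    · have : i = ⟨l.length, hj⟩ := Fin.ext hi
      subst this
      rw [Function.update_self]
      simp
    · rw [Function.update_of_ne (fun h => hi (by rw [h]))]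
      rcases lt_or_gt_of_ne hi with hlt | hgt
      · rw [List.getD_append _ _ _ _ hlt, List.getD_append _ _ _ _ hlt]
      · rw [List.getD_append_right _ _ _ _ hgt.le, List.getD_append_right _ _ _ _ hgt.le]
        obtain ⟨t, ht⟩ : ∃ t, (i : ℕ) - l.length = t + 1 := ⟨(i : ℕ) - l.length - 1, by omega⟩
        rw [ht, List.getD_cons_succ, List.getD_cons_succ]
  · rw [cf_of_length_ne _ _ _ hlen, cf_of_length_ne]
    simpa using hlen

/-- **Vanishing**, for the Dennis trace -/
theorem dennis_zero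
    (htf : ∀ (a : ℕ) (v : V), 0 < a → a • v = 0 → v = 0) {n : ℕ}
    (z : (Fin (n + 1) → (Matrix r r (MonoidAlgebra k G))ˣ) →₀ ℤ) (hz : barBoundary z = 0)
    (f : (Fin (n + 2) → G) → V) (hf : IsHochschildCocycle f)
    (hcyc : ∀ (P : G) (y : Fin (n + 2) → G) (j : Fin (n + 2)), ¬ IsOfFinOrder P →
      f (pointWord P (Function.update y j (P * y j))) = f (pointWord P y))
    (hsupp : ∀ g : Fin (n + 2) → G, f g ≠ 0 → ∃ p : ℕ, p.Prime ∧
      (∀ v : V, (∀ e : ℕ, ∃ v' : V, v = p ^ e • v') → v = 0) ∧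
        ∃ h : ℕ, ∀ a : G, a ^ p ^ h ≠ (List.ofFn g).prod) :
    dennis f z = 0 := by
  rw [dennis_eq]
  have hcy := isCyc_of_barBoundary z hz V
  refine vanish_fam (k := k) (G := G) (r := r) (V := V) htf
    (𝒢 := (Matrix r r (MonoidAlgebra k G))ˣ) (Units.coeHom (Matrix r r (MonoidAlgebra k G)))
    (n + 1) (Nat.le_add_left 1 n) (cf f) (fam_cf f hf) ?_ z.support z
    (fun x => List.ofFn x) hcy
  · intro P l hPl
    have hlen : l.length = n + 2 := by
      by_contra hne
      exact hPl (cf_of_length_ne f P l hne)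
    constructor
    · by_cases hP : IsOfFinOrder P
      · exact Or.inl hP
      · exact Or.inr (SI_cf f P fun y j => hcyc P y j hP)
    · rw [cf_of_length f P l hlen] at hPl
      obtain ⟨p, hp, hsep, h, hroot⟩ := hsupp _ hPl
      refine ⟨p, hp, hsep, h, ?_⟩
      rw [prod_lt] at hroot
      have h2 := noroot_conj hroot (l.getD (n + 1) 1)
      intro g
      have h3 := h2 g
      rwa [show l.getD (n + 1) 1 * ((l.getD (n + 1) 1)⁻¹ * P * l.getD (n + 1) 1) *
        (l.getD (n + 1) 1)⁻¹ = P by group] at h3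

/-- elements detected in finite quotients have finite height for some prime -/
lemma height_of_finite {F : Type y} [Group F] [Finite F] (φ : G →* F) (g : G) (hg : φ g ≠ 1) :
    ∃ p : ℕ, p.Prime ∧ ∃ h : ℕ, ∀ a : G, a ^ p ^ h ≠ g := by
  have hord : orderOf (φ g) ≠ 1 := fun h => hg (orderOf_eq_one_iff.1 h)
  obtain ⟨p, hp, hpd⟩ := Nat.exists_prime_and_dvd hord
  refine ⟨p, hp, Nat.card F, fun a ha => ?_⟩
  have h1 : φ a ^ p ^ Nat.card F = φ g := by rw [← map_pow, ha]
  set q := orderOf (φ a) with hq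
  have hq0 : 0 < q := orderOf_pos (φ a)
  obtain ⟨e, m', hm', hqe⟩ := Nat.exists_eq_pow_mul_and_not_dvd hq0.ne' p hp.ne_one
  have hle : e ≤ Nat.card F := by
    have h2 : q ≤ Nat.card F := Nat.le_of_dvd Nat.card_pos (orderOf_dvd_natCard _)
    have h3 : e < p ^ e := Nat.lt_pow_self hp.one_lt
    have h4 : p ^ e ≤ q := by
      rw [hqe]
      exact Nat.le_mul_of_pos_right _ (Nat.pos_of_ne_zero fun h => hm' (by rw [h]; exact dvd_zero p))
    omega
  have h5 : (φ g) ^ m' = 1 := by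
    rw [← h1, ← pow_mul, ← orderOf_dvd_iff_pow_eq_one, ← hq, hqe]
    exact mul_dvd_mul_right (pow_dvd_pow p hle) m'
  exact hm' (hpd.trans (orderOf_dvd_of_pow_eq_one h5))

end Pool.Agent.Y69.VN
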