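import Pool.Agent.Y69.VN.Tot

/-!
# Divisibility of the totals
-/

set_option autoImplicit false
set_option linter.unusedSectionVars false

namespace Pool.Agent.Y69.VN

open Finset Pool.Agent.W644.HK

universe u v w x y z

lemma orbit_div {α : Type*} {V : Type*} [AddCommGroup V] [DecidableEq α] (f : α → α) (F : α → V)
    (N q : ℕ) (hN : 0 < N) :
    ∀ (n : ℕ) (s : Finset α), s.card = n → (∀ x ∈ s, f x ∈ s) → (∀ x ∈ s, f^[N] x = x) →
      (∀ x ∈ s, F (f x) = F x) → (∀ x ∈ s, F x ≠ 0 → q ∣ Function.minimalPeriod f x) →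
      ∃ v : V, ∑ x ∈ s, F x = q • v := by
  intro n
  induction n using Nat.strong_induction_on with
  | _ n ih =>
    intro s hn hs hf hF hq
    rcases s.eq_empty_or_nonempty with rfl | ⟨x, hx⟩
    · exact ⟨0, by simp⟩
    · have hmem : ∀ i, f^[i] x ∈ s := by
        intro i
        induction i with
        | zero => exact hx
        | succ i ih => rw [Function.iterate_succ_apply']; exact hs _ ih
      set d := Function.minimalPeriod f x with hd
      have hper : Function.IsPeriodicPt f N x := hf x hx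
      have hd0 : 0 < d := hper.minimalPeriod_pos hN
      set O := (range d).image (fun i => f^[i] x) with hO
      have hOs : O ⊆ s := by
        intro y hy
        obtain ⟨i, _, rfl⟩ := mem_image.1 hy
        exact hmem i
      have hFi : ∀ i, F (f^[i] x) = F x := by
        intro i
        induction i with
        | zero => rfl
        | succ i ih => rw [Function.iterate_succ_apply', hF _ (hmem i), ih]
      have hOsum : ∑ y ∈ O, F y = d • F x := by
        rw [hO, sum_image]
        · simp only [hFi, sum_const, card_range]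
        · intro i hi j hj hij
          simp only [coe_range, Set.mem_Iio] at hi hj
          exact Function.iterate_injOn_Iio_minimalPeriod hi hj hij
      have hxO : x ∈ O := mem_image.2 ⟨0, mem_range.2 hd0, rfl⟩
      have hcl : ∀ y ∈ s \ O, f y ∈ s \ O := by
        intro y hy
        rw [mem_sdiff] at hy ⊢
        refine ⟨hs y hy.1, fun hc => hy.2 ?_⟩
        obtain ⟨i, _, hi⟩ := mem_image.1 hc
        have h1 : y = f^[N - 1 + i] x := by
          have h2 := hf y hy.1
          have h3 : N = (N - 1) + 1 := (Nat.sub_add_cancel hN).symm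
          rw [h3, Function.iterate_succ_apply, ← hi] at h2
          rw [Function.iterate_add_apply]
          exact h2.symm
        rw [hO, mem_image]
        refine ⟨(N - 1 + i) % d, mem_range.2 (Nat.mod_lt _ hd0), ?_⟩
        rw [h1, hd]
        exact (Function.iterate_mod_minimalPeriod_eq)
      obtain ⟨v, hv⟩ := ih (s \ O).card (by
        rw [← hn]
        exact card_lt_card ⟨sdiff_subset, fun hc => (mem_sdiff.1 (hc hx)).2 hxO⟩) (s \ O) rfl hcl
        (fun y hy => hf y (mem_sdiff.1 hy).1) (fun y hy => hF y (mem_sdiff.1 hy).1)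
        (fun y hy => hq y (mem_sdiff.1 hy).1)
      have h3 : ∃ v' : V, d • F x = q • v' := by
        by_cases h0 : F x = 0
        · exact ⟨0, by rw [h0]; simp⟩
        · obtain ⟨t, ht⟩ := hq x hx h0
          exact ⟨t • F x, by rw [hd, ht, mul_smul]⟩
      obtain ⟨v', hv'⟩ := h3
      exact ⟨v + v', by rw [← sum_sdiff hOs, hv, hOsum, hv', smul_add]⟩

section per

variable {G : Type v} [Group G] {N : ℕ} [NeZero N]

lemma prod_map_sh (t : ℕ) (l : List (ZMod N → G)) : (l.map (sh t)).prod = sh t l.prod := by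
  induction l with
  | nil => rfl
  | cons a l ih =>
    rw [List.map_cons, List.prod_cons, ih, List.prod_cons]
    rfl

lemma qq_add_of_sh (Q : ZMod N → G) (d : ℕ) (h : sh d Q = Q) (j : ℕ) :
    qq Q (d + j) = qq Q d * qq Q j := by
  induction j with
  | zero => simp
  | succ j ih =>
    rw [← add_assoc, qq_succ, ih, qq_succ, mul_assoc]
    congr 2
    have := congrFun h (j : ZMod N)
    simp only [sh] at this
    rw [← this, Nat.cast_add, add_comm]

lemma qq_mul_of_sh (Q : ZMod N → G) (d : ℕ) (h : sh d Q = Q) (t : ℕ) :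
    qq Q (d * t) = qq Q d ^ t := by
  induction t with
  | zero => simp
  | succ t ih =>
    rw [show d * (t + 1) = d + d * t by ring, qq_add_of_sh Q d h, ih, pow_succ']

end per

variable {k : Type u} [CommRing k] {G : Type v} [Group G] {r : Type w} [Fintype r] [DecidableEq r]
  {V : Type x} [AddCommGroup V] [Module k V]

/-- comparison of the value of a cochain with the rotation invariant total -/
theorem compare {N : ℕ} [NeZero N] {M : ℕ} (m : ℕ) (hM : ∀ v : V, M • v = 0 → v = 0)
    {𝒢 : Type y} [Group 𝒢] (θ : 𝒢 →* Matrix r r (MonoidAlgebra k G))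
    (n : ℕ) (hn : 1 ≤ n) (c : G → List G → V) (hc : Fam n c)
    {ι : Type z} (I : Finset ι) (mm : ι → ℤ) (x : ι → List 𝒢) (hz : IsCyc V n I mm x) :
    M ^ (n + 1) • ∑ i ∈ I, mm i • SS θ c (x i) =
      ∑ i ∈ I, mm i • TT (pperm (Equiv.addRight (1 : ZMod N))) (CF (CG c (EV m M)))
        ((XX θ (x i)).map om) := by
  set θ' := omc (ZMod N) θ with hθ'
  set π : (ZMod N → r) ≃ (ZMod N → r) := pperm (Equiv.addRight (1 : ZMod N)) with hπ
  have h1 : ∑ i ∈ I, mm i • TT π (CF fun Q => bd (PG c (F0 M) (EV m M) Q)) (XX θ' (x i)) = 0 := by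
    rw [← hz.2 fun y => TT π (CF (PG c (F0 M) (EV m M))) (XX θ' y)]
    apply sum_congr rfl
    intro i hi
    rw [TT_bd θ' π (tau G N) (fun a s s' φ => LL_om_perm _ _ _ _ _) _
      (fun x Q l => PG_conj c hc.equiv (F0 M) (EV m M) F0_conj (EV_conj m M) x Q l) (x i)
        (by rw [hz.1 i hi]; exact hn), hz.1 i hi]
  have h2 : ∀ i ∈ I, TT π (CF fun Q => bd (PG c (F0 M) (EV m M) Q)) (XX θ' (x i)) =
      TT π (CF (CG c (EV m M))) (XX θ' (x i)) -
        TT π (CF (CG c (F0 M))) (XX θ' (x i)) := by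
    intro i hi
    rw [← TT_sub_fun]
    apply TT_congr
    intro l hl
    rw [length_XX, hz.1 i hi] at hl
    rw [CF, bd_PG hM c n hc.coc (F0 M) (EV m M) _ _ (by rw [length_pts, hl])]
    rfl
  have h3 : ∑ i ∈ I, mm i • TT π (CF (CG c (EV m M))) (XX θ' (x i)) =
      ∑ i ∈ I, mm i • TT π (CF (CG c (F0 M))) (XX θ' (x i)) := by
    rw [← sub_eq_zero, ← sum_sub_distrib, ← h1]
    apply sum_congr rfl
    intro i hi
    rw [h2 i hi, smul_sub]
  have h4 : ∀ i ∈ I, TT π (CF (CG c (F0 M))) (XX θ' (x i)) = M ^ (n + 1) • SS θ c (x i) := by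
    intro i hi
    have h5 : TT π (CF (CG c (F0 M))) (XX θ' (x i)) =
        TT π (fun l => (M ^ (n + 1) : ℤ) • CF (fun (Q : ZMod N → G) l =>
          c (qq Q N) (l.map fun Y => Y 0)) l) (XX θ' (x i)) := by
      apply TT_congr
      intro l hl
      rw [length_XX, hz.1 i hi] at hl
      rw [CF, CG_F0, length_pts, hl, CF, ← natCast_zsmul]
      push_cast
      rfl
    rw [h5, TT_zsmul_fun, hθ', XX_om, hπ, TT_F c (XX θ (x i)) (prod_XX θ (x i)), SS,
      ← natCast_zsmul]
    push_cast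
    rfl
  rw [smul_sum]
  have h6 : ∀ i ∈ I, M ^ (n + 1) • mm i • SS θ c (x i) =
      mm i • TT π (CF (CG c (F0 M))) (XX θ' (x i)) := by
    intro i hi
    rw [h4 i hi, smul_comm]
  rw [sum_congr rfl h6, ← h3]
  apply sum_congr rfl
  intro i _
  rw [hθ', XX_om]

/-- the divisibility, for sums over necklaces of length `p ^ e` -/
theorem total_div {p : ℕ} [hp : Fact p.Prime] (e h m : ℕ) (hm : 0 < m)
    (c : G → List G → V) (hc : ∀ x g l, c (x * g * x⁻¹) (l.map (x * ·)) = c g l)
    (hsupp : ∀ P l, c P l ≠ 0 → P ^ m = 1 ∧ ∀ g : G, g ^ p ^ h ≠ P)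
    (Xs : List (Matrix r r (MonoidAlgebra k G))) :
    ∃ v : V, TT (pperm (Equiv.addRight (1 : ZMod (p ^ e)))) (CF (CG c (EV m (p ^ h * m))))
        (Xs.map om) = p ^ (e - h) • v := by
  classical
  have hp0 : 0 < p := hp.out.pos
  rw [TT_eq_NN]
  -- roots
  have hroot : ∀ (P g : G) (d : ℕ) (l : List G), c P l ≠ 0 → d ∣ p ^ e → g ^ (p ^ e / d) = P →
      ∃ j, j < h ∧ j ≤ e ∧ p ^ e / d = p ^ j ∧ d = p ^ (e - j) := by
    intro P g d l hcl hd hg
    obtain ⟨i, hi, rfl⟩ := (Nat.dvd_prime_pow hp.out).1 hd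
    have h1 : p ^ e / p ^ i = p ^ (e - i) := Nat.pow_div hi hp0
    rw [h1] at hg
    refine ⟨e - i, ?_, by omega, h1, by congr 1; omega⟩
    by_contra hlt
    push Not at hlt
    apply (hsupp P l hcl).2 (g ^ p ^ (e - i - h))
    rw [← pow_mul, ← pow_add, Nat.sub_add_cancel hlt, hg]
  have hinv : ∀ l : List (ZMod (p ^ e) → G),
      CF (CG c (EV m (p ^ h * m))) (l.map (tau G (p ^ e))) = CF (CG c (EV m (p ^ h * m))) l := by
    intro l
    rw [CF, CF]
    have h5 : (l.map (tau G (p ^ e))).prod = tau G (p ^ e) l.prod := (map_list_prod _ l).symm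
    have h6 : pts 1 (l.map (tau G (p ^ e))) = (pts 1 l).map (tau G (p ^ e)) := by
      rw [map_pts (tau G (p ^ e)) (fun a b => (tau G (p ^ e)).map_mul a b), map_one]
    rw [h5, h6]
    apply CG_EV_tau hm c hc
    by_cases h0 : ∀ l', c (qq l.prod (p ^ e)) l' = 0
    · exact Or.inl h0
    · right
      push Not at h0
      obtain ⟨l', hl'⟩ := h0
      have hP := (hsupp _ l' hl').1
      refine ⟨hP, fun Y _ => ?_⟩
      obtain ⟨a, g, _, hg, hcard, _⟩ := E_card hm l.prod Y hP
      obtain ⟨j, hj, _, hj2, _⟩ := hroot _ g _ l' hl' (per_dvd _) hg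
      rw [hcard]
      apply orderOf_dvd_of_pow_eq_one
      have h7 : p ^ h * m = p ^ j * (m * p ^ (h - j)) := by
        have : p ^ h = p ^ j * p ^ (h - j) := by rw [← pow_add]; congr 1; omega
        rw [this]
        ring
      rw [h7, pow_mul, ← hj2, hg, pow_mul, hP, one_pow]
  apply orbit_div ro _ (p ^ e) _ (pow_pos hp0 e) _ _ rfl
  · exact fun x hx => ro_mem Xs x hx
  · exact fun x _ => ro_iterate_N x
  · exact fun x _ => NN_ro _ Xs x (hinv x.2)
  · rintro ⟨s, l⟩ _ hF
    set d := Function.minimalPeriod ro (s, l) with hd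
    have hper : Function.IsPeriodicPt ro (p ^ e) (s, l) := ro_iterate_N (s, l)
    have hdN : d ∣ p ^ e := hper.minimalPeriod_dvd
    have hfix : ro^[d] (s, l) = (s, l) := Function.isPeriodicPt_minimalPeriod ro (s, l)
    rw [ro_iterate] at hfix
    have hl : l.map (sh d) = l := congrArg Prod.snd hfix
    have hQ : sh d l.prod = l.prod := by rw [← prod_map_sh, hl]
    have hPd : qq l.prod d ^ (p ^ e / d) = qq l.prod (p ^ e) := by
      rw [← qq_mul_of_sh l.prod d hQ, Nat.mul_div_cancel' hdN]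
    have hF' : CF (CG c (EV m (p ^ h * m))) l ≠ 0 := by
      intro h0
      apply hF
      rw [NN, h0, smul_zero]
    have hex : ∃ l', c (qq l.prod (p ^ e)) l' ≠ 0 := by
      by_contra hcon
      push Not at hcon
      apply hF'
      rw [CF, CG]
      have h1 : c (qq l.prod (p ^ e)) = fun _ => 0 := funext hcon
      rw [h1, cs_zero]
    obtain ⟨l', hl'⟩ := hex
    obtain ⟨j, hj, _, _, hj3⟩ := hroot _ _ d l' hl' hdN hPd
    rw [hj3]
    exact pow_dvd_pow p (by omega)

/-- **Vanishing**: the values at torsion elements which are not infinitely `p`-divisible. -/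
theorem vanish_all {p : ℕ} [hp : Fact p.Prime] (h m : ℕ) (hm : 0 < m)
    (htf : ∀ (a : ℕ) (v : V), 0 < a → a • v = 0 → v = 0)
    (hsep : ∀ v : V, (∀ e : ℕ, ∃ v' : V, v = p ^ e • v') → v = 0)
    {𝒢 : Type y} [Group 𝒢] (θ : 𝒢 →* Matrix r r (MonoidAlgebra k G))
    (n : ℕ) (hn : 1 ≤ n) (c : G → List G → V) (hc : Fam n c)
    (hsupp : ∀ P l, c P l ≠ 0 → P ^ m = 1 ∧ ∀ g : G, g ^ p ^ h ≠ P)
    {ι : Type z} (I : Finset ι) (mm : ι → ℤ) (x : ι → List 𝒢) (hz : IsCyc V n I mm x) :
    ∑ i ∈ I, mm i • SS θ c (x i) = 0 := by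
  have hp0 : 0 < p := hp.out.pos
  have hM : 0 < p ^ h * m := Nat.mul_pos (pow_pos hp0 h) hm
  apply htf ((p ^ h * m) ^ (n + 1)) _ (pow_pos hM _)
  apply hsep
  intro e
  rw [compare (N := p ^ (e + h)) m (fun v hv => htf _ v hM hv) θ n hn c hc I mm x hz]
  have h1 : ∀ i, ∃ v : V, TT (pperm (Equiv.addRight (1 : ZMod (p ^ (e + h)))))
      (CF (CG c (EV m (p ^ h * m)))) ((XX θ (x i)).map om) = p ^ (e + h - h) • v :=
    fun i => total_div (e + h) h m hm c hc.equiv hsupp _
  choose v hv using h1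
  refine ⟨∑ i ∈ I, mm i • v i, ?_⟩
  rw [smul_sum]
  apply sum_congr rfl
  intro i _
  rw [hv i, Nat.add_sub_cancel, smul_comm]

end Pool.Agent.Y69.VN
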