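import Pool.Agent.Y69.VN.Asm
import Pool.Agent.W644.HK.Char0Main

/-!
# Vanishing of cyclic Dennis traces at elements of infinite order over fields of characteristic zero
-/

set_option autoImplicit false
set_option linter.unusedSectionVars false

namespace Pool.Agent.Y69.VN

open Finset Pool.Agent.W644.HK

universe u v w x y z

/-- finitely generated subrings are separated for the non-invertible primes -/
lemma adjoin_sep {K : Type u} [Field K] (T : Finset K) (p : ℕ)
    (hp : (p : K)⁻¹ ∉ Algebra.adjoin ℤ (T : Set K)) (A : Subring K)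
    (hA : A = (Algebra.adjoin ℤ (T : Set K)).toSubring) (v : A)
    (h : ∀ e : ℕ, ∃ v' : A, v = p ^ e • v') : v = 0 := by
  classical
  have hft : Algebra.FiniteType ℤ (Algebra.adjoin ℤ (T : Set K)) := by
    rw [← Subalgebra.fg_iff_finiteType]
    exact ⟨T, rfl⟩
  have hN : IsNoetherianRing (Algebra.adjoin ℤ (T : Set K)) :=
    Algebra.FiniteType.isNoetherianRing ℤ _
  have hN' : IsNoetherianRing A := by rw [hA]; exact hN
  have hI : Ideal.span {(p : A)} ≠ ⊤ := by
    intro h1
    rw [Ideal.span_singleton_eq_top] at h1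
    obtain ⟨u, hu⟩ := h1
    apply hp
    have h2 : (p : A) * (u⁻¹ : Aˣ).val = 1 := by rw [← hu, Units.mul_inv]
    have h3 : (p : K) * ((u⁻¹ : Aˣ).val : K) = 1 := by
      have := congrArg Subtype.val h2
      simpa using this
    rw [inv_eq_of_mul_eq_one_right h3]
    have h5 : ∀ x : A, (x : K) ∈ Algebra.adjoin ℤ (T : Set K) := by
      intro x
      have h6 : (x : K) ∈ A := x.2
      exact hA.le h6
    exact h5 _
  have h1 := Ideal.iInf_pow_eq_bot_of_isDomain (Ideal.span {(p : A)}) hI
  have h2 : v ∈ (⨅ i : ℕ, Ideal.span {(p : A)} ^ i : Ideal A) := by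
    rw [Ideal.mem_iInf]
    intro e
    obtain ⟨v', hv'⟩ := h e
    rw [hv', Ideal.span_singleton_pow, Ideal.mem_span_singleton, nsmul_eq_mul]
    push_cast
    exact dvd_mul_right _ _
  rw [h1, Ideal.mem_bot] at h2
  exact h2

/-- **Vanishing over fields of characteristic zero.** -/
theorem dennis_field {K : Type u} [Field K] [CharZero K] {G : Type v} [Group G] {r : Type w}
    [Fintype r] [DecidableEq r] {n : ℕ}
    (z : (Fin (n + 1) → (Matrix r r (MonoidAlgebra K G))ˣ) →₀ ℤ) (hz : barBoundary z = 0)
    (s : Finset K) (f : (Fin (n + 2) → G) → K) (hs : ∀ g, f g ∈ Algebra.adjoin ℤ (s : Set K))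
    (hf : IsHochschildCocycle f)
    (hcyc : ∀ (P : G) (y : Fin (n + 2) → G) (j : Fin (n + 2)), ¬ IsOfFinOrder P →
      f (pointWord P (Function.update y j (P * y j))) = f (pointWord P y))
    (hsupp : ∀ g : Fin (n + 2) → G, f g ≠ 0 → ∀ H : Subgroup G, H.FG →
      {p : ℕ | p.Prime ∧ ∃ h : ℕ, ∀ a ∈ H, a ^ p ^ h ≠ (List.ofFn g).prod}.Infinite) :
    dennis f z = 0 := by
  classical
  set T : Finset K := zcoef z ∪ s with hT
  set A : Subring K := (Algebra.adjoin ℤ (T : Set K)).toSubring with hAdef
  set H : Subgroup G := Subgroup.closure ((zsupp z : Finset G) : Set G) with hH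
  have hHfg : H.FG := ⟨zsupp z, rfl⟩
  have hTA : ∀ c ∈ T, c ∈ A := fun c hc => Algebra.subset_adjoin hc
  have hfA : ∀ g, f g ∈ A := fun g =>
    Algebra.adjoin_mono (by intro y hy; simp only [hT, Finset.coe_union]; exact Or.inr hy) (hs g)
  obtain ⟨L, hL⟩ := exists_lift_chain z A H (fun c hc => hTA c (mem_union_left _ hc))
    (fun g hg => Subgroup.subset_closure hg)
  set f' : (Fin (n + 2) → H) → A := fun g => ⟨f fun i => (g i : G), hfA _⟩ with hf'
  let θ' : (Matrix r r (MonoidAlgebra A H))ˣ →* Matrix r r (MonoidAlgebra A H) := Units.coeHom _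
  let ι₀ : (Matrix r r (MonoidAlgebra A H))ˣ →* (Matrix r r (MonoidAlgebra K G))ˣ :=
    Units.map (ThM r A.subtype H.subtype).toMonoidHom
  have hinj : Function.Injective (ThM r A.subtype H.subtype) := by
    intro M N h
    ext1 a b
    apply Th_injective A.subtype H.subtype Subtype.val_injective Subtype.val_injective
    rw [← ThM_apply, ← ThM_apply, h]
  have hι₀ : Function.Injective ι₀ := Units.map_injective hinj
  have hofFn : ∀ x ∈ z.support, List.ofFn x = (List.ofFn (L x)).map ι₀ := by
    intro x hx
    rw [List.map_ofFn]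
    congr 1
    funext i
    exact (hL x hx i).symm
  have hval : A.subtype (∑ x ∈ z.support, z x • SS θ' (cf f') (List.ofFn (L x))) =
      dennis f z := by
    rw [dennis_eq]
    have h1 : ∀ a : A, A.subtype a = A.subtype.toAddMonoidHom a := fun a => rfl
    rw [h1, map_sum]
    apply sum_congr rfl
    intro x hx
    rw [map_zsmul]
    congr 1
    rw [hofFn x hx]
    symm
    apply SS_Th ι₀ θ' (Units.coeHom _) A.subtype H.subtype (fun a => rfl)
      A.subtype.toAddMonoidHom (fun c v => by simp)
    intro g l
    apply cf_map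
    intro g
    rfl
  have hcycz : IsCyc A (n + 1) z.support z fun x => List.ofFn (L x) :=
    isCyc_lift ι₀ hι₀ A z.support z _ _ hofFn (isCyc_of_barBoundary z hz A)
  have hcoc : IsHochschildCocycle f' := by
    apply hoch_lift _ A.subtype.toAddMonoidHom Subtype.val_injective
    exact hoch_comp f hf H.subtype
  rw [← hval]
  have htf : ∀ (a : ℕ) (v : A), 0 < a → a • v = 0 → v = 0 := by
    intro a v ha hv
    rw [nsmul_eq_mul] at hv
    rcases mul_eq_zero.1 hv with h | h
    · exfalso
      have h1 := congrArg (fun a : A => (a : K)) h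
      push_cast at h1
      exact ha.ne' (Nat.cast_eq_zero.1 h1)
    · exact h
  have h0 := vanish_fam (k := A) (G := H) (r := r) (V := A) htf θ' (n + 1)
    (Nat.le_add_left 1 n) (cf f') (fam_cf f' hcoc) ?_ z.support z
    (fun x => List.ofFn (L x)) hcycz
  · rw [h0, map_zero]
  · intro P l hPl
    have hlen : l.length = n + 2 := by
      by_contra hne
      exact hPl (cf_of_length_ne f' P l hne)
    constructor
    · by_cases hP : IsOfFinOrder P
      · exact Or.inl hP
      · right
        apply SI_cf f' P
        intro y j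
        apply Subtype.ext
        have hP' : ¬ IsOfFinOrder (P : G) := fun h =>
          hP ((Submonoid.isOfFinOrder_coe (H := H.toSubmonoid)).1 h)
        have h1 := hcyc (P : G) (fun i => (y i : G)) j hP'
        have h2 : ∀ y : Fin (n + 2) → H, (fun i => ((pointWord P y i : H) : G)) =
            pointWord (P : G) fun i => (y i : G) := by
          intro y
          funext i
          unfold pointWord
          split_ifs <;> push_cast <;> rfl
        have h3 : (fun i => ((Function.update y j (P * y j) i : H) : G)) =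
            Function.update (fun i => (y i : G)) j ((P : G) * (y j : G)) := by
          funext i
          by_cases hi : i = j
          · subst hi
            simp
          · rw [Function.update_of_ne hi, Function.update_of_ne hi]
        show f (fun i => ((pointWord P (Function.update y j (P * y j)) i : H) : G)) =
          f (fun i => ((pointWord P y i : H) : G))
        rw [h2, h2, h3, h1]
    · rw [cf_of_length f' P l hlen] at hPl
      have h1 : f (fun i => ((lt (n := n + 1) P l i : H) : G)) ≠ 0 := by
        intro h0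
        exact hPl (Subtype.ext h0)
      obtain ⟨p, ⟨hp, h, hroot⟩, hpT⟩ :=
        ((hsupp _ h1 H hHfg).sdiff (Pool.Agent.H23R2.finite_inv_primes T)).nonempty
      have hinv : (p : K)⁻¹ ∉ Algebra.adjoin ℤ (T : Set K) := fun h => hpT ⟨hp, h⟩
      refine ⟨p, hp, adjoin_sep T p hinv A hAdef, h, ?_⟩
      have h2 : (List.ofFn fun i => ((lt (n := n + 1) P l i : H) : G)).prod =
          (((List.ofFn (lt (n := n + 1) P l)).prod : H) : G) := by
        have := map_list_prod H.subtype (List.ofFn (lt (n := n + 1) P l))
        rw [List.map_ofFn] at this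
        exact this.symm
      rw [h2, prod_lt] at hroot
      intro g hg
      apply hroot ((l.getD (n + 1) 1)⁻¹ * g * l.getD (n + 1) 1 : H)
        ((l.getD (n + 1) 1)⁻¹ * g * l.getD (n + 1) 1 : H).2
      rw [← Subgroup.coe_pow]
      congr 1
      have h3 := conj_pow (a := (l.getD (n + 1) 1)⁻¹) (b := g) (i := p ^ h)
      rw [inv_inv] at h3
      rw [h3, hg]

end Pool.Agent.Y69.VN
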