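import Pool.Agent.Y69.VN.Div
import Pool.Agent.W644.HK.CharP

/-!
# The Frobenius congruence between the components of `g` and of `g ^ p`
-/

set_option autoImplicit false
set_option linter.unusedSectionVars false

namespace Pool.Agent.Y69.VN

open Finset Pool.Agent.W644.HK

universe u v w x y z

section coset

variable {G : Type v} [Group G] {M : ℕ}

open Classical in
/-- the multiset of the points `g ^ i * y` -/
noncomputable def cosetV (M : ℕ) (g y : G) : Pt G M :=
  if h : orderOf g ∣ M then
    ⟨(M / orderOf g) • ((range (orderOf g)).image fun i => g ^ i * y).val, by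
      rw [Multiset.card_nsmul, Finset.card_val, card_image_of_injOn, card_range,
        Nat.div_mul_cancel h]
      intro s hs t ht hst
      simp only [coe_range, Set.mem_Iio] at hs ht
      exact pow_injOn_Iio_orderOf hs ht (mul_right_cancel hst)⟩
  else Pt.rep M y

lemma EV_const {N : ℕ} [NeZero N] {m : ℕ} (hm : 0 < m) (g y : G) (hg : g ^ (N * m) = 1)
    (hM : orderOf g ∣ M) :
    EV m M (fun _ : ZMod N => g) (fun _ => y) = cosetV M g y := by
  classical
  have hN : 0 < N := Nat.pos_of_ne_zero (NeZero.ne N)
  have hP : qq (fun _ : ZMod N => g) N ^ m = 1 := by rw [qq_const, ← pow_mul, hg]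
  have huu : uu (fun _ : ZMod N => g) (fun _ => y) = fun _ => y⁻¹ * g * y := rfl
  have hper : per (uu (fun _ : ZMod N => g) (fun _ => y)) = 1 := by
    have h1 : per (uu (fun _ : ZMod N => g) (fun _ => y)) ∣ 1 := by
      rw [← per_spec, huu]
      rfl
    exact Nat.dvd_one.1 h1
  obtain ⟨a, g', hg', hgN, hcard, hE⟩ := E_card hm (fun _ : ZMod N => g) (fun _ => y) hP
  have hyy : ∀ i, yy (fun _ : ZMod N => g) (fun _ => y) i = g ^ i * y := by
    intro i
    rw [yy, qq_const]
  have hgg : g' = g := by
    rw [hg', hper, hyy, hyy, pow_succ']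
    group
  rw [hgg] at hcard hE
  have hfin : 0 < orderOf g := by
    rw [orderOf_pos_iff, isOfFinOrder_iff_pow_eq_one]
    exact ⟨N * m, Nat.mul_pos hN hm, hg⟩
  have hset : E m (fun _ : ZMod N => g) (fun _ => y) =
      (range (orderOf g)).image fun i => g ^ i * y := by
    ext b
    rw [mem_E hm _ _ hP, mem_image]
    constructor
    · rintro ⟨i, _, rfl⟩
      refine ⟨i % orderOf g, mem_range.2 (Nat.mod_lt _ hfin), ?_⟩
      rw [pow_mod_orderOf, hyy]
    · rintro ⟨i, _, rfl⟩
      refine ⟨i, ?_, hyy i⟩
      have h2 : ∀ j, sh j (uu (fun _ : ZMod N => g) (fun _ => y)) =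
          uu (fun _ : ZMod N => g) (fun _ => y) := by
        intro j
        rw [per_spec, hper]
        exact one_dvd j
      obtain ⟨j, hj⟩ := exists_sel (uu (fun _ : ZMod N => g) (fun _ => y))
      rw [h2, ← hj, h2]
  apply Subtype.ext
  rw [EV_pos m _ _ (by rw [hcard]; exact hM), hcard, hset, cosetV, dif_pos hM]

end coset

variable {k : Type u} [CommRing k] {G : Type v} [Group G] {r : Type w} [Fintype r] [DecidableEq r]

/-- the total over constant necklaces -/
noncomputable def DD {V : Type x} [AddCommGroup V] (M : ℕ) (c : G → List G → V) (l : List G) : V :=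
  cs (c l.prod) ((pts 1 l).map (cosetV M l.prod))

section one

variable {V : Type x} [AddCommGroup V] [Module k V]

/-- averaging over cyclic groups -/
theorem average {M : ℕ} (m : ℕ) (hm : 0 < m) (hmM : m ∣ M)
    (hM : ∀ v : V, M • v = 0 → v = 0)
    {𝒢 : Type y} [Group 𝒢] (θ : 𝒢 →* Matrix r r (MonoidAlgebra k G))
    (n : ℕ) (hn : 1 ≤ n) (c : G → List G → V) (hc : Fam n c)
    (hcm : ∀ g l, c g l ≠ 0 → g ^ m = 1)
    {ι : Type z} (I : Finset ι) (mm : ι → ℤ) (x : ι → List 𝒢) (hz : IsCyc V n I mm x) :
    M ^ (n + 1) • ∑ i ∈ I, mm i • SS θ c (x i) =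
      ∑ i ∈ I, mm i • TT (Equiv.refl r) (DD M c) (XX θ (x i)) := by
  classical
  rw [compare (N := 1) m hM θ n hn c hc I mm x hz]
  apply sum_congr rfl
  intro i _
  congr 1
  have h0 : ∀ s : ZMod 1 → r, pperm (Equiv.addRight (1 : ZMod 1)) s = s := by
    intro s
    funext j
    rw [pperm_apply]
    congr 1
    exact Subsingleton.elim _ _
  have h1 : ∀ s : ZMod 1 → r, EE ((XX θ (x i)).map om) s s (CF (CG c (EV m M))) =
      EE (XX θ (x i)) (s 0) (s 0) (DD M c) := by
    intro s
    have hF : CF (CG c (EV m M)) = fun l : List (ZMod 1 → G) => DD M c (unt l 0) := by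
      funext l
      rw [CF, CG, DD]
      have h2 : l.prod = fun _ => (unt l 0).prod := by
        funext j
        have h3 : j = 0 := Subsingleton.elim _ _
        rw [h3]
        exact map_list_prod (Pi.evalMonoidHom (fun _ : ZMod 1 => G) 0) l
      have h3 : qq l.prod 1 = (unt l 0).prod := by
        rw [h2, qq_const, pow_one]
      have h4 : pts 1 l = (pts 1 (unt l 0)).map fun g => fun _ => g := by
        have h5 : (pts 1 l).map (fun Y => Y 0) = pts 1 (unt l 0) :=
          map_pts (fun Y : ZMod 1 → G => Y 0) (fun _ _ => rfl) 1 l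
        rw [← h5, List.map_map]
        conv_lhs => rw [← List.map_id (pts 1 l)]
        apply List.map_congr_left
        intro Y _
        funext j
        simp only [Function.comp_apply, id]
        congr 1
        exact Subsingleton.elim _ _
      rw [h3]
      by_cases hz : ∀ l', c (unt l 0).prod l' = 0
      · have h5 : c (unt l 0).prod = fun _ => 0 := funext hz
        rw [h5, cs_zero, cs_zero]
      · push Not at hz
        obtain ⟨l', hl'⟩ := hz
        have hgm := hcm _ l' hl'
        congr 1
        rw [h4, List.map_map]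
        apply List.map_congr_left
        intro g _
        rw [Function.comp_apply, h2]
        exact EV_const hm _ g (by rw [one_mul]; exact hgm)
          ((orderOf_dvd_of_pow_eq_one hgm).trans hmM)
    rw [hF, EE_unt (XX θ (x i)) s s fun f => DD M c (f 0), EE]
    have h2 : (tens fun j => mu (XX θ (x i)) (s j) (s j)) =
        (mu (XX θ (x i)) (s 0) (s 0)).mapDomain fun l => fun _ : ZMod 1 => l := by
      ext f
      have hf : f = (fun l => fun _ : ZMod 1 => l) (f 0) := by
        funext j
        simp only
        congr 1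
        exact Subsingleton.elim _ _
      rw [tens_apply, hf, Finsupp.mapDomain_apply]
      · rw [Fintype.prod_unique]
        have hd : ∀ j : ZMod 1, s j = s 0 := fun j => congrArg s (Subsingleton.elim _ _)
        rw [hd]
      · intro a b hab
        exact congrFun hab 0
    rw [h2, Finsupp.linearCombination_mapDomain]
    rfl
  unfold TT
  simp_rw [h0, h1]
  exact Fintype.sum_equiv (Equiv.funUnique (ZMod 1) r) _ _ (fun s => rfl)

end one

variable {p : ℕ} [hp : Fact p.Prime]

lemma frob_zsmul [CharP k p] (a : ℤ) (b : k) : (a • b) ^ p = a • b ^ p := by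
  rw [zsmul_eq_mul, zsmul_eq_mul, mul_pow]
  congr 1
  have := map_intCast (frobenius k p) a
  rwa [frobenius_def] at this

lemma ce_frob [CharP k p] (c : List G → k) (hfr : ∀ l, c l ^ p = c l) (l : List (Multiset G)) :
    ce c l ^ p = ce c l := by
  induction l generalizing c with
  | nil => exact hfr []
  | cons Z l ih =>
    rw [ce_cons]
    have h1 : ∀ W : Multiset G, (W.map fun g => ce (fun l' => c (g :: l')) l).sum ^ p =
        (W.map fun g => ce (fun l' => c (g :: l')) l).sum := by
      intro W
      induction W using Multiset.induction_on with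
      | empty => simp [hp.out.ne_zero]
      | cons a W ihW =>
        rw [Multiset.map_cons, Multiset.sum_cons, add_pow_char, ihW,
          ih (fun l' => c (a :: l')) (fun l' => hfr _)]
    exact h1 Z

/-- the total of the rotation invariant cochain in characteristic `p` -/
theorem total_frob [CharP k p] {m : ℕ} (hm : 0 < m) (c : G → List G → k)
    (hc : ∀ x g l, c (x * g * x⁻¹) (l.map (x * ·)) = c g l)
    (hcm : ∀ g l, c g l ≠ 0 → g ^ m = 1)
    (Xs : List (Matrix r r (MonoidAlgebra k G)))
    (hS : ∀ l ∈ Lset Xs, ∀ l' ∈ Lset Xs, ∀ y ∈ pts 1 l, ∀ y' ∈ pts 1 l',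
      (y⁻¹ * l.prod * y') ^ (p * m) = 1 → ¬ p ∣ orderOf (y⁻¹ * l.prod * y')) :
    TT (pperm (Equiv.addRight (1 : ZMod p))) (CF (CG c (EV (N := p) m m))) (Xs.map om) =
      ∑ s, ∑ l ∈ Lset Xs, mu Xs s s l ^ p *
        cs (c (l.prod ^ p)) ((pts 1 l).map (EV (N := p) m m (fun _ => l.prod) ∘
          fun g => fun _ => g)) := by
  classical
  have hinv : ∀ l ∈ AN p Xs,
      CF (CG c (EV m m)) (l.map (tau G p)) = CF (CG c (EV m m)) l := by
    intro l hl
    rw [CF, CF]
    have h5 : (l.map (tau G p)).prod = tau G p l.prod := (map_list_prod _ l).symm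
    have h6 : pts 1 (l.map (tau G p)) = (pts 1 l).map (tau G p) := by
      rw [map_pts (tau G p) (fun a b => (tau G p).map_mul a b), map_one]
    rw [h5, h6]
    apply CG_EV_tau hm c hc
    by_cases h0 : ∀ l', c (qq l.prod p) l' = 0
    · exact Or.inl h0
    · right
      push Not at h0
      obtain ⟨l', hl'⟩ := h0
      have hP := hcm _ l' hl'
      refine ⟨hP, fun Y hY => ?_⟩
      obtain ⟨a, g, hg', hg, hcard, _⟩ := E_card hm l.prod Y hP
      rw [hcard]
      rcases (Nat.dvd_prime hp.out).1 (per_dvd (uu l.prod Y)) with h1 | h1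
      · -- constant word
        rw [h1, Nat.div_one] at hg
        rw [h1] at hg'
        have hgm : g ^ (p * m) = 1 := by rw [pow_mul, hg, hP]
        -- `g` is conjugate to the letter
        have hsh : ∀ j, sh j (uu l.prod Y) = uu l.prod Y := by
          intro j
          rw [per_spec, h1]
          exact one_dvd j
        have hu : g = yy l.prod Y a * uu l.prod Y 0 * (yy l.prod Y a)⁻¹ := by
          rw [hg', yy_succ]
          congr 2
          have := congrFun (hsh a) 0
          simp only [sh, zero_add] at this
          exact this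
        have hlet : ∀ j, unt l j ∈ Lset Xs := (mem_AN _ _).1 hl
        have hprod : ∀ j, (unt l j).prod = l.prod j := by
          intro j
          exact (map_list_prod (Pi.evalMonoidHom (fun _ : ZMod p => G) j) l).symm
        have hpt : ∀ j, Y j ∈ pts 1 (unt l j) := by
          intro j
          have h3 : pts 1 (unt l j) = (pts 1 l).map (fun Y => Y j) :=
            (map_pts (fun Y : ZMod p → G => Y j) (fun _ _ => rfl) 1 l).symm
          rw [h3]
          exact List.mem_map_of_mem hY
        have huu : uu l.prod Y 0 = (Y 0)⁻¹ * (unt l 0).prod * Y (0 + 1) := by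
          rw [hprod]
          rfl
        have hum : uu l.prod Y 0 ^ (p * m) = 1 := by
          rw [hu, conj_pow] at hgm
          have h4 : uu l.prod Y 0 ^ (p * m) = (yy l.prod Y a)⁻¹ *
              (yy l.prod Y a * uu l.prod Y 0 ^ (p * m) * (yy l.prod Y a)⁻¹) *
                yy l.prod Y a := by group
          rw [h4, hgm]
          group
        have hord : orderOf g = orderOf (uu l.prod Y 0) := by
          rw [hu]
          exact orderOf_injective (MulAut.conj (yy l.prod Y a)).toMonoidHom
            (MulAut.conj (yy l.prod Y a)).injective (uu l.prod Y 0)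
        have hnd : ¬ p ∣ orderOf (uu l.prod Y 0) := by
          rw [huu] at hum ⊢
          exact hS _ (hlet 0) _ (hlet (0 + 1)) _ (hpt 0) _ (hpt (0 + 1)) hum
        rw [hord]
        have h7 : orderOf (uu l.prod Y 0) ∣ p * m := orderOf_dvd_of_pow_eq_one hum
        have h8 : Nat.Coprime (orderOf (uu l.prod Y 0)) p := by
          rw [Nat.coprime_comm, Nat.Prime.coprime_iff_not_dvd hp.out]
          exact hnd
        exact h8.dvd_of_dvd_mul_left h7
      · rw [h1, Nat.div_self hp.out.pos, pow_one] at hg
        rw [hg]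
        exact orderOf_dvd_of_pow_eq_one hP
  rw [TT_eq_NN, frob_sum p ro (NN (CF (CG c (EV m m))) Xs) _ (univ ×ˢ AN p Xs) rfl
    (fun x hx => ro_mem Xs x hx) (fun x _ => ro_iterate_N x)
    (fun x hx => NN_ro _ Xs x (hinv x.2 (mem_product.1 hx).2))]
  rw [← sum_product']
  symm
  apply sum_nbij' (fun y : r × List G => ((fun _ : ZMod p => y.1), y.2.map fun g => fun _ => g))
    (fun x => (x.1 0, unt x.2 0))
  · rintro ⟨s, l⟩ h
    rw [mem_product] at h
    rw [mem_filter, mem_product]
    refine ⟨⟨mem_univ _, ?_⟩, ?_⟩
    · rw [mem_AN]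
      intro j
      have : unt (l.map fun g => fun _ : ZMod p => g) j = l := by
        simp [unt, Function.comp_def]
      simpa only [this] using h.2
    · refine Prod.ext ?_ ?_
      · rfl
      · simp only [ro, List.map_map]
        rfl
  · rintro ⟨s, l⟩ h
    rw [mem_filter, mem_product] at h
    rw [mem_product]
    exact ⟨mem_univ _, (mem_AN _ _).1 h.1.2 0⟩
  · rintro ⟨s, l⟩ _
    refine Prod.ext rfl ?_
    simp [unt, Function.comp_def]
  · rintro ⟨s, l⟩ h
    rw [mem_filter] at h
    have h2 := h.2
    simp only [ro, Prod.mk.injEq] at h2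
    refine Prod.ext ?_ ?_
    · funext j
      exact (const_of_fixed s (fun j => congrFun h2.1 j) j).symm
    · simp only [unt, List.map_map]
      conv_rhs => rw [← List.map_id l]
      apply List.map_congr_left
      intro g hg
      have h3 : tau G p g = g := by
        have h4 : l.map (tau G p) = l.map id := by rw [h2.2, List.map_id]
        exact (List.map_inj_left.1 h4) g hg
      funext j
      exact (const_of_fixed g (fun j => congrFun h3 j) j).symm
  · rintro ⟨s, l⟩ hsl
    rw [mem_product] at hsl
    simp only [NN, smul_eq_mul]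
    congr 1
    · rw [mu_om]
      have : ∀ j : ZMod p, (l.map fun g => fun _ : ZMod p => g).map (fun g => g j) = l := by
        intro j
        simp [Function.comp_def]
      simp only [this]
      simp [ZMod.card]
    · rw [CF]
      have h5 : (l.map fun g => fun _ : ZMod p => g).prod = fun _ => l.prod := by
        funext j
        have := map_list_prod (Pi.evalMonoidHom (fun _ : ZMod p => G) j)
          (l.map fun g => fun _ : ZMod p => g)
        rw [Pi.evalMonoidHom_apply] at this
        rw [this]
        simp [Function.comp_def]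
      have h6 : pts 1 (l.map fun g => fun _ : ZMod p => g) =
          (pts 1 l).map fun g => fun _ : ZMod p => g := by
        rw [map_pts (fun g => fun _ : ZMod p => g) (fun _ _ => rfl)]
        rfl
      rw [h5, h6, CG, qq_const, List.map_map]

/-- the family at the `t`-th powers -/
noncomputable def cpow {V : Type x} [AddCommGroup V] (m t : ℕ) (c : G → List G → V) (g : G)
    (l : List G) : V :=
  open Classical in if g ^ m = 1 then c (g ^ t) l else 0

/-- **Frobenius congruence**: `T_c = (T_{c'}) ^ p` for `c'(g, ·) = c(g ^ t, ·)`, `p ≡ t` mod `m`. -/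
theorem frob_gal [CharP k p] {m t : ℕ} (hm : 0 < m) (hpm : ¬ p ∣ m) (hpt : p ≡ t [MOD m])
    {𝒢 : Type y} [Group 𝒢] (θ : 𝒢 →* Matrix r r (MonoidAlgebra k G))
    (n : ℕ) (hn : 1 ≤ n) (c : G → List G → k) (hc : Fam n c)
    (hcm : ∀ g l, c g l ≠ 0 → g ^ m = 1) (hfr : ∀ g l, c g l ^ p = c g l)
    {ι : Type z} (I : Finset ι) (mm : ι → ℤ) (x : ι → List 𝒢) (hz : IsCyc k n I mm x)
    (hS : ∀ i ∈ I, ∀ l ∈ Lset (XX θ (x i)), ∀ l' ∈ Lset (XX θ (x i)), ∀ y ∈ pts 1 l,
      ∀ y' ∈ pts 1 l',
      (y⁻¹ * l.prod * y') ^ (p * m) = 1 → ¬ p ∣ orderOf (y⁻¹ * l.prod * y')) :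
    ∑ i ∈ I, mm i • SS θ c (x i) = (∑ i ∈ I, mm i • SS θ (cpow m t c) (x i)) ^ p := by
  classical
  have hunit : IsUnit ((m : ℕ) : k) := by
    have h1 : IsCoprime (m : ℤ) (p : ℤ) := by
      rw [Nat.isCoprime_iff_coprime, Nat.coprime_comm, Nat.Prime.coprime_iff_not_dvd hp.out]
      exact hpm
    obtain ⟨a, b, hab⟩ := h1
    have h2 := congrArg (fun z : ℤ => (z : k)) hab
    push_cast at h2
    rw [CharP.cast_eq_zero k p, mul_zero, add_zero] at h2
    exact IsUnit.of_mul_eq_one _ (by rw [mul_comm]; exact h2)
  have hM : ∀ v : k, m • v = 0 → v = 0 := by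
    intro v hv
    rw [nsmul_eq_mul] at hv
    exact (hunit.mul_right_eq_zero).1 hv
  -- the family at the powers
  have hfam : Fam n (cpow m t c) := by
    refine ⟨fun x g l => ?_, fun g l hl => ?_⟩
    · unfold cpow
      have h1 : (x * g * x⁻¹) ^ m = 1 ↔ g ^ m = 1 := by
        rw [conj_pow]
        constructor
        · intro h
          have h4 : g ^ m = x⁻¹ * (x * g ^ m * x⁻¹) * x := by group
          rw [h4, h]
          group
        · intro h
          rw [h]
          group
      simp only [h1]
      split_ifs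
      · rw [conj_pow, hc.equiv]
      · rfl
    · by_cases h : g ^ m = 1
      · have h1 : cpow m t c g = c (g ^ t) := by
          funext l
          rw [cpow, if_pos h]
        rw [h1]
        exact hc.coc _ l hl
      · have h1 : cpow m t c g = fun _ => 0 := by
          funext l
          rw [cpow, if_neg h]
        rw [h1]
        exact bd_zero l
  have hcm' : ∀ g l, cpow m t c g l ≠ 0 → g ^ m = 1 := by
    intro g l h
    by_contra hg
    apply h
    rw [cpow, if_neg hg]
  have hA := compare (N := p) m hM θ n hn c hc I mm x hz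
  have hB := average m hm dvd_rfl hM θ n hn (cpow m t c) hfam hcm' I mm x hz
  -- evaluate the first total
  have h1 : ∀ i ∈ I, TT (pperm (Equiv.addRight (1 : ZMod p))) (CF (CG c (EV (N := p) m m)))
      ((XX θ (x i)).map om) = (TT (Equiv.refl r) (DD m (cpow m t c)) (XX θ (x i))) ^ p := by
    intro i hi
    rw [total_frob hm c hc.equiv hcm _ (hS i hi)]
    unfold TT
    rw [sum_pow_char p]
    apply sum_congr rfl
    intro s _
    rw [EE_eq_sum, sum_pow_char p]
    rw [← sum_subset (s₁ := (mu (XX θ (x i)) s s).support)]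
    · apply sum_congr rfl
      intro l hl
      have hl' : l ∈ Lset (XX θ (x i)) := mem_Lset _ s s l (Finsupp.mem_support_iff.1 hl)
      rw [smul_eq_mul, mul_pow]
      congr 1
      have hfrD : DD m (cpow m t c) l ^ p = DD m (cpow m t c) l := by
        unfold DD cs
        apply ce_frob
        intro l'
        unfold cpow
        split_ifs
        · exact hfr _ _
        · exact zero_pow hp.out.ne_zero
      rw [hfrD, DD]
      by_cases hz0 : ∀ l', c (l.prod ^ p) l' = 0
      · have h5 : c (l.prod ^ p) = fun _ => 0 := funext hz0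
        have h6 : cpow m t c l.prod = fun _ => 0 := by
          funext l'
          unfold cpow
          split_ifs with hg
          · have h7 : l.prod ^ p = l.prod ^ t :=
              pow_eq_pow_iff_modEq.2 (hpt.of_dvd (orderOf_dvd_of_pow_eq_one hg))
            rw [← h7, hz0]
          · rfl
        rw [h5, h6, cs_zero, cs_zero]
      · push Not at hz0
        obtain ⟨l', hcl'⟩ := hz0
        have hgm := hcm _ l' hcl'
        rw [← pow_mul] at hgm
        -- the order of the product
        have hne : l ≠ [] := by
          rintro rfl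
          have := length_of_mem_Lset _ _ hl'
          simp [length_XX] at this
        obtain ⟨a, l'', hal⟩ : ∃ a l'', l = a :: l'' := by
          cases l with
          | nil => exact absurd rfl hne
          | cons a l'' => exact ⟨a, l'', rfl⟩
        have hmem1 : (1 : G) ∈ pts 1 l := by
          rw [hal, pts_cons]
          exact List.mem_cons_self
        have hnd := hS i hi l hl' l hl' 1 hmem1 1 hmem1
        have h8 : (1 : G)⁻¹ * l.prod * 1 = l.prod := by group
        rw [h8] at hnd
        have h9 := hnd hgm
        have h10 : Nat.Coprime (orderOf l.prod) p := by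
          rw [Nat.coprime_comm, Nat.Prime.coprime_iff_not_dvd hp.out]
          exact h9
        have h11 : orderOf l.prod ∣ m :=
          h10.dvd_of_dvd_mul_left (orderOf_dvd_of_pow_eq_one hgm)
        have h12 : l.prod ^ m = 1 := orderOf_dvd_iff_pow_eq_one.1 h11
        have h13 : cpow m t c l.prod = c (l.prod ^ p) := by
          funext l'
          have h7 : l.prod ^ p = l.prod ^ t := pow_eq_pow_iff_modEq.2 (hpt.of_dvd h11)
          rw [cpow, if_pos h12, h7]
        rw [h13]
        congr 1
        apply List.map_congr_left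
        intro g _
        rw [Function.comp_apply]
        exact EV_const hm _ g hgm h11
    · intro l hl
      exact mem_Lset _ s s l (Finsupp.mem_support_iff.1 hl)
    · intro l _ hl
      rw [Finsupp.notMem_support_iff.1 hl, zero_pow hp.out.ne_zero, zero_mul]
  have h2 : ∑ i ∈ I, mm i • TT (pperm (Equiv.addRight (1 : ZMod p)))
      (CF (CG c (EV (N := p) m m))) ((XX θ (x i)).map om) =
      (∑ i ∈ I, mm i • TT (Equiv.refl r) (DD m (cpow m t c)) (XX θ (x i))) ^ p := by
    rw [sum_pow_char p]
    apply sum_congr rfl
    intro i hi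
    rw [h1 i hi, frob_zsmul]
  rw [h2, ← hB] at hA
  -- cancel the power of `m`
  have h3 : (m ^ (n + 1) • ∑ i ∈ I, mm i • SS θ (cpow m t c) (x i)) ^ p =
      m ^ (n + 1) • (∑ i ∈ I, mm i • SS θ (cpow m t c) (x i)) ^ p := by
    rw [← natCast_zsmul, ← natCast_zsmul, frob_zsmul]
  rw [h3, nsmul_eq_mul, nsmul_eq_mul] at hA
  have h4 : IsUnit ((m ^ (n + 1) : ℕ) : k) := by
    push_cast
    exact hunit.pow _
  exact h4.mul_left_cancel hA

end Pool.Agent.Y69.VN
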