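import Pool.Agent.Y69.VN.Kmone

/-!
# Auxiliary results: powers of families, the representations `h ↦ h F + (1 - F)`, `p`-adic integers
-/

set_option autoImplicit false
set_option linter.unusedSectionVars false

namespace Pool.Agent.Y69.VN

open Finset Pool.Agent.W644.HK

universe u v w x y z

section fam

variable {G : Type v} [Group G] {V : Type x} [AddCommGroup V]

lemma conj_pow_one {m : ℕ} (x g : G) : (x * g * x⁻¹) ^ m = 1 ↔ g ^ m = 1 := by
  rw [conj_pow]
  constructor
  · intro h
    have h4 : g ^ m = x⁻¹ * (x * g ^ m * x⁻¹) * x := by group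
    rw [h4, h]
    group
  · intro h
    rw [h]
    group

lemma Fam.cpow {n : ℕ} {c : G → List G → V} (hc : Fam n c) (m t : ℕ) :
    Fam n (cpow m t c) := by
  refine ⟨fun x g l => ?_, fun g l hl => ?_⟩
  · unfold VN.cpow
    by_cases h : g ^ m = 1
    · rw [if_pos h, if_pos ((conj_pow_one x g).2 h), conj_pow, hc.equiv]
    · rw [if_neg h, if_neg fun h' => h ((conj_pow_one x g).1 h')]
  · by_cases h : g ^ m = 1
    · have h1 : VN.cpow m t c g = c (g ^ t) := by
        funext l
        rw [VN.cpow, if_pos h]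
      rw [h1]
      exact hc.coc _ l hl
    · have h1 : VN.cpow m t c g = fun _ => 0 := by
        funext l
        rw [VN.cpow, if_neg h]
      rw [h1]
      exact bd_zero l

lemma cpow_one_eq {m : ℕ} (c : G → List G → V) (hcm : ∀ g l, c g l ≠ 0 → g ^ m = 1) :
    cpow m 1 c = c := by
  funext g l
  unfold cpow
  rw [pow_one]
  split_ifs with h
  · rfl
  · by_contra hne
    exact h (hcm g l (Ne.symm hne))

end fam

section rep

variable {K : Type u} [CommRing K] {G : Type v} [Group G] {r : Type w} [Fintype r] [DecidableEq r]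
  {C : Type x} [Group C] [IsMulCommutative C] {Z : Type y} [Group Z]

/-- the matrix `a F + (1 - F)` -/
noncomputable def tw (F : Matrix r r (MonoidAlgebra K G)) (a : G) :
    Matrix r r (MonoidAlgebra K G) :=
  Matrix.scalar r (MonoidAlgebra.single a (1 : K)) * F + (1 - F)

lemma Th_inC (j : C × Z →* G) (a : MonoidAlgebra K C) :
    Th (RingHom.id K) j (MonoidAlgebra.mapDomainRingHom K (MonoidHom.inl C Z) a) =
      MonoidAlgebra.mapDomainRingHom K (j.comp (MonoidHom.inl C Z)) a := by
  induction a using MonoidAlgebra.induction_linear with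
  | zero => simp
  | add a b ha hb => rw [map_add, map_add, map_add, ha, hb]
  | single c x => simp

lemma ThM_rv (j : C × Z →* G) (F : Matrix r r (MonoidAlgebra K C)) (hF : F * F = F) (h : Z) :
    ThM (H := C × Z) r (RingHom.id K) j (rvHom (Z := Z) F hF h) =
      tw (F.map (MonoidAlgebra.mapDomainRingHom K (j.comp (MonoidHom.inl C Z)))) (j (1, h)) := by
  have h1 : rvHom (Z := Z) F hF h = dg K C r h * inC Z F + (1 - inC Z F) := rfl
  have h2 : ThM (H := C × Z) r (RingHom.id K) j (dg K C r h) =
      Matrix.scalar r (MonoidAlgebra.single (j (1, h)) (1 : K)) := by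
    ext1 a b
    rw [ThM_apply, dg, Matrix.scalar_apply, Matrix.scalar_apply, Matrix.diagonal_apply,
      Matrix.diagonal_apply]
    split_ifs
    · simp
    · rw [map_zero]
  have h3 : ThM (H := C × Z) r (RingHom.id K) j (inC Z F) =
      F.map (MonoidAlgebra.mapDomainRingHom K (j.comp (MonoidHom.inl C Z))) := by
    ext1 a b
    rw [ThM_apply, inC, Matrix.map_apply, Matrix.map_apply, Th_inC]
  rw [h1, map_add, map_mul, map_sub, map_one, h2, h3, tw]

end rep

section padic

variable (p : ℕ) [hp : Fact p.Prime]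

lemma padic_tf (a : ℕ) (v : ℤ_[p]) (ha : 0 < a) (h : a • v = 0) : v = 0 := by
  rw [nsmul_eq_mul] at h
  rcases mul_eq_zero.1 h with h | h
  · exact absurd (Nat.cast_eq_zero.1 h) ha.ne'
  · exact h

lemma padic_sep (v : ℤ_[p]) (h : ∀ e : ℕ, ∃ v' : ℤ_[p], v = p ^ e • v') : v = 0 := by
  apply PadicInt.ext_of_toZModPow.1
  intro e
  obtain ⟨v', hv'⟩ := h e
  rw [hv', map_zero, map_nsmul, nsmul_eq_mul, ZMod.natCast_self, zero_mul]

end padic

section fgconj

variable {G : Type v} [Group G]

lemma fg_conj (H : Subgroup G) (hH : H.FG) (y : G) :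
    (H.map (MulAut.conj y).toMonoidHom).FG := by
  classical
  obtain ⟨S, hS⟩ := hH
  exact ⟨S.image (MulAut.conj y).toMonoidHom, by
    rw [Finset.coe_image, ← MonoidHom.map_closure, hS]⟩

lemma zpowers_pow_coprime (g : G) (m t : ℕ) (hg : g ^ m = 1) (ht : t.Coprime m) :
    Subgroup.zpowers (g ^ t) = Subgroup.zpowers g := by
  apply le_antisymm
  · rw [Subgroup.zpowers_le]
    exact Subgroup.npow_mem_zpowers g t
  · rw [Subgroup.zpowers_le]
    have h1 : IsCoprime (t : ℤ) (m : ℤ) := Nat.isCoprime_iff_coprime.2 ht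
    obtain ⟨a, b, hab⟩ := h1
    refine ⟨a, ?_⟩
    show (g ^ t) ^ a = g
    rw [← zpow_natCast g t, ← zpow_mul]
    have h2 : (t : ℤ) * a = 1 - m * b := by linarith
    rw [h2, zpow_sub, zpow_one, zpow_mul, zpow_natCast, hg, one_zpow, inv_one, mul_one]

end fgconj

end Pool.Agent.Y69.VN
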