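import Pool.Agent.Y69.VN.GalQ
import Pool.Agent.Y69.VN.Kmap
import Pool.Agent.Y75.Hk.Five

/-!
# Galois equivariance of the Dennis trace over fields of characteristic zero
-/

set_option autoImplicit false
set_option linter.unusedSectionVars false

namespace Pool.Agent.Y69.VN

open Finset Pool.Agent.W644.HK

universe u v w x y z

open Pool.Agent.Y75.Hk in
/-- the Frobenius congruence for cycles over a field of characteristic zero -/
theorem cong_gal {K : Type u} [Field K] {G : Type v} [Group G] {r : Type w} [Fintype r]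
    [DecidableEq r] {n : ℕ} (z : (Fin (n + 1) → (Matrix r r (MonoidAlgebra K G))ˣ) →₀ ℤ)
    (hz : barBoundary z = 0) {m t : ℕ} (hm : 0 < m)
    (c : G → List G → ℤ) (hc : Fam (n + 1) c) (hcm : ∀ g l, c g l ≠ 0 → g ^ m = 1) :
    ∃ B : ℕ, ∀ p : ℕ, p.Prime → B < p → p ≡ t [MOD m] →
      ∃ b ∈ Algebra.adjoin ℤ ((zcoef z : Finset K) : Set K),
        TF (cst K c) z = TF (cst K (cpow m t c)) z ^ p + p * b := by
  classical
  -- lifting to a finitely generated ring
  set A : Subring K := (Algebra.adjoin ℤ ((zcoef z : Finset K) : Set K)).toSubring with hAdef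
  let H : Subgroup G := ⊤
  have hA : ∀ c ∈ zcoef z, c ∈ A := fun c hc => Algebra.subset_adjoin hc
  obtain ⟨L, hL⟩ := exists_lift_chain z A H hA (fun g _ => Subgroup.mem_top g)
  let θ' : (Matrix r r (MonoidAlgebra A H))ˣ →* Matrix r r (MonoidAlgebra A H) := Units.coeHom _
  let ι₀ : (Matrix r r (MonoidAlgebra A H))ˣ →* (Matrix r r (MonoidAlgebra K G))ˣ :=
    Units.map (ThM r A.subtype H.subtype).toMonoidHom
  have hinj : Function.Injective (ThM r A.subtype H.subtype) := by
    intro M N h
    ext1 a b
    apply Th_injective A.subtype H.subtype Subtype.val_injective Subtype.val_injective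
    rw [← ThM_apply, ← ThM_apply, h]
  have hι₀ : Function.Injective ι₀ := Units.map_injective hinj
  have hofFn : ∀ x ∈ z.support, List.ofFn x = (List.ofFn (L x)).map ι₀ := by
    intro x hx
    rw [List.map_ofFn]
    congr 1
    funext i
    exact (hL x hx i).symm
  let va : (G → List G → ℤ) → A := fun c =>
    ∑ x ∈ z.support, z x • SS θ' (cst A (resc H c)) (List.ofFn (L x))
  have hva : ∀ c : G → List G → ℤ, ((va c : A) : K) = TF (cst K c) z := by
    intro c
    have h1 : ∀ a : A, (a : K) = A.subtype.toAddMonoidHom a := fun a => rfl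
    rw [h1, map_sum]
    unfold TF Finsupp.sum
    apply sum_congr rfl
    intro x hx
    rw [map_zsmul]
    congr 1
    rw [hofFn x hx]
    symm
    apply SS_Th ι₀ θ' (Units.coeHom _) A.subtype H.subtype (fun a => rfl)
      A.subtype.toAddMonoidHom (fun c v => by simp)
    intro g l
    show A.subtype ((c g (l.map Subtype.val) : ℤ) : A) = ((c g (l.map H.subtype) : ℤ) : K)
    rw [map_intCast]
    rfl
  -- the finite set of group elements
  let S : Set H := ⋃ i ∈ z.support, Sset (XX θ' (List.ofFn (L i)))
  have hSfin : S.Finite := by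
    apply Set.Finite.biUnion z.support.finite_toSet
    intro i _
    exact Sset_finite _
  obtain ⟨B, hB⟩ : ∃ B : ℕ, ∀ u ∈ S, orderOf u ≤ B := by
    refine ⟨hSfin.toFinset.sup orderOf, fun u hu => ?_⟩
    exact Finset.le_sup (f := orderOf) (hSfin.mem_toFinset.2 hu)
  refine ⟨B + m, fun p hp hpb hptm => ?_⟩
  have hpp : Fact p.Prime := ⟨hp⟩
  have hpm : ¬ p ∣ m := fun h => by
    have := Nat.le_of_dvd hm h
    omega
  -- the quotient ring
  let I : Ideal A := Ideal.span {(p : A)}
  let F := A ⧸ I
  let q : A →+* F := Ideal.Quotient.mk I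
  suffices h : q (va c) = q (va (cpow m t c) ^ p) by
    have h1 : va c - va (cpow m t c) ^ p ∈ I := by
      rw [← Ideal.Quotient.eq_zero_iff_mem]
      show q (va c - va (cpow m t c) ^ p) = 0
      rw [map_sub, h, sub_self]
    obtain ⟨b, hb⟩ := Ideal.mem_span_singleton.1 h1
    refine ⟨b, b.2, ?_⟩
    have h2 : va c = va (cpow m t c) ^ p + p * b := by rw [← hb]; ring
    have h3 := congrArg (fun a : A => (a : K)) h2
    push_cast at h3
    rw [hva, hva] at h3
    exact h3
  rcases subsingleton_or_nontrivial F with hF | hF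
  · exact Subsingleton.elim _ _
  have : CharP F p := by
    rw [CharP.charP_iff_prime_eq_zero hp]
    have : ((p : ℕ) : F) = q (p : A) := by simp [q]
    rw [this]
    exact Ideal.Quotient.eq_zero_iff_mem.2 (Ideal.mem_span_singleton_self _)
  have hcyc : IsCyc F (n + 1) z.support z fun x => List.ofFn (L x) :=
    isCyc_lift ι₀ hι₀ F z.support z _ _ hofFn (isCyc_of_barBoundary z hz F)
  let θF : (Matrix r r (MonoidAlgebra A H))ˣ →* Matrix r r (MonoidAlgebra F H) :=
    ((ThM r q (MonoidHom.id H)).toMonoidHom).comp θ'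
  have hred : ∀ c : G → List G → ℤ, q (va c) =
      ∑ x ∈ z.support, z x • SS θF (cst F (resc H c)) (List.ofFn (L x)) := by
    intro c
    have h1 : ∀ a : A, q a = q.toAddMonoidHom a := fun a => rfl
    rw [h1, map_sum]
    apply sum_congr rfl
    intro x hx
    rw [map_zsmul]
    congr 1
    have h2 := SS_Th (MonoidHom.id _) θ' θF q (MonoidHom.id H) (fun a => rfl) q.toAddMonoidHom
      (fun c v => by simp) (cst F (resc H c)) (cst A (resc H c)) (fun g l => by
        show q ((resc H c g l : ℤ) : A) = ((resc H c g (l.map (MonoidHom.id H)) : ℤ) : F)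
        rw [map_intCast]
        have h2 : l.map (MonoidHom.id H) = l := List.map_id _
        rw [h2]) (List.ofFn (L x))
    have h3 : (List.ofFn (L x)).map (MonoidHom.id (Matrix r r (MonoidAlgebra A H))ˣ) =
        List.ofFn (L x) := List.map_id _
    rw [h3] at h2
    exact h2.symm
  rw [map_pow, hred, hred]
  have hfr := frob_gal (k := F) (G := H) (r := r) hm hpm hptm θF (n + 1)
    (Nat.le_add_left 1 n) (cst F (resc H c)) (Fam.cst (Fam.resc hc H) F) ?_
    (fun g l => ?_) z.support z (fun x => List.ofFn (L x)) hcyc ?_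
  · rw [hfr, cpow_cst, cpow_resc]
  · intro g l h
    have h1 : c g (l.map Subtype.val) ≠ 0 := by
      intro h0
      apply h
      show ((c g (l.map Subtype.val) : ℤ) : F) = 0
      rw [h0, Int.cast_zero]
    apply Subtype.ext
    rw [Subgroup.coe_pow]
    exact hcm _ _ h1
  · have h1 := map_intCast (frobenius F p) (resc H c g l)
    rwa [frobenius_def] at h1
  · intro i hi l hl l' hl' y hy y' hy' _ hd
    have hu' : (y⁻¹ * l.prod * y') ∈ S := by
      rw [Set.mem_iUnion₂]
      refine ⟨i, hi, ?_⟩
      have h1 : XX θF (List.ofFn (L i)) =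
          (XX θ' (List.ofFn (L i))).map (ThM r q (MonoidHom.id H)) := by
        have h2 := XX_Th (MonoidHom.id _) θ' θF q (MonoidHom.id H) (fun a => rfl)
          (List.ofFn (L i))
        have h3 : (List.ofFn (L i)).map (MonoidHom.id (Matrix r r (MonoidAlgebra A H))ˣ) =
          List.ofFn (L i) := List.map_id _
        rw [h3] at h2
        exact h2
      have h2 : (y⁻¹ * l.prod * y') ∈ Sset (XX θF (List.ofFn (L i))) :=
        ⟨l, hl, l', hl', y, hy, y', hy', rfl⟩
      rw [h1] at h2
      exact Sset_Th q _ h2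
    have h4 := hB _ hu'
    have h5 : 0 < orderOf (y⁻¹ * l.prod * y') := by
      rw [orderOf_pos_iff, isOfFinOrder_iff_pow_eq_one]
      refine ⟨p * m, Nat.mul_pos hp.pos hm, ?_⟩
      assumption
    have h6 := Nat.le_of_dvd h5 hd
    omega

end Pool.Agent.Y69.VN
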