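import Pool.Agent.Y69.VN.GalAny

/-!
# Galois equivariance: the number theory
-/

set_option autoImplicit false
set_option linter.unusedSectionVars false

namespace Pool.Agent.Y69.VN

open Finset Pool.Agent.W644.HK Polynomial

universe u v w x y z

/-- congruences modulo `p` in a subring -/
def CG1 {E : Type u} [Field E] (B : Subring E) (p : ℕ) (a b : E) : Prop :=
  ∃ c ∈ B, a = b + p * c

lemma CG1.add {E : Type u} [Field E] {B : Subring E} {p : ℕ} {a b a' b' : E}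
    (h : CG1 B p a b) (h' : CG1 B p a' b') : CG1 B p (a + a') (b + b') := by
  obtain ⟨c, hc, rfl⟩ := h
  obtain ⟨c', hc', rfl⟩ := h'
  exact ⟨c + c', B.add_mem hc hc', by ring⟩

lemma CG1.mul {E : Type u} [Field E] {B : Subring E} {p : ℕ} {a b a' b' : E} (hb : b ∈ B)
    (hb' : b' ∈ B) (h : CG1 B p a b) (h' : CG1 B p a' b') : CG1 B p (a * a') (b * b') := by
  obtain ⟨c, hc, rfl⟩ := h
  obtain ⟨c', hc', rfl⟩ := h'
  refine ⟨b * c' + c * b' + p * (c * c'), ?_, by ring⟩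
  exact B.add_mem (B.add_mem (B.mul_mem hb hc') (B.mul_mem hc hb'))
    (B.mul_mem (natCast_mem B p) (B.mul_mem hc hc'))

lemma CG1.trans {E : Type u} [Field E] {B : Subring E} {p : ℕ} {a b c : E}
    (h : CG1 B p a b) (h' : CG1 B p b c) : CG1 B p a c := by
  obtain ⟨d, hd, rfl⟩ := h
  obtain ⟨d', hd', rfl⟩ := h'
  exact ⟨d' + d, B.add_mem hd' hd, by ring⟩

lemma CG1.symm {E : Type u} [Field E] {B : Subring E} {p : ℕ} {a b : E}
    (h : CG1 B p a b) : CG1 B p b a := by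
  obtain ⟨d, hd, rfl⟩ := h
  exact ⟨-d, B.neg_mem hd, by ring⟩

lemma CG1.pow {E : Type u} [Field E] {B : Subring E} {p : ℕ} {a b : E} (hb : b ∈ B)
    (h : CG1 B p a b) (k : ℕ) : CG1 B p (a ^ k) (b ^ k) := by
  induction k with
  | zero => exact ⟨0, B.zero_mem, by simp⟩
  | succ k ih =>
    rw [pow_succ, pow_succ]
    exact ih.mul (B.pow_mem hb k) hb h

/-- the binomial theorem modulo `p` -/
lemma CG1.add_pow {E : Type u} [Field E] {B : Subring E} {p : ℕ} (hp : p.Prime) {a b : E}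
    (ha : a ∈ B) (hb : b ∈ B) : CG1 B p ((a + b) ^ p) (a ^ p + b ^ p) := by
  have hpp : Fact p.Prime := ⟨hp⟩
  let I : Ideal B := Ideal.span {(p : B)}
  have h0 : ((p : ℕ) : B ⧸ I) = 0 := by
    have : ((p : ℕ) : B ⧸ I) = Ideal.Quotient.mk I (p : B) := by simp
    rw [this]
    exact Ideal.Quotient.eq_zero_iff_mem.2 (Ideal.mem_span_singleton_self _)
  have h1 : Ideal.Quotient.mk I (((⟨a, ha⟩ : B) + ⟨b, hb⟩) ^ p) =
      Ideal.Quotient.mk I ((⟨a, ha⟩ : B) ^ p + (⟨b, hb⟩ : B) ^ p) := by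
    rcases subsingleton_or_nontrivial (B ⧸ I) with hF | hF
    · exact Subsingleton.elim _ _
    have : CharP (B ⧸ I) p := (CharP.charP_iff_prime_eq_zero hp).2 h0
    rw [map_pow, map_add, map_add, map_pow, map_pow, add_pow_char]
  rw [Ideal.Quotient.eq] at h1
  obtain ⟨c, hc⟩ := Ideal.mem_span_singleton.1 h1
  refine ⟨c, c.2, ?_⟩
  have h2 := congrArg (fun a : B => (a : E)) hc
  push_cast at h2
  linear_combination h2

/-- Frobenius on polynomial expressions with integral coefficients -/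
lemma CG1.frob_poly {E : Type u} [Field E] {B : Subring E} {p : ℕ} (hp : p.Prime) {ζ : E}
    (hζ : ζ ∈ B) (P : ℤ[X]) : CG1 B p (aeval ζ P ^ p) (aeval (ζ ^ p) P) := by
  have hmem : ∀ (ζ : E), ζ ∈ B → ∀ P : ℤ[X], aeval ζ P ∈ B := by
    intro ζ hζ P
    rw [aeval_eq_sum_range]
    apply B.sum_mem
    intro i _
    rw [zsmul_eq_mul]
    exact B.mul_mem (intCast_mem B _) (B.pow_mem hζ i)
  induction P using Polynomial.induction_on' with
  | add P Q hP hQ =>
    rw [map_add, map_add]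
    exact (CG1.add_pow hp (hmem ζ hζ P) (hmem ζ hζ Q)).trans (hP.add hQ)
  | monomial k a =>
    rw [aeval_monomial, aeval_monomial, mul_pow]
    obtain ⟨c, hc, h⟩ := Pool.Agent.Y75.Hk.int_cong B p hp a
    have h1 : algebraMap ℤ E a = (a : E) := rfl
    rw [h1, h, ← pow_mul, mul_comm k p, pow_mul]
    refine CG1.mul (intCast_mem B a) (B.pow_mem (B.pow_mem hζ p) k) ⟨c, hc, rfl⟩
      ⟨0, B.zero_mem, by ring⟩

/-- **the number theory**: if `x = y ^ p + p b` for infinitely many primes `p ≡ t` modulo `m` then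
`x` is the conjugate of `y ∈ ℚ(ζ_m)`. -/
theorem galois_of_cong {K : Type u} [Field K] [CharZero K] (s : Finset K) {m t : ℕ} (hm : 0 < m)
    (ht : t.Coprime m) {x y : K}
    (h : ∃ B : ℕ, ∀ p : ℕ, p.Prime → B < p → p ≡ t [MOD m] →
      ∃ b ∈ Algebra.adjoin ℤ (s : Set K), x = y ^ p + p * b)
    {E : Type v} [Field E] [CharZero E] [Algebra K E] (ζ : E) (hζ : ζ ^ m = 1) (P : ℚ[X])
    (hy : algebraMap K E y = aeval ζ P) : algebraMap K E x = aeval (ζ ^ t) P := by
  classical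
  by_contra hne
  set δ : E := algebraMap K E x - aeval (ζ ^ t) P with hδ
  have hδ0 : δ ≠ 0 := sub_ne_zero.2 hne
  -- clearing denominators
  obtain ⟨M, hM0, P', hP'⟩ : ∃ M : ℤ, M ≠ 0 ∧ ∃ P' : ℤ[X],
      P'.map (Int.castRingHom ℚ) = C (M : ℚ) * P := by
    obtain ⟨M, hM, hM'⟩ := IsLocalization.integerNormalization_spec (nonZeroDivisors ℤ) P
    refine ⟨M, nonZeroDivisors.ne_zero hM,
      IsLocalization.integerNormalization (nonZeroDivisors ℤ) P, ?_⟩
    have h1 : (Int.castRingHom ℚ) = algebraMap ℤ ℚ := rfl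
    rw [h1, hM', zsmul_eq_mul]
    simp
  have hev : ∀ e : E, (M : E) * aeval e P = aeval e P' := by
    intro e
    have h1 : aeval e P' = aeval e (P'.map (Int.castRingHom ℚ)) := by
      rw [aeval_def, aeval_def, eval₂_map]
      congr 1
      exact Subsingleton.elim _ _
    rw [h1, hP', map_mul, aeval_C]
    simp
  have hME : (M : E) ≠ 0 := Int.cast_ne_zero.2 hM0
  set T : Finset E := insert ζ (insert (M : E)⁻¹ (insert δ⁻¹ (s.image (algebraMap K E)))) with hT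
  set B : Subring E := (Algebra.adjoin ℤ (T : Set E)).toSubring with hB
  have hTB : ∀ e ∈ T, e ∈ B := fun e he => Algebra.subset_adjoin (Finset.mem_coe.2 he)
  have hζB : ζ ∈ B := hTB _ (mem_insert_self _ _)
  have hMB : (M : E)⁻¹ ∈ B := hTB _ (mem_insert_of_mem (mem_insert_self _ _))
  have hδB : δ⁻¹ ∈ B := hTB _ (mem_insert_of_mem (mem_insert_of_mem (mem_insert_self _ _)))
  have hsB : ∀ b ∈ Algebra.adjoin ℤ (s : Set K), algebraMap K E b ∈ B := by
    intro b hb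
    have h1 : (Algebra.adjoin ℤ (s : Set K)).map
        ((algebraMap K E).toIntAlgHom) ≤ Algebra.adjoin ℤ (T : Set E) := by
      rw [AlgHom.map_adjoin]
      apply Algebra.adjoin_mono
      rintro _ ⟨c, hc, rfl⟩
      rw [hT]
      simp only [coe_insert, coe_image, Set.mem_insert_iff, Set.mem_image]
      exact Or.inr (Or.inr (Or.inr ⟨c, hc, rfl⟩))
    exact h1 ⟨b, hb, rfl⟩
  have hfin := Pool.Agent.H23R2.finite_inv_primes T
  obtain ⟨B₀, hB₀⟩ := h
  have : NeZero m := ⟨hm.ne'⟩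
  have hu : IsUnit (t : ZMod m) := (ZMod.isUnit_iff_coprime t _).2 ht
  have hinf := Nat.infinite_setOfPred_prime_and_eq_mod hu
  obtain ⟨p, ⟨⟨hp, hpt⟩, hpb⟩, hpn⟩ :=
    ((hinf.sdiff (Set.finite_Iic (B₀ + M.natAbs))).sdiff hfin).nonempty
  have hptm : p ≡ t [MOD m] := (ZMod.natCast_eq_natCast_iff p t m).1 hpt
  rw [Set.mem_Iic, not_le] at hpb
  obtain ⟨b, hb, hxy⟩ := hB₀ p hp (by omega) hptm
  apply hpn
  refine ⟨hp, ?_⟩
  -- the congruence for `δ`
  have hpE : (p : E) ≠ 0 := Nat.cast_ne_zero.2 hp.ne_zero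
  have hζt : ζ ^ p = ζ ^ t := by
    have h1 : ζ ^ p = ζ ^ (p % m) := by
      conv_lhs => rw [← Nat.div_add_mod p m, pow_add, pow_mul, hζ, one_pow, one_mul]
    have h2 : ζ ^ t = ζ ^ (t % m) := by
      conv_lhs => rw [← Nat.div_add_mod t m, pow_add, pow_mul, hζ, one_pow, one_mul]
    rw [h1, h2, hptm]
  have hmemP : ∀ e ∈ B, aeval e P' ∈ B := by
    intro e he
    rw [aeval_eq_sum_range]
    apply B.sum_mem
    intro i _
    rw [zsmul_eq_mul]
    exact B.mul_mem (intCast_mem B _) (B.pow_mem he i)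
  have h1 : CG1 B p (((M : E)⁻¹) ^ p) ((M : E)⁻¹) := by
    obtain ⟨c, hc, h⟩ := Pool.Agent.Y75.Hk.int_cong B p hp M
    refine ⟨-(c * ((M : E)⁻¹) ^ (p + 1)), B.neg_mem (B.mul_mem hc (B.pow_mem hMB _)), ?_⟩
    have h1 : ((M : E)⁻¹) ^ (p + 1) * (M : E) ^ p = (M : E)⁻¹ := by
      rw [pow_succ', mul_assoc, ← mul_pow, inv_mul_cancel₀ hME, one_pow, mul_one]
    have h2 : ((M : E)⁻¹) ^ (p + 1) * (M : E) = ((M : E)⁻¹) ^ p := by
      rw [pow_succ, mul_assoc, inv_mul_cancel₀ hME, mul_one]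
    rw [h, mul_add, h2] at h1
    linear_combination h1
  have hyB : algebraMap K E y = (M : E)⁻¹ * aeval ζ P' := by
    rw [hy, ← hev, inv_mul_cancel_left₀ hME]
  have h2 : CG1 B p (algebraMap K E y ^ p) (aeval (ζ ^ t) P) := by
    have h3 : aeval (ζ ^ t) P = (M : E)⁻¹ * aeval (ζ ^ t) P' := by
      rw [← hev, inv_mul_cancel_left₀ hME]
    rw [hyB, mul_pow, h3, ← hζt]
    exact CG1.mul hMB (hmemP _ (B.pow_mem hζB p)) h1 (CG1.frob_poly hp hζB P')
  obtain ⟨c, hc, h3⟩ := h2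
  have h4 : δ = p * (c + algebraMap K E b) := by
    have h5 : algebraMap K E x = algebraMap K E y ^ p + p * algebraMap K E b := by
      rw [hxy]
      simp
    rw [hδ, h5, h3]
    ring
  have h5 : (p : E)⁻¹ = (c + algebraMap K E b) * δ⁻¹ := by
    have h6 : c + algebraMap K E b = (p : E)⁻¹ * δ := by
      rw [h4, inv_mul_cancel_left₀ hpE]
    rw [h6, mul_assoc, mul_inv_cancel₀ hδ0, mul_one]
  rw [h5]
  exact B.mul_mem (B.add_mem hc (hsB b hb)) hδB

end Pool.Agent.Y69.VN
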