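import Pool.Agent.Y69.VN.Gal
import Pool.Agent.Y69.DZ.GalK
import Pool.Agent.Y75.Hk.Three

/-!
# Galois invariance of the Dennis trace over the rational numbers, all degrees, all groups
-/

set_option autoImplicit false
set_option linter.unusedSectionVars false

namespace Pool.Agent.Y69.VN

open Finset Pool.Agent.W644.HK

universe u v w x y z

section tf

variable {k : Type u} [CommRing k] {G : Type v} [Group G] {r : Type w} [Fintype r] [DecidableEq r]
  {V : Type x} [AddCommGroup V] [Module k V]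

/-- the value of a family of cochains on the Dennis trace of a chain -/
noncomputable def TF (c : G → List G → V) {n : ℕ}
    (z : (Fin n → (Matrix r r (MonoidAlgebra k G))ˣ) →₀ ℤ) : V :=
  z.sum fun x a => a • SS (Units.coeHom (Matrix r r (MonoidAlgebra k G))) c (List.ofFn x)

lemma TF_add (c : G → List G → V) {n : ℕ}
    (z z' : (Fin n → (Matrix r r (MonoidAlgebra k G))ˣ) →₀ ℤ) : TF c (z + z') = TF c z + TF c z' := by
  unfold TF
  exact Finsupp.sum_add_index' (fun _ => zero_smul _ _) (fun _ _ _ => add_smul _ _ _)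

lemma TF_zero (c : G → List G → V) {n : ℕ} :
    TF c (0 : (Fin n → (Matrix r r (MonoidAlgebra k G))ˣ) →₀ ℤ) = 0 := Finsupp.sum_zero_index

lemma TF_sum (c : G → List G → V) {n : ℕ} {J : Type*} (s : Finset J)
    (z : J → (Fin n → (Matrix r r (MonoidAlgebra k G))ˣ) →₀ ℤ) :
    TF c (∑ j ∈ s, z j) = ∑ j ∈ s, TF c (z j) := by
  classical
  induction s using Finset.induction_on with
  | empty => simp [TF_zero]
  | insert a s ha ih => rw [sum_insert ha, sum_insert ha, TF_add, ih]

lemma TF_cf {n : ℕ} (f : (Fin (n + 1) → G) → V)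
    (z : (Fin n → (Matrix r r (MonoidAlgebra k G))ˣ) →₀ ℤ) : TF (cf f) z = dennis f z :=
  (dennis_eq f z).symm

/-- evaluation of the bar boundary -/
lemma barB {𝒢 : Type y} [Group 𝒢] {n : ℕ} {A : Type z} [AddCommGroup A]
    (γ : List 𝒢 → A) (z : (Fin (n + 1) → 𝒢) →₀ ℤ) :
    (barBoundary z).sum (fun y a => a • γ (List.ofFn y)) =
      z.sum fun x a => a • ∑ j ∈ range (n + 2), (-1 : ℤ) ^ j • γ (bf j (List.ofFn x)) := by
  let Φ : ((Fin n → 𝒢) →₀ ℤ) →+ A := Finsupp.liftAddHom fun y =>
    (zmultiplesHom A) (γ (List.ofFn y))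
  have hΦ : ∀ y a, Φ (Finsupp.single y a) = a • γ (List.ofFn y) := by
    intro y a
    simp [Φ]
  have h1 : (barBoundary z).sum (fun y a => a • γ (List.ofFn y)) = Φ (barBoundary z) := by
    conv_rhs => rw [← Finsupp.sum_single (barBoundary z)]
    unfold Finsupp.sum
    rw [map_sum]
    apply sum_congr rfl
    intro y _
    rw [hΦ]
  rw [h1, barBoundary, Finsupp.sum, Finsupp.sum, map_sum]
  apply sum_congr rfl
  intro x _
  rw [map_add, map_sum, hΦ, sum_range_succ', smul_add, add_comm]
  congr 1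
  · rw [smul_sum, ← Fin.sum_univ_eq_sum_range
      fun j => z x • (-1 : ℤ) ^ (j + 1) • γ (bf (j + 1) (List.ofFn x))]
    apply sum_congr rfl
    intro j _
    rw [hΦ, bf_succ_ofFn, smul_smul, mul_comm]
  · rw [pow_zero, one_smul, bf_zero_ofFn]

/-- families of cocycles vanish on boundaries -/
lemma TF_bd {n : ℕ} (c : G → List G → V) (hc : Fam n c)
    (z : (Fin (n + 1) → (Matrix r r (MonoidAlgebra k G))ˣ) →₀ ℤ) : TF c (barBoundary z) = 0 := by
  unfold TF
  rw [barB (fun y => SS (Units.coeHom (Matrix r r (MonoidAlgebra k G))) c y) z]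
  unfold Finsupp.sum
  apply sum_eq_zero
  intro x _
  have h1 := TT_bd (Units.coeHom (Matrix r r (MonoidAlgebra k G))) (Equiv.refl r)
    (MonoidHom.id G) (fun a s s' φ => rfl) c (fun x Q l => hc.equiv x Q l) (List.ofFn x)
    (by rw [List.length_ofFn]; omega)
  rw [List.length_ofFn] at h1
  have h2 : (∑ j ∈ range (n + 2), (-1 : ℤ) ^ j •
      SS (Units.coeHom (Matrix r r (MonoidAlgebra k G))) c (bf j (List.ofFn x))) =
      TT (Equiv.refl r) (CF fun Q => bd (c Q))
        (XX (Units.coeHom (Matrix r r (MonoidAlgebra k G))) (List.ofFn x)) := h1.symm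
  beta_reduce
  rw [h2]
  have h3 : TT (Equiv.refl r) (CF fun Q => bd (c Q))
      (XX (Units.coeHom (Matrix r r (MonoidAlgebra k G))) (List.ofFn x)) =
      TT (Equiv.refl r) (fun l => (0 : ℤ) • CF (fun Q => bd (c Q)) l)
        (XX (Units.coeHom (Matrix r r (MonoidAlgebra k G))) (List.ofFn x)) := by
    apply TT_congr
    intro l hl
    rw [length_XX, List.length_ofFn] at hl
    rw [zero_smul, CF, hc.coc _ _ (by rw [length_pts, hl])]
  rw [h3, TT_zsmul_fun, zero_smul, smul_zero]

end tf

section tfmap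

variable {A : Type u} [CommRing A] {K : Type v} [CommRing K] {G : Type w} [Group G]
  {r : Type x} [Fintype r] [DecidableEq r]

/-- change of coefficients on invertible matrices -/
noncomputable def GLm (φ : A →+* K) :
    (Matrix r r (MonoidAlgebra A G))ˣ →* (Matrix r r (MonoidAlgebra K G))ˣ :=
  Units.map (ThM r φ (MonoidHom.id G)).toMonoidHom

/-- naturality in the coefficients, for integral families -/
lemma TF_map (φ : A →+* K) (c : G → List G → ℤ) {n : ℕ}
    (z : (Fin n → (Matrix r r (MonoidAlgebra A G))ˣ) →₀ ℤ) :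
    TF (fun g l => ((c g l : ℤ) : K)) (z.mapDomain fun g i => GLm φ (g i)) =
      φ (TF (fun g l => ((c g l : ℤ) : A)) z) := by
  unfold TF
  refine Eq.trans (Finsupp.sum_mapDomain_index (fun _ => zero_smul _ _)
    (fun _ _ _ => add_smul _ _ _)) ?_
  unfold Finsupp.sum
  rw [map_sum]
  apply sum_congr rfl
  intro x _
  beta_reduce
  rw [map_zsmul]
  congr 1
  have h1 : (List.ofFn fun i => GLm φ (x i)) = (List.ofFn x).map (GLm φ) := by
    rw [List.map_ofFn]
    rfl
  rw [h1]
  refine SS_Th (GLm φ) (Units.coeHom _) (Units.coeHom _) φ (MonoidHom.id G) (fun a => rfl)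
    φ.toAddMonoidHom (fun c v => by simp) _ _ ?_ _
  intro g l
  show φ ((c g l : ℤ) : A) = ((c (MonoidHom.id G g) (l.map (MonoidHom.id G)) : ℤ) : K)
  rw [map_intCast]
  have h2 : l.map (MonoidHom.id G) = l := List.map_id _
  rw [h2]
  rfl

end tfmap

section gal

variable {G : Type v} [Group G] {r : Type w} [Fintype r] [DecidableEq r]

/-- casts of families -/
def cst (S : Type x) [CommRing S] (c : G → List G → ℤ) (g : G) (l : List G) : S :=
  ((c g l : ℤ) : S)

lemma Fam.cst {n : ℕ} {c : G → List G → ℤ} (hc : Fam n c) (S : Type x) [CommRing S] :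
    Fam n (cst S c) := hc.hom (Int.castAddHom S)

lemma cpow_cst (S : Type x) [CommRing S] (m t : ℕ) (c : G → List G → ℤ) :
    cpow m t (cst S c) = cst S (cpow m t c) := by
  classical
  funext g l
  unfold cpow cst
  by_cases h : g ^ m = 1
  · simp [h]
  · simp [h]

/-- restriction of a family to a subgroup -/
def resc (H : Subgroup G) (c : G → List G → ℤ) (g : H) (l : List H) : ℤ :=
  c g (l.map Subtype.val)

lemma Fam.resc {n : ℕ} {c : G → List G → ℤ} (hc : Fam n c) (H : Subgroup G) :
    Fam n (resc H c) where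
  equiv x g l := by
    have h := hc.equiv x g (l.map Subtype.val)
    unfold VN.resc
    rw [List.map_map] at h ⊢
    exact h
  coc g l hl := by
    have h := hc.coc g (l.map Subtype.val) (by rw [List.length_map]; exact hl)
    rw [← bd_map] at h
    exact h

lemma cpow_resc (H : Subgroup G) (m t : ℕ) (c : G → List G → ℤ) :
    cpow m t (resc H c) = resc H (cpow m t c) := by
  funext g l
  have h1 : g ^ m = 1 ↔ (g : G) ^ m = 1 := by
    rw [← Subgroup.coe_pow, ← Subgroup.coe_one (H := H), Subtype.val_inj]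
  unfold resc cpow
  by_cases h : g ^ m = 1
  · simp [h, h1.1 h]
  · have h' : ¬ (g : G) ^ m = 1 := fun h' => h (h1.2 h')
    simp [h, h']

open Pool.Agent.Y75.Hk in
/-- **Galois invariance** over the rational numbers. -/
theorem gal_rat {n : ℕ} (z : (Fin (n + 1) → (Matrix r r (MonoidAlgebra ℚ G))ˣ) →₀ ℤ)
    (hz : barBoundary z = 0) {m t : ℕ} (hm : 0 < m) (ht : t.Coprime m)
    (c : G → List G → ℤ) (hc : Fam (n + 1) c) (hcm : ∀ g l, c g l ≠ 0 → g ^ m = 1) :
    TF (cst ℚ c) z = TF (cst ℚ (cpow m t c)) z := by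
  classical
  -- lifting to a finitely generated ring
  set A : Subring ℚ := (Algebra.adjoin ℤ ((zcoef z : Finset ℚ) : Set ℚ)).toSubring with hAdef
  let H : Subgroup G := ⊤
  have hA : ∀ c ∈ zcoef z, c ∈ A := fun c hc => Algebra.subset_adjoin hc
  obtain ⟨L, hL⟩ := exists_lift_chain z A H hA (fun g _ => Subgroup.mem_top g)
  let θ' : (Matrix r r (MonoidAlgebra A H))ˣ →* Matrix r r (MonoidAlgebra A H) := Units.coeHom _
  let ι₀ : (Matrix r r (MonoidAlgebra A H))ˣ →* (Matrix r r (MonoidAlgebra ℚ G))ˣ :=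
    Units.map (ThM r A.subtype H.subtype).toMonoidHom
  have hinj : Function.Injective (ThM r A.subtype H.subtype) := by
    intro M N h
    ext1 a b
    apply Th_injective A.subtype H.subtype Subtype.val_injective Subtype.val_injective
    rw [← ThM_apply, ← ThM_apply, h]
  have hι₀ : Function.Injective ι₀ := Units.map_injective hinj
  have hofFn : ∀ x ∈ z.support, List.ofFn x = (List.ofFn (L x)).map ι₀ := by
    intro x hx
    rw [List.map_ofFn]
    congr 1
    funext i
    exact (hL x hx i).symm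
  let va : (G → List G → ℤ) → A := fun c =>
    ∑ x ∈ z.support, z x • SS θ' (cst A (resc H c)) (List.ofFn (L x))
  have hva : ∀ c : G → List G → ℤ, ((va c : A) : ℚ) = TF (cst ℚ c) z := by
    intro c
    have h1 : ∀ a : A, (a : ℚ) = A.subtype.toAddMonoidHom a := fun a => rfl
    rw [h1, map_sum]
    unfold TF Finsupp.sum
    apply sum_congr rfl
    intro x hx
    rw [map_zsmul]
    congr 1
    rw [hofFn x hx]
    symm
    apply SS_Th ι₀ θ' (Units.coeHom _) A.subtype H.subtype (fun a => rfl)
      A.subtype.toAddMonoidHom (fun c v => by simp)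
    intro g l
    show A.subtype ((c g (l.map Subtype.val) : ℤ) : A) = ((c g (l.map H.subtype) : ℤ) : ℚ)
    rw [map_intCast]
    rfl
  -- the finite set of group elements
  let S : Set H := ⋃ i ∈ z.support, Sset (XX θ' (List.ofFn (L i)))
  have hSfin : S.Finite := by
    apply Set.Finite.biUnion z.support.finite_toSet
    intro i _
    exact Sset_finite _
  obtain ⟨B, hB⟩ : ∃ B : ℕ, ∀ u ∈ S, orderOf u ≤ B := by
    refine ⟨hSfin.toFinset.sup orderOf, fun u hu => ?_⟩
    exact Finset.le_sup (f := orderOf) (hSfin.mem_toFinset.2 hu)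
  -- the prime
  set ρ : ℚ := TF (cst ℚ c) z - TF (cst ℚ (cpow m t c)) z with hρ
  suffices h : ρ = 0 from sub_eq_zero.1 h
  have : NeZero m := ⟨hm.ne'⟩
  have hu : IsUnit (t : ZMod m) := (ZMod.isUnit_iff_coprime t _).2 ht
  have hinf := Nat.infinite_setOfPred_prime_and_eq_mod hu
  obtain ⟨p, ⟨hp, hpt⟩, hpb⟩ := hinf.exists_gt (B + m + ρ.num.natAbs + (zcoef z).sup Rat.den)
  have hpp : Fact p.Prime := ⟨hp⟩
  have hptm : p ≡ t [MOD m] := (ZMod.natCast_eq_natCast_iff p t m).1 hpt
  have hpm : ¬ p ∣ m := fun h => by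
    have := Nat.le_of_dvd hm h
    omega
  -- the ring homomorphism
  let Ap : Subring ℚ := (PadicInt.subring p).comap (Rat.castHom ℚ_[p])
  have hAAp : A ≤ Ap := by
    intro x hx
    have hx' : x ∈ Algebra.adjoin ℤ ((zcoef z : Finset ℚ) : Set ℚ) := hx
    induction hx' using Algebra.adjoin_induction with
    | mem x hz =>
      show ‖((x : ℚ) : ℚ_[p])‖ ≤ 1
      apply Padic.norm_rat_le_one
      intro hd
      have hx := hz
      have h1 : x.den ≤ (zcoef z).sup Rat.den := Finset.le_sup (f := Rat.den) (Finset.mem_coe.1 hx)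
      have h2 := Nat.le_of_dvd (Rat.den_pos _) hd
      omega
    | algebraMap a => exact intCast_mem Ap a
    | add a b ha' hb' ha hb => exact Ap.add_mem (ha ha') (hb hb')
    | mul a b ha' hb' ha hb => exact Ap.mul_mem (ha ha') (hb hb')
  let q₁ : A →+* ℤ_[p] :=
    { toFun := fun a => ⟨((a : ℚ) : ℚ_[p]), hAAp a.2⟩
      map_one' := Subtype.ext (by simp)
      map_mul' := fun a b => Subtype.ext (by push_cast; rfl)
      map_zero' := Subtype.ext (by simp)
      map_add' := fun a b => Subtype.ext (by push_cast; rfl) }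
  let q : A →+* ZMod p := (PadicInt.toZMod (p := p)).comp q₁
  have hcyc : IsCyc (ZMod p) (n + 1) z.support z fun x => List.ofFn (L x) :=
    isCyc_lift ι₀ hι₀ (ZMod p) z.support z _ _ hofFn (isCyc_of_barBoundary z hz (ZMod p))
  let θF : (Matrix r r (MonoidAlgebra A H))ˣ →* Matrix r r (MonoidAlgebra (ZMod p) H) :=
    ((ThM r q (MonoidHom.id H)).toMonoidHom).comp θ'
  have hred : ∀ c : G → List G → ℤ, q (va c) =
      ∑ x ∈ z.support, z x • SS θF (cst (ZMod p) (resc H c)) (List.ofFn (L x)) := by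
    intro c
    have h1 : ∀ a : A, q a = q.toAddMonoidHom a := fun a => rfl
    rw [h1, map_sum]
    apply sum_congr rfl
    intro x hx
    rw [map_zsmul]
    congr 1
    have h2 := SS_Th (MonoidHom.id _) θ' θF q (MonoidHom.id H) (fun a => rfl) q.toAddMonoidHom
      (fun c v => by simp) (cst (ZMod p) (resc H c)) (cst A (resc H c)) (fun g l => by
        show q ((resc H c g l : ℤ) : A) = ((resc H c g (l.map (MonoidHom.id H)) : ℤ) : ZMod p)
        rw [map_intCast]
        have h2 : l.map (MonoidHom.id H) = l := List.map_id _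
        rw [h2]) (List.ofFn (L x))
    have h3 : (List.ofFn (L x)).map (MonoidHom.id (Matrix r r (MonoidAlgebra A H))ˣ) =
        List.ofFn (L x) := List.map_id _
    rw [h3] at h2
    exact h2.symm
  have hfin : q (va c) = q (va (cpow m t c)) := by
    rw [hred, hred]
    have hfr := frob_gal (k := ZMod p) (G := H) (r := r) hm hpm hptm θF (n + 1)
      (Nat.le_add_left 1 n) (cst (ZMod p) (resc H c)) (Fam.cst (Fam.resc hc H) (ZMod p)) ?_
      (fun g l => ZMod.pow_card _) z.support z (fun x => List.ofFn (L x)) hcyc ?_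
    · rw [hfr, cpow_cst, cpow_resc, ZMod.pow_card]
    · intro g l h
      have h1 : c g (l.map Subtype.val) ≠ 0 := by
        intro h0
        apply h
        show ((c g (l.map Subtype.val) : ℤ) : ZMod p) = 0
        rw [h0, Int.cast_zero]
      apply Subtype.ext
      rw [Subgroup.coe_pow]
      exact hcm _ _ h1
    · intro i hi l hl l' hl' y hy y' hy' _ hd
      have hu' : (y⁻¹ * l.prod * y') ∈ S := by
        rw [Set.mem_iUnion₂]
        refine ⟨i, hi, ?_⟩
        have h1 : XX θF (List.ofFn (L i)) =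
            (XX θ' (List.ofFn (L i))).map (ThM r q (MonoidHom.id H)) := by
          have h2 := XX_Th (MonoidHom.id _) θ' θF q (MonoidHom.id H) (fun a => rfl)
            (List.ofFn (L i))
          have h3 : (List.ofFn (L i)).map (MonoidHom.id (Matrix r r (MonoidAlgebra A H))ˣ) =
            List.ofFn (L i) := List.map_id _
          rw [h3] at h2
          exact h2
        have h2 : (y⁻¹ * l.prod * y') ∈ Sset (XX θF (List.ofFn (L i))) :=
          ⟨l, hl, l', hl', y, hy, y', hy', rfl⟩
        rw [h1] at h2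
        exact Sset_Th q _ h2
      have h4 := hB _ hu'
      have h5 : 0 < orderOf (y⁻¹ * l.prod * y') := by
        rw [orderOf_pos_iff, isOfFinOrder_iff_pow_eq_one]
        refine ⟨p * m, Nat.mul_pos hp.pos hm, ?_⟩
        assumption
      have h6 := Nat.le_of_dvd h5 hd
      omega
  apply Pool.Agent.Y69.DZ.rat_zero ρ p (q₁ (va c) - q₁ (va (cpow m t c)))
  · rw [map_sub]
    show ((va c : ℚ) : ℚ_[p]) - ((va (cpow m t c) : ℚ) : ℚ_[p]) = ((ρ : ℚ) : ℚ_[p])
    rw [hva, hva, hρ]
    push_cast
    rfl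
  · rw [map_sub, sub_eq_zero]
    exact hfin
  · omega

end gal

end Pool.Agent.Y69.VN
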