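import Pool.Agent.Y69.VN.Div

/-!
# Vanishing at elements which are not infinitely divisible, for shift invariant cochains
-/

set_option autoImplicit false
set_option linter.unusedSectionVars false

namespace Pool.Agent.Y69.VN

open Finset Pool.Agent.W644.HK

universe u v w x y z

section quot

variable {G : Type v} [Group G] {V : Type x} [AddCommGroup V] {M : ℕ}

/-- the equivalence relation of shifts by powers of `P` -/
def shiftSetoid (P : G) : Setoid G where
  r a b := ∃ j : ℤ, P ^ j * a = b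
  iseqv := by
    refine ⟨fun a => ⟨0, by simp⟩, ?_, ?_⟩
    · rintro a b ⟨j, rfl⟩
      exact ⟨-j, by rw [← mul_assoc, ← zpow_add]; simp⟩
    · rintro a b c ⟨i, rfl⟩ ⟨j, rfl⟩
      exact ⟨j + i, by rw [zpow_add, mul_assoc]⟩

/-- the class modulo shifts -/
def mk (P a : G) : Quotient (shiftSetoid P) := Quotient.mk _ a

lemma mk_shift (P a : G) : mk P (P * a) = mk P a :=
  (Quotient.sound (s := shiftSetoid P) ⟨1, by simp⟩ : mk P a = mk P (P * a)).symm

/-- a cochain is shift invariant if each point may be multiplied by `P` separately -/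
def SI (c : List G → V) (P : G) : Prop :=
  ∀ (l l' : List G) (a : G), c (l ++ (P * a) :: l') = c (l ++ a :: l')

lemma SI.zpow {c : List G → V} {P : G} (h : SI c P) (j : ℤ) (l l' : List G) (a : G) :
    c (l ++ (P ^ j * a) :: l') = c (l ++ a :: l') := by
  induction j with
  | zero => simp
  | succ i ih =>
    rw [← ih]
    have := h l l' (P ^ (i : ℤ) * a)
    rw [← mul_assoc, ← zpow_one_add, add_comm] at this
    exact this
  | pred i ih =>
    rw [← ih]
    have := h l l' (P ^ (-(i : ℤ) - 1) * a)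
    rw [← mul_assoc, ← zpow_one_add] at this
    rw [← this]
    congr 4
    ring_nf

lemma SI.rel {c : List G → V} {P : G} (h : SI c P) (l l' m : List G)
    (hl : List.Forall₂ (fun a b => mk P a = mk P b) l l') : c (m ++ l) = c (m ++ l') := by
  induction hl generalizing m with
  | nil => rfl
  | @cons a b l l' hab _ ih =>
    obtain ⟨j, hj⟩ := Quotient.exact (s := shiftSetoid P) hab
    have h1 := h.zpow j m l' a
    rw [hj] at h1
    have h2 := ih (m ++ [a])
    rw [List.append_assoc, List.append_assoc] at h2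
    rw [h1]
    exact h2

/-- the induced cochain on the quotient -/
noncomputable def bar (P : G) (c : List G → V) (l : List (Quotient (shiftSetoid P))) : V :=
  c (l.map Quotient.out)

lemma bar_mk {c : List G → V} {P : G} (h : SI c P) (l : List G) : bar P c (l.map (mk P)) = c l := by
  unfold bar
  rw [List.map_map]
  have := h.rel (l.map (Quotient.out ∘ mk P)) l [] (by
    induction l with
    | nil => exact List.Forall₂.nil
    | cons a l ih =>
      refine List.Forall₂.cons ?_ ih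
      exact Quotient.out_eq _)
  simpa using this

lemma cs_bar {c : List G → V} {P : G} (h : SI c P) (l : List (Pt G M)) :
    cs (bar P c) (l.map (Pt.map (mk P))) = cs c l := by
  rw [cs_map]
  congr 1
  funext l'
  exact bar_mk h l'

end quot

section vert2

variable {G : Type v} [Group G] {N : ℕ} [NeZero N] {M : ℕ}

open Classical in
/-- the positions below `N` where the word is in normal form -/
noncomputable def pos (u : ZMod N → G) : Finset ℕ :=
  (range N).filter fun i => sh i u = rep u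

lemma card_pos (u : ZMod N → G) : (pos u).card = N / per u := by
  classical
  have hN : 0 < N := Nat.pos_of_ne_zero (NeZero.ne N)
  obtain ⟨a, ha⟩ := exists_sel u
  have hd0 : 0 < per u := Nat.pos_of_dvd_of_pos (per_dvd u) hN
  have h1 : ∀ i, sh i u = rep u ↔ i ≡ a [MOD per u] := by
    intro i
    rw [← ha]
    rcases le_total a i with hle | hle
    · obtain ⟨t, rfl⟩ := Nat.exists_eq_add_of_le hle
      constructor
      · intro h
        have h2 := (per_spec u t).1 (sh_cancel a t u h)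
        exact ((Nat.modEq_zero_iff_dvd.2 h2).add_left a)
      · intro h
        have h2 : t ≡ 0 [MOD per u] := Nat.ModEq.add_left_cancel' a h
        rw [← sh_sh, (per_spec u t).2 (Nat.modEq_zero_iff_dvd.1 h2)]
    · obtain ⟨t, rfl⟩ := Nat.exists_eq_add_of_le hle
      constructor
      · intro h
        have h2 := (per_spec u t).1 (sh_cancel i t u h.symm)
        exact ((Nat.modEq_zero_iff_dvd.2 h2).add_left i).symm
      · intro h
        have h2 : t ≡ 0 [MOD per u] := Nat.ModEq.add_left_cancel' i h.symm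
        rw [← sh_sh, (per_spec u t).2 (Nat.modEq_zero_iff_dvd.1 h2)]
  have h2 : pos u = (range N).filter fun i => i ≡ a [MOD per u] := by
    unfold pos
    congr 1
    funext i
    exact propext (h1 i)
  rw [h2, ← Nat.count_eq_card_filter_range, Nat.count_modEq_card _ hd0,
    Nat.mod_eq_zero_of_dvd (per_dvd u)]
  simp

lemma root_word (Q Y : ZMod N → G) : ∃ g : G, g ^ (N / per (uu Q Y)) = qq Q N := by
  have hdN : per (uu Q Y) ∣ N := per_dvd _
  have had : sh 0 (uu Q Y) = sh (0 + per (uu Q Y)) (uu Q Y) := by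
    rw [zero_add, (per_spec _ _).2 (dvd_refl _), sh_zero]
  have h1 := yy_of_sh' Q Y 0 (per (uu Q Y)) had (N / per (uu Q Y))
  rw [Nat.mul_div_cancel' hdN, show 0 + N = 0 + 1 * N by ring, yy_add_mul_p, pow_one] at h1
  exact ⟨_, (mul_right_cancel h1).symm⟩

lemma pos_tau (u : ZMod N → G) :
    (pos (sh 1 u)).val.map (fun i => (i + 1) % N) = (pos u).val := by
  classical
  have hN : 0 < N := Nat.pos_of_ne_zero (NeZero.ne N)
  have hinj : Set.InjOn (fun i => (i + 1) % N) (pos (sh 1 u) : Set ℕ) := by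
    intro i hi j hj hij
    have hi' : i < N := mem_range.1 (mem_filter.1 hi).1
    have hj' : j < N := mem_range.1 (mem_filter.1 hj).1
    have h2 : i ≡ j [MOD N] := Nat.ModEq.add_right_cancel' 1 hij
    exact Nat.ModEq.eq_of_lt_of_lt h2 hi' hj'
  rw [← Finset.image_val_of_injOn hinj]
  congr 1
  have hper : ∀ i, sh (i % N) u = sh i u := by
    intro i
    conv_rhs => rw [← Nat.mod_add_div i N, mul_comm, sh_add_mul]
  ext i
  rw [mem_image]
  constructor
  · rintro ⟨j, hj, rfl⟩
    obtain ⟨_, hj2⟩ := mem_filter.1 hj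
    rw [rep_sh, sh_sh] at hj2
    refine mem_filter.2 ⟨mem_range.2 (Nat.mod_lt _ hN), ?_⟩
    rw [hper, hj2]
  · intro hi
    obtain ⟨hi1, hi2⟩ := mem_filter.1 hi
    rw [mem_range] at hi1
    have h3 : (i + N - 1) % N + 1 ≡ i [MOD N] := by
      have h4 : (i + N - 1) % N + 1 ≡ (i + N - 1) + 1 [MOD N] :=
        (Nat.mod_modEq _ _).add_right 1
      have h5 : i + N - 1 + 1 = i + N := by omega
      rw [h5] at h4
      exact h4.trans (by simp [Nat.ModEq])
    have h6 : ((i + N - 1) % N + 1) % N = i := by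
      rw [h3, Nat.mod_eq_of_lt hi1]
    refine ⟨(i + N - 1) % N, mem_filter.2 ⟨mem_range.2 (Nat.mod_lt _ hN), ?_⟩, h6⟩
    rw [rep_sh, sh_sh, ← hper, h6, hi2]

/-- the multiset of the points at the positions in normal form -/
noncomputable def W (Q Y : ZMod N → G) : Multiset G := (pos (uu Q Y)).val.map (yy Q Y)

lemma card_W (Q Y : ZMod N → G) : (W Q Y).card = N / per (uu Q Y) := by
  rw [W, Multiset.card_map, Finset.card_val, card_pos]

lemma mk_yy_mod (Q Y : ZMod N → G) (i : ℕ) :
    mk (qq Q N) (yy Q Y (i % N)) = mk (qq Q N) (yy Q Y i) := by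
  have h1 : i % N + i / N * N = i := by rw [mul_comm]; exact Nat.mod_add_div i N
  conv_rhs => rw [← h1, yy_add_mul_p]
  exact Quotient.sound (s := shiftSetoid (qq Q N)) ⟨((i / N : ℕ) : ℤ), by rw [zpow_natCast]⟩

lemma W_tau (Q Y : ZMod N → G) :
    (W (tau G N Q) (tau G N Y)).map (fun a => mk (qq Q N) (Q 0 * a)) =
      (W Q Y).map (mk (qq Q N)) := by
  unfold W
  rw [uu_tau, Multiset.map_map, Multiset.map_map, ← pos_tau (uu Q Y), Multiset.map_map]
  apply Multiset.map_congr rfl
  intro i _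
  simp only [Function.comp_apply]
  rw [mk_yy_mod, yy_tau, mul_inv_cancel_left]

lemma W_conj (x Q Y : ZMod N → G) :
    W (x * Q * (tau G N x)⁻¹) (x * Y) = (W Q Y).map (x 0 * ·) := by
  unfold W
  rw [uu_conj, Multiset.map_map]
  apply Multiset.map_congr rfl
  intro i _
  exact yy_conj x Q Y i

/-- the vertex map: positions in normal form with equal multiplicities -/
noncomputable def WV (M : ℕ) (Q Y : ZMod N → G) : Pt G M :=
  open Classical in
  if h : (W Q Y).card ∣ M then
    ⟨(M / (W Q Y).card) • W Q Y, by rw [Multiset.card_nsmul, Nat.div_mul_cancel h]⟩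
  else Pt.rep M (Y 0)

lemma WV_pos (Q Y : ZMod N → G) (h : (W Q Y).card ∣ M) :
    (WV M Q Y).1 = (M / (W Q Y).card) • W Q Y := by
  rw [WV, dif_pos h]

lemma WV_conj (M : ℕ) (x Q Y : ZMod N → G) :
    WV M (x * Q * (tau G N x)⁻¹) (x * Y) = (WV M Q Y).map (x 0 * ·) := by
  have hcard : (W (x * Q * (tau G N x)⁻¹) (x * Y)).card = (W Q Y).card := by
    rw [W_conj, Multiset.card_map]
  by_cases hd : (W Q Y).card ∣ M
  · apply Subtype.ext
    show _ = (WV M Q Y).1.map (x 0 * ·)
    rw [WV_pos _ _ (by rwa [hcard]), WV_pos _ _ hd, hcard, W_conj, Multiset.map_nsmul]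
  · rw [WV, dif_neg (by rwa [hcard]), WV, dif_neg hd]
    apply Subtype.ext
    show Multiset.replicate M (x 0 * Y 0) = (Multiset.replicate M (Y 0)).map (x 0 * ·)
    rw [Multiset.map_replicate]

lemma WV_tau (Q Y : ZMod N → G) (hd : (W Q Y).card ∣ M) :
    ((WV M (tau G N Q) (tau G N Y)).map (Q 0 * ·)).map (mk (qq Q N)) =
      (WV M Q Y).map (mk (qq Q N)) := by
  have hcard : (W (tau G N Q) (tau G N Y)).card = (W Q Y).card := by
    rw [← Multiset.card_map (mk (qq Q N)) (W Q Y), ← W_tau, Multiset.card_map]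
  apply Subtype.ext
  show ((WV M (tau G N Q) (tau G N Y)).1.map (Q 0 * ·)).map (mk (qq Q N)) =
    (WV M Q Y).1.map (mk (qq Q N))
  rw [WV_pos _ _ (by rwa [hcard]), WV_pos _ _ hd, Multiset.map_map, Multiset.map_nsmul,
    Multiset.map_nsmul, hcard, ← W_tau]
  rfl

variable {V : Type x} [AddCommGroup V]

/-- rotation invariance -/
lemma CG_WV_tau (c : G → List G → V)
    (hc : ∀ x g l, c (x * g * x⁻¹) (l.map (x * ·)) = c g l)
    (Q : ZMod N → G) (l : List (ZMod N → G))
    (h : (∀ l, c (qq Q N) l = 0) ∨ (SI (c (qq Q N)) (qq Q N) ∧ ∀ Y ∈ l, (W Q Y).card ∣ M)) :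
    CG c (WV M) (tau G N Q) (l.map (tau G N)) = CG c (WV M) Q l := by
  rcases h with h | ⟨hS, hd⟩
  · have hconj := hc ((Q 0)⁻¹) (qq Q N)
    rw [inv_inv] at hconj
    unfold CG
    have h1 : c (qq Q N) = fun _ => 0 := funext h
    have h2 : c (qq (tau G N Q) N) = fun _ => 0 := by
      funext l'
      rw [qq_tau_p]
      have h3 : l' = (l'.map (Q 0 * ·)).map ((Q 0)⁻¹ * ·) := by
        rw [List.map_map]
        conv_lhs => rw [← List.map_id l']
        apply List.map_congr_left
        intro a _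
        simp
      rw [h3, hconj, h]
    rw [h1, h2, cs_zero, cs_zero]
  · unfold CG
    have h1 : Q 0 * qq (tau G N Q) N * (Q 0)⁻¹ = qq Q N := by
      rw [qq_tau_p]
      group
    rw [← cs_conj (M := M) c hc (Q 0), h1, ← cs_bar hS, ← cs_bar hS]
    congr 1
    rw [List.map_map, List.map_map, List.map_map, List.map_map]
    apply List.map_congr_left
    intro Y hY
    exact WV_tau Q Y (hd Y hY)

end vert2

variable {k : Type u} [CommRing k] {G : Type v} [Group G] {r : Type w} [Fintype r] [DecidableEq r]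
  {V : Type x} [AddCommGroup V] [Module k V]

/-- comparison of the value of a cochain with the total of an equivariant vertex map -/
theorem compare' {N : ℕ} [NeZero N] {M : ℕ} (hM : ∀ v : V, M • v = 0 → v = 0)
    (ee : (ZMod N → G) → (ZMod N → G) → Pt G M)
    (hee : ∀ x Q Y, ee (x * Q * (tau G N x)⁻¹) (x * Y) = (ee Q Y).map (x 0 * ·))
    {𝒢 : Type y} [Group 𝒢] (θ : 𝒢 →* Matrix r r (MonoidAlgebra k G))
    (n : ℕ) (hn : 1 ≤ n) (c : G → List G → V) (hc : Fam n c)
    {ι : Type z} (I : Finset ι) (mm : ι → ℤ) (x : ι → List 𝒢) (hz : IsCyc V n I mm x) :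
    M ^ (n + 1) • ∑ i ∈ I, mm i • SS θ c (x i) =
      ∑ i ∈ I, mm i • TT (pperm (Equiv.addRight (1 : ZMod N))) (CF (CG c ee))
        ((XX θ (x i)).map om) := by
  set θ' := omc (ZMod N) θ with hθ'
  set π : (ZMod N → r) ≃ (ZMod N → r) := pperm (Equiv.addRight (1 : ZMod N)) with hπ
  have h1 : ∑ i ∈ I, mm i • TT π (CF fun Q => bd (PG c (F0 M) ee Q)) (XX θ' (x i)) = 0 := by
    rw [← hz.2 fun y => TT π (CF (PG c (F0 M) ee)) (XX θ' y)]
    apply sum_congr rfl
    intro i hi
    rw [TT_bd θ' π (tau G N) (fun a s s' φ => LL_om_perm _ _ _ _ _) _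
      (fun x Q l => PG_conj c hc.equiv (F0 M) ee F0_conj hee x Q l) (x i)
        (by rw [hz.1 i hi]; exact hn), hz.1 i hi]
  have h2 : ∀ i ∈ I, TT π (CF fun Q => bd (PG c (F0 M) ee Q)) (XX θ' (x i)) =
      TT π (CF (CG c ee)) (XX θ' (x i)) -
        TT π (CF (CG c (F0 M))) (XX θ' (x i)) := by
    intro i hi
    rw [← TT_sub_fun]
    apply TT_congr
    intro l hl
    rw [length_XX, hz.1 i hi] at hl
    rw [CF, bd_PG hM c n hc.coc (F0 M) ee _ _ (by rw [length_pts, hl])]
    rfl
  have h3 : ∑ i ∈ I, mm i • TT π (CF (CG c ee)) (XX θ' (x i)) =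
      ∑ i ∈ I, mm i • TT π (CF (CG c (F0 M))) (XX θ' (x i)) := by
    rw [← sub_eq_zero, ← sum_sub_distrib, ← h1]
    apply sum_congr rfl
    intro i hi
    rw [h2 i hi, smul_sub]
  have h4 : ∀ i ∈ I, TT π (CF (CG c (F0 M))) (XX θ' (x i)) = M ^ (n + 1) • SS θ c (x i) := by
    intro i hi
    have h5 : TT π (CF (CG c (F0 M))) (XX θ' (x i)) =
        TT π (fun l => (M ^ (n + 1) : ℤ) • CF (fun (Q : ZMod N → G) l =>
          c (qq Q N) (l.map fun Y => Y 0)) l) (XX θ' (x i)) := by
      apply TT_congr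
      intro l hl
      rw [length_XX, hz.1 i hi] at hl
      rw [CF, CG_F0, length_pts, hl, CF, ← natCast_zsmul]
      push_cast
      rfl
    rw [h5, TT_zsmul_fun, hθ', XX_om, hπ, TT_F c (XX θ (x i)) (prod_XX θ (x i)), SS,
      ← natCast_zsmul]
    push_cast
    rfl
  rw [smul_sum]
  have h6 : ∀ i ∈ I, M ^ (n + 1) • mm i • SS θ c (x i) =
      mm i • TT π (CF (CG c (F0 M))) (XX θ' (x i)) := by
    intro i hi
    rw [h4 i hi, smul_comm]
  rw [sum_congr rfl h6, ← h3]
  apply sum_congr rfl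
  intro i _
  rw [hθ', XX_om]

/-- the divisibility, for sums over necklaces of length `p ^ e` -/
theorem total_div' {p : ℕ} [hp : Fact p.Prime] (e h : ℕ)
    (c : G → List G → V) (hc : ∀ x g l, c (x * g * x⁻¹) (l.map (x * ·)) = c g l)
    (hsupp : ∀ P l, c P l ≠ 0 → SI (c P) P ∧ ∀ g : G, g ^ p ^ h ≠ P)
    (Xs : List (Matrix r r (MonoidAlgebra k G))) :
    ∃ v : V, TT (pperm (Equiv.addRight (1 : ZMod (p ^ e)))) (CF (CG c (WV (p ^ h))))
        (Xs.map om) = p ^ (e - h) • v := by
  classical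
  have hp0 : 0 < p := hp.out.pos
  rw [TT_eq_NN]
  -- roots
  have hroot : ∀ (P g : G) (d : ℕ) (l : List G), c P l ≠ 0 → d ∣ p ^ e → g ^ (p ^ e / d) = P →
      ∃ j, j < h ∧ j ≤ e ∧ p ^ e / d = p ^ j ∧ d = p ^ (e - j) := by
    intro P g d l hcl hd hg
    obtain ⟨i, hi, rfl⟩ := (Nat.dvd_prime_pow hp.out).1 hd
    have h1 : p ^ e / p ^ i = p ^ (e - i) := Nat.pow_div hi hp0
    rw [h1] at hg
    refine ⟨e - i, ?_, by omega, h1, by congr 1; omega⟩
    by_contra hlt
    push Not at hlt
    apply (hsupp P l hcl).2 (g ^ p ^ (e - i - h))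
    rw [← pow_mul, ← pow_add, Nat.sub_add_cancel hlt, hg]
  have hinv : ∀ l : List (ZMod (p ^ e) → G),
      CF (CG c (WV (p ^ h))) (l.map (tau G (p ^ e))) = CF (CG c (WV (p ^ h))) l := by
    intro l
    rw [CF, CF]
    have h5 : (l.map (tau G (p ^ e))).prod = tau G (p ^ e) l.prod := (map_list_prod _ l).symm
    have h6 : pts 1 (l.map (tau G (p ^ e))) = (pts 1 l).map (tau G (p ^ e)) := by
      rw [map_pts (tau G (p ^ e)) (fun a b => (tau G (p ^ e)).map_mul a b), map_one]
    rw [h5, h6]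
    apply CG_WV_tau c hc
    by_cases h0 : ∀ l', c (qq l.prod (p ^ e)) l' = 0
    · exact Or.inl h0
    · right
      push Not at h0
      obtain ⟨l', hl'⟩ := h0
      refine ⟨(hsupp _ l' hl').1, fun Y _ => ?_⟩
      obtain ⟨g, hg⟩ := root_word l.prod Y
      obtain ⟨j, hj, _, hj2, _⟩ := hroot _ g _ l' hl' (per_dvd _) hg
      rw [card_W, hj2]
      exact pow_dvd_pow p hj.le
  apply orbit_div ro _ (p ^ e) _ (pow_pos hp0 e) _ _ rfl
  · exact fun x hx => ro_mem Xs x hx
  · exact fun x _ => ro_iterate_N x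
  · exact fun x _ => NN_ro _ Xs x (hinv x.2)
  · rintro ⟨s, l⟩ _ hF
    set d := Function.minimalPeriod ro (s, l) with hd
    have hper : Function.IsPeriodicPt ro (p ^ e) (s, l) := ro_iterate_N (s, l)
    have hdN : d ∣ p ^ e := hper.minimalPeriod_dvd
    have hfix : ro^[d] (s, l) = (s, l) := Function.isPeriodicPt_minimalPeriod ro (s, l)
    rw [ro_iterate] at hfix
    have hl : l.map (sh d) = l := congrArg Prod.snd hfix
    have hQ : sh d l.prod = l.prod := by rw [← prod_map_sh, hl]
    have hPd : qq l.prod d ^ (p ^ e / d) = qq l.prod (p ^ e) := by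
      rw [← qq_mul_of_sh l.prod d hQ, Nat.mul_div_cancel' hdN]
    have hF' : CF (CG c (WV (p ^ h))) l ≠ 0 := by
      intro h0
      apply hF
      rw [NN, h0, smul_zero]
    have hex : ∃ l', c (qq l.prod (p ^ e)) l' ≠ 0 := by
      by_contra hcon
      push Not at hcon
      apply hF'
      rw [CF, CG]
      have h1 : c (qq l.prod (p ^ e)) = fun _ => 0 := funext hcon
      rw [h1, cs_zero]
    obtain ⟨l', hl'⟩ := hex
    obtain ⟨j, hj, _, _, hj3⟩ := hroot _ _ d l' hl' hdN hPd
    rw [hj3]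
    exact pow_dvd_pow p (by omega)

/-- **Vanishing**: the values of shift invariant cochains at elements which are not infinitely
`p`-divisible. -/
theorem vanish_inf {p : ℕ} [hp : Fact p.Prime] (h : ℕ)
    (htf : ∀ (a : ℕ) (v : V), 0 < a → a • v = 0 → v = 0)
    (hsep : ∀ v : V, (∀ e : ℕ, ∃ v' : V, v = p ^ e • v') → v = 0)
    {𝒢 : Type y} [Group 𝒢] (θ : 𝒢 →* Matrix r r (MonoidAlgebra k G))
    (n : ℕ) (hn : 1 ≤ n) (c : G → List G → V) (hc : Fam n c)
    (hsupp : ∀ P l, c P l ≠ 0 → SI (c P) P ∧ ∀ g : G, g ^ p ^ h ≠ P)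
    {ι : Type z} (I : Finset ι) (mm : ι → ℤ) (x : ι → List 𝒢) (hz : IsCyc V n I mm x) :
    ∑ i ∈ I, mm i • SS θ c (x i) = 0 := by
  have hp0 : 0 < p := hp.out.pos
  have hM : 0 < p ^ h := pow_pos hp0 h
  apply htf ((p ^ h) ^ (n + 1)) _ (pow_pos hM _)
  apply hsep
  intro e
  rw [compare' (N := p ^ (e + h)) (fun v hv => htf _ v hM hv) (WV (p ^ h)) (WV_conj _)
    θ n hn c hc I mm x hz]
  have h1 : ∀ i, ∃ v : V, TT (pperm (Equiv.addRight (1 : ZMod (p ^ (e + h)))))
      (CF (CG c (WV (p ^ h)))) ((XX θ (x i)).map om) = p ^ (e + h - h) • v :=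
    fun i => total_div' (e + h) h c hc.equiv hsupp _
  choose v hv using h1
  refine ⟨∑ i ∈ I, mm i • v i, ?_⟩
  rw [smul_sum]
  apply sum_congr rfl
  intro i _
  rw [hv i, Nat.add_sub_cancel, smul_comm]

end Pool.Agent.Y69.VN
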