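import Pool.Agent.Y69.VN.ProdVal
import Pool.Agent.Y69.VN.GalQ
import Pool.Agent.Y69.VN.Asm

/-!
# The value of cocycles on classes `[F] · x` and vanishing over local rings
-/

set_option autoImplicit false
set_option linter.unusedSectionVars false

namespace Pool.Agent.Y69.VN

open Finset Pool.Agent.W644.HK

universe u v w x y z

section val

variable {K : Type u} [CommRing K] {G : Type v} [Group G] {r : Type w} [Fintype r] [DecidableEq r]
  {C : Type x} [Group C] [IsMulCommutative C] [Fintype C] {Z : Type y} [Group Z]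

lemma Fam.comp {V : Type*} [AddCommGroup V] {H : Type*} [Group H] {n : ℕ} {c : G → List G → V}
    (hc : Fam n c) (j : H →* G) : Fam n fun g l => c (j g) (l.map j) where
  equiv x g l := by
    have h := hc.equiv (j x) (j g) (l.map j)
    rw [List.map_map] at h ⊢
    rw [map_mul, map_mul, map_inv]
    have h2 : (j ∘ fun y => x * y) = ((fun y => j x * y) ∘ j) := by
      funext y
      exact map_mul j x y
    rw [h2]
    exact h
  coc g l hl := by
    have h := hc.coc (j g) (l.map j) (by rw [List.length_map]; exact hl)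
    rw [← bd_map] at h
    exact h

lemma SS_pull (j : C × Z →* G) (F : Matrix r r (MonoidAlgebra K C)) (hF : F * F = F)
    (c : G → List G → ℤ)
    (u : Z →* (Matrix r r (MonoidAlgebra K G))ˣ)
    (hu : ∀ h, (u h : Matrix r r (MonoidAlgebra K G)) =
      ThM (H := C × Z) r (RingHom.id K) j (rvHom (Z := Z) F hF h)) (x : List Z) :
    SS (k := K) (G := G) (r := r) (Units.coeHom _) (cst K c) (x.map u) =
      SS (k := K) (G := C × Z) (r := r) (rvHom (Z := Z) F hF)
        (fun g l => cst K c (j g) (l.map j)) x := by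
  have h := SS_Th (A := K) (K := K) (H := C × Z) (G := G) (r := r) (V := K) (V' := K)
    u (rvHom (Z := Z) F hF) (Units.coeHom _) (RingHom.id K) j hu (AddMonoidHom.id K)
    (fun c v => rfl) (cst K c) (fun g l => cst K c (j g) (l.map j)) (fun g l => rfl) x
  exact h

lemma chain_val (j : C × Z →* G) (F : Matrix r r (MonoidAlgebra K C)) (hF : F * F = F)
    (hM : ∀ v : K, Fintype.card C • v = 0 → v = 0) {n : ℕ} (c : G → List G → ℤ)
    (hc : Fam (n + 1) c) (X : (Fin (n + 1) → Z) →₀ ℤ) (hX : barBoundary X = 0)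
    (u : Z →* (Matrix r r (MonoidAlgebra K G))ˣ)
    (hu : ∀ h, (u h : Matrix r r (MonoidAlgebra K G)) =
      ThM (H := C × Z) r (RingHom.id K) j (rvHom (Z := Z) F hF h)) :
    TF (cst K c) (X.mapDomain fun h i => u (h i)) =
      LL (fun γ : C => ∑ h ∈ X.support, X h •
        cst K c (j (γ, 1)) ((pts 1 (inr C (cl (List.ofFn h)))).map j)) F.trace := by
  have h1 := prod_val (k := K) (V := K) (Z := Z) F hF hM (n + 1) (Nat.le_add_left 1 n)
    (fun g l => cst K c (j g) (l.map j)) (Fam.comp (Fam.cst hc K) j) X.support X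
    (fun h => List.ofFn h) (isCyc_of_barBoundary X hX K)
  refine Eq.trans ?_ h1
  unfold TF
  refine Eq.trans (Finsupp.sum_mapDomain_index (fun _ => zero_smul _ _)
    (fun _ _ _ => add_smul _ _ _)) ?_
  unfold Finsupp.sum
  apply sum_congr rfl
  intro h _
  beta_reduce
  congr 1
  have h2 : (List.ofFn fun i => u (h i)) = (List.ofFn h).map u := by
    rw [List.map_ofFn]
    rfl
  rw [h2]
  exact SS_pull j F hF c u hu (List.ofFn h)

/-- evaluation of the family of a Hochschild cochain at a point of `C` -/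
lemma cf_point (j : C × Z →* G) {n : ℕ} (f : (Fin (n + 1) → G) → ℤ) (h : Fin n → Z)
    (a : G) (ha : ∀ b : Z, Commute a (j (1, b))) :
    cf f a ((pts 1 (inr C (cl (List.ofFn h)))).map j) =
      f (Fin.cons (a * (List.ofFn fun i => j (1, h i)).prod⁻¹) fun i => j (1, h i)) := by
  set g : Fin (n + 1) → G :=
    Fin.cons (a * (List.ofFn fun i => j (1, h i)).prod⁻¹) fun i => j (1, h i) with hg
  rw [← cf_rot f g]
  have h1 : rot g = (List.ofFn fun i => j (1, h i)) ++
      [a * (List.ofFn fun i => j (1, h i)).prod⁻¹] := rfl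
  have hcomm : Commute a (List.ofFn fun i => j (1, h i)).prod := by
    apply Commute.list_prod_right
    intro b hb
    obtain ⟨i, rfl⟩ := (List.mem_ofFn' _ _).1 hb
    exact ha _
  have h2 : (rot g).prod = a := by
    rw [h1, List.prod_append, List.prod_singleton, ← mul_assoc, ← hcomm.eq]
    group
  rw [h2]
  congr 1
  rw [h1, map_pts j (fun a b => map_mul j a b), map_one]
  have h3 : (inr C (cl (List.ofFn h))).map j = (List.ofFn fun i => j (1, h i)) ++
      [j (1, (List.ofFn h).prod⁻¹)] := by
    unfold inr cl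
    rw [List.map_append, List.map_append, List.map_map, List.map_ofFn]
    rfl
  rw [h3, pts_append, pts_append]
  rfl

end val

section loc

variable {A : Type u} [CommRing A] {G : Type v} [Group G] {r : Type w} [Fintype r] [DecidableEq r]

/-- vanishing, with conditions on the finitely generated subgroups only -/
theorem vanish_loc (htf : ∀ (a : ℕ) (v : A), 0 < a → a • v = 0 → v = 0) {n : ℕ}
    (z : (Fin (n + 1) → (Matrix r r (MonoidAlgebra A G))ˣ) →₀ ℤ) (hz : barBoundary z = 0)
    (c : G → List G → ℤ) (hc : Fam (n + 1) c)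
    (hsupp : ∀ P l, c P l ≠ 0 → IsOfFinOrder P ∧ ∀ H : Subgroup G, H.FG → ∃ p : ℕ, p.Prime ∧
      (∀ v : A, (∀ e : ℕ, ∃ v' : A, v = p ^ e • v') → v = 0) ∧
        ∃ h : ℕ, ∀ a ∈ H, a ^ p ^ h ≠ P) :
    TF (cst A c) z = 0 := by
  classical
  let A' : Subring A := ⊤
  let H : Subgroup G := Subgroup.closure (zsupp z : Set G)
  have hHfg : H.FG := ⟨zsupp z, rfl⟩
  obtain ⟨L, hL⟩ := exists_lift_chain z A' H (fun _ _ => Subring.mem_top _)
    (fun g hg => Subgroup.subset_closure hg)
  let θ' : (Matrix r r (MonoidAlgebra A' H))ˣ →* Matrix r r (MonoidAlgebra A' H) :=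
    Units.coeHom _
  let ι₀ : (Matrix r r (MonoidAlgebra A' H))ˣ →* (Matrix r r (MonoidAlgebra A G))ˣ :=
    Units.map (ThM r A'.subtype H.subtype).toMonoidHom
  have hinj : Function.Injective (ThM r A'.subtype H.subtype) := by
    intro M N h
    ext1 a b
    apply Th_injective A'.subtype H.subtype Subtype.val_injective Subtype.val_injective
    rw [← ThM_apply, ← ThM_apply, h]
  have hι₀ : Function.Injective ι₀ := Units.map_injective hinj
  have hofFn : ∀ x ∈ z.support, List.ofFn x = (List.ofFn (L x)).map ι₀ := by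
    intro x hx
    rw [List.map_ofFn]
    congr 1
    funext i
    exact (hL x hx i).symm
  have hval : A'.subtype (∑ x ∈ z.support, z x • SS θ' (cst A' (resc H c)) (List.ofFn (L x))) =
      TF (cst A c) z := by
    have h1 : ∀ a : A', A'.subtype a = A'.subtype.toAddMonoidHom a := fun a => rfl
    rw [h1, map_sum]
    unfold TF Finsupp.sum
    apply sum_congr rfl
    intro x hx
    rw [map_zsmul]
    congr 1
    rw [hofFn x hx]
    symm
    apply SS_Th ι₀ θ' (Units.coeHom _) A'.subtype H.subtype (fun a => rfl)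
      A'.subtype.toAddMonoidHom (fun c v => by simp)
    intro g l
    show A'.subtype ((c g (l.map Subtype.val) : ℤ) : A') = ((c g (l.map H.subtype) : ℤ) : A)
    rw [map_intCast]
    rfl
  have hcyc : IsCyc A' (n + 1) z.support z fun x => List.ofFn (L x) :=
    isCyc_lift ι₀ hι₀ A' z.support z _ _ hofFn (isCyc_of_barBoundary z hz A')
  rw [← hval]
  have htf' : ∀ (a : ℕ) (v : A'), 0 < a → a • v = 0 → v = 0 := by
    intro a v ha hv
    apply Subtype.ext
    apply htf a (v : A) ha
    have := congrArg A'.subtype hv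
    rwa [map_nsmul, map_zero] at this
  have h0 := vanish_fam (k := A') (G := H) (r := r) (V := A') htf' θ' (n + 1)
    (Nat.le_add_left 1 n) (cst A' (resc H c)) (Fam.cst (Fam.resc hc H) A') ?_ z.support z
    (fun x => List.ofFn (L x)) hcyc
  · rw [h0, map_zero]
  · intro P l hPl
    have h1 : c P (l.map Subtype.val) ≠ 0 := by
      intro h0
      apply hPl
      show ((c P (l.map Subtype.val) : ℤ) : A') = 0
      rw [h0, Int.cast_zero]
    obtain ⟨hfin, hH⟩ := hsupp _ _ h1
    obtain ⟨p, hp, hsep, h, hroot⟩ := hH H hHfg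
    refine ⟨Or.inl ?_, p, hp, ?_, h, ?_⟩
    · exact (Submonoid.isOfFinOrder_coe (H := H.toSubmonoid)).1 hfin
    · intro v hv
      apply Subtype.ext
      apply hsep
      intro e
      obtain ⟨v', hv'⟩ := hv e
      refine ⟨v', ?_⟩
      rw [hv']
      exact map_nsmul A'.subtype _ _
    · intro g hg
      apply hroot g g.2
      rw [← hg, Subgroup.coe_pow]

end loc

end Pool.Agent.Y69.VN
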