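import Pool.Agent.Y69.VN.Asm
import Pool.Agent.W644.HK.Char0Main

/-!
# Vanishing of Dennis traces, with conditions on the finitely generated subgroups only
-/

set_option autoImplicit false
set_option linter.unusedSectionVars false

namespace Pool.Agent.Y69.VN

open Finset Pool.Agent.W644.HK

universe u v w x y z

/-- the vertices of the lifted tuple of points -/
lemma coe_pointWord {G : Type v} [Group G] (H : Subgroup G) {n : ℕ} (P : H)
    (y : Fin (n + 1) → H) :
    (fun i => ((pointWord P y i : H) : G)) = pointWord (P : G) fun i => (y i : G) := by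
  funext i
  unfold pointWord
  split_ifs <;> push_cast <;> rfl

/-- **Vanishing**, for the Dennis trace, with a local condition on the height. -/
theorem dennis_zero_loc {k : Type u} [CommRing k] {G : Type v} [Group G] {r : Type w} [Fintype r]
    [DecidableEq r] {V : Type x} [AddCommGroup V] [Module k V]
    (htf : ∀ (a : ℕ) (v : V), 0 < a → a • v = 0 → v = 0) {n : ℕ}
    (z : (Fin (n + 1) → (Matrix r r (MonoidAlgebra k G))ˣ) →₀ ℤ) (hz : barBoundary z = 0)
    (f : (Fin (n + 2) → G) → V) (hf : IsHochschildCocycle f)
    (hcyc : ∀ (P : G) (y : Fin (n + 2) → G) (j : Fin (n + 2)), ¬ IsOfFinOrder P →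
      f (pointWord P (Function.update y j (P * y j))) = f (pointWord P y))
    (hsupp : ∀ g : Fin (n + 2) → G, f g ≠ 0 → ∀ H : Subgroup G, H.FG → ∃ p : ℕ, p.Prime ∧
      (∀ v : V, (∀ e : ℕ, ∃ v' : V, v = p ^ e • v') → v = 0) ∧
        ∃ h : ℕ, ∀ a ∈ H, a ^ p ^ h ≠ (List.ofFn g).prod) :
    dennis f z = 0 := by
  classical
  set A : Subring k := ⊤ with hAdef
  set H : Subgroup G := Subgroup.closure ((zsupp z : Finset G) : Set G) with hH
  have hHfg : H.FG := ⟨zsupp z, rfl⟩
  obtain ⟨L, hL⟩ := exists_lift_chain z A H (fun c _ => Subring.mem_top c)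
    (fun g hg => Subgroup.subset_closure hg)
  set f' : (Fin (n + 2) → H) → V := fun g => f fun i => (g i : G) with hf'
  let θ' : (Matrix r r (MonoidAlgebra A H))ˣ →* Matrix r r (MonoidAlgebra A H) := Units.coeHom _
  let ι₀ : (Matrix r r (MonoidAlgebra A H))ˣ →* (Matrix r r (MonoidAlgebra k G))ˣ :=
    Units.map (ThM r A.subtype H.subtype).toMonoidHom
  have hinj : Function.Injective (ThM r A.subtype H.subtype) := by
    intro M N h
    ext1 a b
    apply Th_injective A.subtype H.subtype Subtype.val_injective Subtype.val_injective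
    rw [← ThM_apply, ← ThM_apply, h]
  have hι₀ : Function.Injective ι₀ := Units.map_injective hinj
  have hofFn : ∀ x ∈ z.support, List.ofFn x = (List.ofFn (L x)).map ι₀ := by
    intro x hx
    rw [List.map_ofFn]
    congr 1
    funext i
    exact (hL x hx i).symm
  have hval : ∑ x ∈ z.support, z x • SS θ' (cf f') (List.ofFn (L x)) = dennis f z := by
    rw [dennis_eq]
    apply sum_congr rfl
    intro x hx
    congr 1
    rw [hofFn x hx]
    symm
    apply SS_Th ι₀ θ' (Units.coeHom _) A.subtype H.subtype (fun a => rfl)
      (AddMonoidHom.id V) (fun c v => rfl)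
    intro g l
    apply cf_map
    intro g
    rfl
  have hcycz : IsCyc V (n + 1) z.support z fun x => List.ofFn (L x) :=
    isCyc_lift ι₀ hι₀ V z.support z _ _ hofFn (isCyc_of_barBoundary z hz V)
  have hcoc : IsHochschildCocycle f' := hoch_comp f hf H.subtype
  rw [← hval]
  refine vanish_fam (k := A) (G := H) (r := r) (V := V) htf θ' (n + 1)
    (Nat.le_add_left 1 n) (cf f') (fam_cf f' hcoc) ?_ z.support z
    (fun x => List.ofFn (L x)) hcycz
  intro P l hPl
  have hlen : l.length = n + 2 := by
    by_contra hne
    exact hPl (cf_of_length_ne f' P l hne)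
  constructor
  · by_cases hP : IsOfFinOrder P
    · exact Or.inl hP
    · right
      apply SI_cf f' P
      intro y j
      have hP' : ¬ IsOfFinOrder (P : G) := fun h =>
        hP ((Submonoid.isOfFinOrder_coe (H := H.toSubmonoid)).1 h)
      have h1 := hcyc (P : G) (fun i => (y i : G)) j hP'
      have h3 : (fun i => ((Function.update y j (P * y j) i : H) : G)) =
          Function.update (fun i => (y i : G)) j ((P : G) * (y j : G)) := by
        funext i
        by_cases hi : i = j
        · subst hi
          simp
        · rw [Function.update_of_ne hi, Function.update_of_ne hi]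
      show f (fun i => ((pointWord P (Function.update y j (P * y j)) i : H) : G)) =
        f (fun i => ((pointWord P y i : H) : G))
      rw [coe_pointWord, coe_pointWord, h3, h1]
  · rw [cf_of_length f' P l hlen] at hPl
    obtain ⟨p, hp, hsep, h, hroot⟩ := hsupp _ hPl H hHfg
    refine ⟨p, hp, hsep, h, ?_⟩
    have h2 : (List.ofFn fun i => ((lt (n := n + 1) P l i : H) : G)).prod =
        (((List.ofFn (lt (n := n + 1) P l)).prod : H) : G) := by
      have := map_list_prod H.subtype (List.ofFn (lt (n := n + 1) P l))
      rw [List.map_ofFn] at this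
      exact this.symm
    rw [h2, prod_lt] at hroot
    intro g hg
    apply hroot ((l.getD (n + 1) 1)⁻¹ * g * l.getD (n + 1) 1 : H)
      ((l.getD (n + 1) 1)⁻¹ * g * l.getD (n + 1) 1 : H).2
    rw [← Subgroup.coe_pow]
    congr 1
    have h3 := conj_pow (a := (l.getD (n + 1) 1)⁻¹) (b := g) (i := p ^ h)
    rw [inv_inv] at h3
    rw [h3, hg]

end Pool.Agent.Y69.VN
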