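import Pool.Agent.W644.HK.Trans

/-!
# Multilinear extension of cochains to multisets of points of fixed size
-/

set_option autoImplicit false
set_option linter.unusedSectionVars false

namespace Pool.Agent.Y69.VN

open Finset Pool.Agent.W644.HK

universe u v w x y z

section ms

variable {G : Type v} {V : Type x} [AddCommGroup V]

/-- the multilinear extension of a cochain to lists of multisets of points -/
def ce : (List G → V) → List (Multiset G) → V
  | c, [] => c []
  | c, Z :: l => (Z.map fun g => ce (fun l' => c (g :: l')) l).sum

@[simp] lemma ce_nil (c : List G → V) : ce c [] = c [] := by rw [ce]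

lemma ce_cons (c : List G → V) (Z : Multiset G) (l : List (Multiset G)) :
    ce c (Z :: l) = (Z.map fun g => ce (fun l' => c (g :: l')) l).sum := by rw [ce]

lemma ce_sub (c c' : List G → V) (l : List (Multiset G)) :
    ce (fun l => c l - c' l) l = ce c l - ce c' l := by
  induction l generalizing c c' with
  | nil => simp
  | cons Z l ih =>
    rw [ce_cons, ce_cons, ce_cons, ← Multiset.sum_map_sub]
    congr 1
    apply Multiset.map_congr rfl
    intro g _
    exact ih _ _

lemma ce_zero (l : List (Multiset G)) : ce (fun _ => (0 : V)) l = 0 := by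
  induction l with
  | nil => simp
  | cons Z l ih =>
    rw [ce_cons]
    simp only [ih]
    simp

lemma ce_congr_len (c c' : List G → V) (l : List (Multiset G))
    (h : ∀ l' : List G, l'.length = l.length → c l' = c' l') : ce c l = ce c' l := by
  induction l generalizing c c' with
  | nil => simpa using h [] rfl
  | cons Z l ih =>
    rw [ce_cons, ce_cons]
    congr 1
    apply Multiset.map_congr rfl
    intro g _
    exact ih _ _ (fun l' hl' => h _ (by simp [hl']))

lemma bd_msum {α β : Type*} (Z : Multiset β) (c : β → List α → V) (l : List α) :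
    bd (fun l => (Z.map fun g => c g l).sum) l = (Z.map fun g => bd (c g) l).sum := by
  induction Z using Multiset.induction_on with
  | empty =>
    simp only [Multiset.map_zero, Multiset.sum_zero]
    exact bd_zero l
  | cons b Z ih =>
    simp only [Multiset.map_cons, Multiset.sum_cons]
    rw [← ih, bd_eq_sum, bd_eq_sum, bd_eq_sum, ← sum_add_distrib]
    simp only [smul_add]

/-- the multilinear extension commutes with the coboundary up to the size of the multisets -/
lemma ce_bd (M : ℕ) (c : List G → V) (l : List (Multiset G)) (hl : ∀ Z ∈ l, Z.card = M) :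
    ce (bd c) l = M • bd (ce c) l := by
  induction l generalizing c with
  | nil => simp
  | cons Z l ih =>
    have hl' : ∀ Z ∈ l, Z.card = M := fun Z' hZ' => hl Z' (List.mem_cons_of_mem _ hZ')
    have hZ : Z.card = M := hl Z List.mem_cons_self
    rw [ce_cons, bd_cons]
    have h1 : ∀ g : G, ce (fun l' => bd c (g :: l')) l =
        ce c l - M • bd (ce fun l'' => c (g :: l'')) l := by
      intro g
      have h2 : (fun l' => bd c (g :: l')) =
          fun l' => c l' - bd (fun l'' => c (g :: l'')) l' := by
        funext l'
        rw [bd_cons]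
      rw [h2, ce_sub, ih (fun l'' => c (g :: l'')) hl']
    simp only [h1]
    rw [Multiset.sum_map_sub, Multiset.map_const', Multiset.sum_replicate, hZ,
      Multiset.sum_map_nsmul, ← smul_sub]
    congr 2
    have h3 : (fun l' => ce c (Z :: l')) =
        fun l' => (Z.map fun g => ce (fun l'' => c (g :: l'')) l').sum := by
      funext l'
      rw [ce_cons]
    rw [h3, bd_msum]

lemma ce_map {H : Type*} (φ : G → H) (c : List H → V) (l : List (Multiset G)) :
    ce c (l.map (Multiset.map φ)) = ce (fun l' => c (l'.map φ)) l := by
  induction l generalizing c with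
  | nil => simp
  | cons Z l ih =>
    rw [List.map_cons, ce_cons, ce_cons, Multiset.map_map]
    congr 1
    apply Multiset.map_congr rfl
    intro g _
    exact ih _

lemma ce_replicate (M : ℕ) (c : List G → V) (l : List G) :
    ce c (l.map (Multiset.replicate M)) = M ^ l.length • c l := by
  induction l generalizing c with
  | nil => simp
  | cons a l ih =>
    rw [List.map_cons, ce_cons, Multiset.map_replicate, Multiset.sum_replicate, ih,
      List.length_cons, pow_succ, mul_comm, mul_smul]

end ms

section sym

variable {G : Type v} {V : Type x} [AddCommGroup V] {M : ℕ}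

/-- multisets of points of size `M` -/
abbrev Pt (G : Type v) (M : ℕ) : Type v := {Z : Multiset G // Z.card = M}

/-- the image of a multiset of points -/
def Pt.map {H : Type w} (φ : G → H) (Z : Pt G M) : Pt H M :=
  ⟨Z.1.map φ, by rw [Multiset.card_map, Z.2]⟩

/-- a point with multiplicity `M` -/
def Pt.rep (M : ℕ) (g : G) : Pt G M := ⟨Multiset.replicate M g, Multiset.card_replicate M g⟩

/-- the extension to lists of multisets of size `M` -/
def cs (c : List G → V) (l : List (Pt G M)) : V := ce c (l.map Subtype.val)

lemma bd_cs (hM : ∀ v : V, M • v = 0 → v = 0) (c : List G → V) (n : ℕ)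
    (hc : ∀ l : List G, l.length = n → bd c l = 0) (l : List (Pt G M)) (hl : l.length = n) :
    bd (cs c) l = 0 := by
  apply hM
  have h1 : bd (cs c) l = bd (ce c) (l.map Subtype.val) := bd_map (ce c) Subtype.val l
  rw [h1, ← ce_bd M c]
  · rw [ce_congr_len (bd c) (fun _ => 0), ce_zero]
    intro l' hl'
    exact hc l' (by rw [hl', List.length_map, hl])
  · intro Z hZ
    obtain ⟨Z', _, rfl⟩ := List.mem_map.1 hZ
    exact Z'.2

lemma cs_zero (l : List (Pt G M)) : cs (fun _ => (0 : V)) l = 0 := ce_zero _

lemma bd_cs_zero (l : List (Pt G M)) : bd (cs (fun _ : List G => (0 : V))) l = 0 := by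
  rw [bd_eq_sum]
  simp [cs_zero]

lemma cs_map {H : Type*} (φ : G → H) (c : List H → V) (l : List (Pt G M)) :
    cs c (l.map (Pt.map φ)) = cs (fun l' => c (l'.map φ)) l := by
  unfold cs
  rw [← ce_map, List.map_map, List.map_map]
  rfl

lemma cs_rep (c : List G → V) (l : List G) :
    cs (M := M) c (l.map (Pt.rep M)) = M ^ l.length • c l := by
  unfold cs
  rw [← ce_replicate, List.map_map]
  rfl

end sym

end Pool.Agent.Y69.VN
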