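import Pool.Agent.Y69.VN.Gal
import Pool.Agent.Y69.VN.Inf
import Pool.Agent.W644.HK.Nat

/-!
# The Dennis trace of products of idempotents over `k[C]` and classes of the centralizer
-/

set_option autoImplicit false
set_option linter.unusedSectionVars false

namespace Pool.Agent.Y69.VN

open Finset Pool.Agent.W644.HK

universe u v w x y z

section none

variable {k : Type u} [CommRing k] {G : Type v} [Group G] {r : Type w} [Fintype r] [DecidableEq r]
  {V : Type x} [AddCommGroup V] [Module k V] {M : ℕ}

/-- for necklaces of length one nothing happens -/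
lemma TT_one (c : G → List G → V) (e : G → Pt G M) (Xs : List (Matrix r r (MonoidAlgebra k G))) :
    TT (pperm (Equiv.addRight (1 : ZMod 1))) (CF (CG c fun _ (Y : ZMod 1 → G) => e (Y 0)))
      (Xs.map om) =
      TT (Equiv.refl r) (fun l => cs (c l.prod) ((pts 1 l).map e)) Xs := by
  classical
  have h0 : ∀ s : ZMod 1 → r, pperm (Equiv.addRight (1 : ZMod 1)) s = s := by
    intro s
    funext j
    rw [pperm_apply]
    congr 1
    exact Subsingleton.elim _ _
  have h1 : ∀ s : ZMod 1 → r, EE (Xs.map om) s s (CF (CG c fun _ (Y : ZMod 1 → G) => e (Y 0))) =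
      EE Xs (s 0) (s 0) (fun l => cs (c l.prod) ((pts 1 l).map e)) := by
    intro s
    have hF : CF (CG c fun _ (Y : ZMod 1 → G) => e (Y 0)) =
        fun l : List (ZMod 1 → G) => (fun l => cs (c l.prod) ((pts 1 l).map e)) (unt l 0) := by
      funext l
      rw [CF, CG]
      have h2 : l.prod = fun _ => (unt l 0).prod := by
        funext j
        have h3 : j = 0 := Subsingleton.elim _ _
        rw [h3]
        exact map_list_prod (Pi.evalMonoidHom (fun _ : ZMod 1 => G) 0) l
      have h3 : qq l.prod 1 = (unt l 0).prod := by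
        rw [h2, qq_const, pow_one]
      have h5 : (pts 1 l).map (fun Y => Y 0) = pts 1 (unt l 0) :=
        map_pts (fun Y : ZMod 1 → G => Y 0) (fun _ _ => rfl) 1 l
      simp only
      rw [h3, ← h5, List.map_map]
      rfl
    rw [hF, EE_unt Xs s s fun f => (fun l => cs (c l.prod) ((pts 1 l).map e)) (f 0), EE]
    have h2 : (tens fun j => mu Xs (s j) (s j)) =
        (mu Xs (s 0) (s 0)).mapDomain fun l => fun _ : ZMod 1 => l := by
      ext f
      have hf : f = (fun l => fun _ : ZMod 1 => l) (f 0) := by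
        funext j
        simp only
        congr 1
        exact Subsingleton.elim _ _
      rw [tens_apply, hf, Finsupp.mapDomain_apply]
      · rw [Fintype.prod_unique]
        have hd : ∀ j : ZMod 1, s j = s 0 := fun j => congrArg s (Subsingleton.elim _ _)
        rw [hd]
      · intro a b hab
        exact congrFun hab 0
    rw [h2, Finsupp.linearCombination_mapDomain]
    rfl
  unfold TT
  simp_rw [h0, h1]
  exact Fintype.sum_equiv (Equiv.funUnique (ZMod 1) r) _ _ (fun s => rfl)

/-- averaging over an equivariant multiset -/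
theorem average' (e : G → Pt G M) (he : ∀ x y : G, e (x * y) = (e y).map (x * ·))
    (hM : ∀ v : V, M • v = 0 → v = 0)
    {𝒢 : Type y} [Group 𝒢] (θ : 𝒢 →* Matrix r r (MonoidAlgebra k G))
    (n : ℕ) (hn : 1 ≤ n) (c : G → List G → V) (hc : Fam n c)
    {ι : Type z} (I : Finset ι) (mm : ι → ℤ) (x : ι → List 𝒢) (hz : IsCyc V n I mm x) :
    M ^ (n + 1) • ∑ i ∈ I, mm i • SS θ c (x i) =
      ∑ i ∈ I, mm i • TT (Equiv.refl r) (fun l => cs (c l.prod) ((pts 1 l).map e))
        (XX θ (x i)) := by
  rw [compare' (N := 1) hM (fun _ (Y : ZMod 1 → G) => e (Y 0)) (fun x Q Y => he _ _)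
    θ n hn c hc I mm x hz]
  apply sum_congr rfl
  intro i _
  rw [TT_one]

end none

section prod

variable {k : Type u} [CommRing k] {C : Type v} [Group C] [IsMulCommutative C] {Z : Type w} [Group Z]
  {r : Type x} [Fintype r] [DecidableEq r] {V : Type y} [AddCommGroup V] [Module k V]

/-- matrices over `k[C]` as matrices over `k[C × Z]` -/
noncomputable def inC (Z : Type w) [Group Z] (F : Matrix r r (MonoidAlgebra k C)) :
    Matrix r r (MonoidAlgebra k (C × Z)) :=
  F.map (MonoidAlgebra.mapDomainRingHom k (MonoidHom.inl C Z))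

/-- the scalar matrix of an element of `Z` -/
noncomputable def dg (k : Type u) [CommRing k] (C : Type v) [Group C] (r : Type x) [Fintype r]
    [DecidableEq r] (h : Z) : Matrix r r (MonoidAlgebra k (C × Z)) :=
  Matrix.scalar r (MonoidAlgebra.single ((1 : C), h) (1 : k))

lemma dg_mul (h h' : Z) : dg k C r (h * h') = dg k C r h * dg k C r h' := by
  unfold dg
  rw [← map_mul, MonoidAlgebra.single_mul_single, Prod.mk_mul_mk, one_mul, one_mul]

lemma dg_one : dg k C r (1 : Z) = 1 := by
  unfold dg
  have : (MonoidAlgebra.single ((1 : C), (1 : Z)) (1 : k)) = 1 := rfl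
  rw [this, map_one]

lemma comm_aux (a : MonoidAlgebra k C) (h : Z) :
    MonoidAlgebra.single ((1 : C), h) (1 : k) *
      MonoidAlgebra.mapDomainRingHom k (MonoidHom.inl C Z) a =
    MonoidAlgebra.mapDomainRingHom k (MonoidHom.inl C Z) a *
      MonoidAlgebra.single ((1 : C), h) (1 : k) := by
  induction a using MonoidAlgebra.induction_linear with
  | zero => simp
  | add a b ha hb => rw [map_add, mul_add, add_mul, ha, hb]
  | single c x =>
    simp [MonoidAlgebra.single_mul_single]

lemma dg_inC (F : Matrix r r (MonoidAlgebra k C)) (h : Z) :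
    dg k C r h * inC Z F = inC Z F * dg k C r h := by
  ext1 a b
  unfold dg inC
  rw [Matrix.scalar_apply, Matrix.diagonal_mul, Matrix.mul_diagonal, Matrix.map_apply]
  exact comm_aux _ _

lemma inC_mul (F F' : Matrix r r (MonoidAlgebra k C)) :
    inC Z (F * F') = inC Z F * inC Z F' := by
  unfold inC
  exact Matrix.map_mul

/-- the value of the representation `h ↦ h F + (1 - F)` -/
noncomputable def rv (F : Matrix r r (MonoidAlgebra k C)) (h : Z) :
    Matrix r r (MonoidAlgebra k (C × Z)) := dg k C r h * inC Z F + (1 - inC Z F)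

lemma rv_mul (F : Matrix r r (MonoidAlgebra k C)) (hF : F * F = F) (h h' : Z) :
    rv F (h * h') = rv F h * rv F h' := by
  have h1 : inC Z F * inC Z F = inC Z F := by rw [← inC_mul, hF]
  have h2 := dg_inC (k := k) F h'
  unfold rv
  rw [dg_mul]
  have h3 : (dg k C r h * inC Z F + (1 - inC Z F)) * (dg k C r h' * inC Z F + (1 - inC Z F)) =
      dg k C r h * (inC Z F * dg k C r h') * inC Z F +
      (dg k C r h * inC Z F - dg k C r h * (inC Z F * inC Z F)) +
      (dg k C r h' * inC Z F - (inC Z F * dg k C r h') * inC Z F) +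
      (1 - inC Z F - (inC Z F - inC Z F * inC Z F)) := by noncomm_ring
  rw [h3, ← h2, h1]
  have h4 : dg k C r h * (dg k C r h' * inC Z F) * inC Z F =
      dg k C r h * dg k C r h' * (inC Z F * inC Z F) := by noncomm_ring
  have h5 : dg k C r h' * inC Z F * inC Z F = dg k C r h' * (inC Z F * inC Z F) := by noncomm_ring
  rw [h4, h5, h1]
  noncomm_ring

lemma rv_one (F : Matrix r r (MonoidAlgebra k C)) : rv F (1 : Z) = 1 := by
  unfold rv
  rw [dg_one]
  noncomm_ring

/-- the representation `h ↦ h F + (1 - F)` -/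
noncomputable def rvHom (F : Matrix r r (MonoidAlgebra k C)) (hF : F * F = F) :
    Z →* Matrix r r (MonoidAlgebra k (C × Z)) where
  toFun := rv F
  map_one' := rv_one F
  map_mul' := rv_mul F hF

lemma LL_F (φ : C × Z → V) (F : Matrix r r (MonoidAlgebra k C)) (h : Z) (s t : r) :
    LL φ ((dg k C r h * inC Z F) s t) = LL (fun c => φ (c, h)) (F s t) := by
  unfold dg inC
  rw [Matrix.scalar_apply, Matrix.diagonal_mul, Matrix.map_apply]
  generalize F s t = a
  induction a using MonoidAlgebra.induction_linear with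
  | zero => simp
  | add a b ha hb => rw [map_add, mul_add, map_add, map_add, ha, hb]
  | single c x =>
    simp [MonoidAlgebra.single_mul_single]

lemma LL_rv (φ : C × Z → V) (F : Matrix r r (MonoidAlgebra k C)) (h : Z) (s t : r) :
    LL φ (rv F h s t) = LL (fun c => φ (c, h)) (F s t) +
      LL (fun c => φ (c, 1)) ((1 - F) s t) := by
  unfold rv
  have h1 : (1 - inC Z F : Matrix r r (MonoidAlgebra k (C × Z))) =
      dg k C r (1 : Z) * inC Z (1 - F) := by
    rw [dg_one, one_mul]
    unfold inC
    ext1 a b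
    rw [Matrix.sub_apply, Matrix.map_apply, Matrix.map_apply, Matrix.sub_apply, map_sub]
    congr 1
    rw [Matrix.one_apply, Matrix.one_apply]
    split_ifs
    · rw [map_one]
    · rw [map_zero]
  rw [h1, Matrix.add_apply, map_add, LL_F, LL_F]

/-- cochains for which elements of `C` may be moved to the next letter -/
def MV (Φ : List (C × Z) → V) : Prop :=
  ∀ (l l' : List (C × Z)) (c : C) (g g' : C × Z),
    Φ (l ++ ((c, 1) * g) :: g' :: l') = Φ (l ++ g :: ((c, 1) * g') :: l')

lemma MV.cons {Φ : List (C × Z) → V} (h : MV Φ) (a : C × Z) : MV fun l => Φ (a :: l) :=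
  fun l l' c g g' => h (a :: l) l' c g g'

lemma EE_rv (F : Matrix r r (MonoidAlgebra k C)) (hF : F * F = F) (h : Z) (hs : List Z)
    (Φ : List (C × Z) → V) (hΦ : MV Φ) (s t : r) :
    EE ((h :: hs).map (rv F)) s t Φ =
      LL (fun c => Φ ((c, h) :: hs.map fun h => (1, h))) (F s t) +
      LL (fun c => Φ ((c, 1) :: hs.map fun _ => 1)) ((1 - F) s t) := by
  induction hs generalizing h s Φ with
  | nil =>
    rw [List.map_cons, List.map_nil, EE_cons, sum_eq_single t]
    · rw [LL_rv]
      simp only [EE_nil, if_true, List.map_nil]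
    · intro b _ hb
      simp only [EE_nil, if_neg hb]
      rw [LL_zero_fun]
    · simp
  | cons h' hs ih =>
    have h1 : ∀ (d : C) (g : Z), (fun c => Φ ((d, g) :: (c, h') :: hs.map fun h => (1, h))) =
        fun c => Φ ((d * c, g) :: (1, h') :: hs.map fun h => (1, h)) := by
      intro d g
      funext c
      have h2 := hΦ [] (hs.map fun h => (1, h)) c (d, g) (1, h')
      simp only [List.nil_append, Prod.mk_mul_mk, one_mul, mul_one] at h2
      rw [mul_comm' d c, h2]
    have h1' : ∀ (d : C) (g : Z), (fun c => Φ ((d, g) :: (c, 1) :: hs.map fun _ => 1)) =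
        fun c => Φ ((d * c, g) :: (1, 1) :: hs.map fun _ => 1) := by
      intro d g
      funext c
      have h2 := hΦ [] (hs.map fun _ => 1) c (d, g) (1, 1)
      simp only [List.nil_append, Prod.mk_mul_mk, one_mul, mul_one] at h2
      rw [mul_comm' d c, h2]
    have hmul : ∀ (A B : Matrix r r (MonoidAlgebra k C)) (φ : C → V),
        ∑ s', LL (fun d => LL (fun c => φ (d * c)) (B s' t)) (A s s') = LL φ ((A * B) s t) := by
      intro A B φ
      rw [Matrix.mul_apply, map_sum]
      apply sum_congr rfl
      intro s' _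
      rw [LL_mul]
    have hF1 : F * (1 - F) = 0 := by rw [mul_sub, mul_one, hF, sub_self]
    have hF2 : (1 - F) * F = 0 := by rw [sub_mul, one_mul, hF, sub_self]
    have hF3 : (1 - F) * (1 - F) = 1 - F := by rw [mul_sub, mul_one, hF2, sub_zero]
    have h2 : ∀ s' (g : C × Z), EE ((h' :: hs).map (rv F)) s' t (fun l => Φ (g :: l)) =
        LL (fun c => Φ (g :: (c, h') :: hs.map fun h => (1, h))) (F s' t) +
        LL (fun c => Φ (g :: (c, 1) :: hs.map fun _ => 1)) ((1 - F) s' t) := fun s' g =>
      ih h' (fun l => Φ (g :: l)) (hΦ.cons g) s'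
    rw [List.map_cons, EE_cons]
    simp only [h2, LL_rv, LL_add_fun, h1, h1', sum_add_distrib]
    rw [hmul F F fun c => Φ ((c, h) :: (1, h') :: hs.map fun h => (1, h)),
      hmul F (1 - F) fun c => Φ ((c, h) :: (1, 1) :: hs.map fun _ => 1),
      hmul (1 - F) F fun c => Φ ((c, 1) :: (1, h') :: hs.map fun h => (1, h)),
      hmul (1 - F) (1 - F) fun c => Φ ((c, 1) :: (1, 1) :: hs.map fun _ => 1),
      hF, hF1, hF2, hF3]
    have hz1 : ∀ φ : C → V, LL φ ((0 : Matrix r r (MonoidAlgebra k C)) s t) = 0 := by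
      intro φ
      rw [Matrix.zero_apply, map_zero]
    rw [hz1, hz1, add_zero, zero_add]
    rfl

lemma TT_rv (F : Matrix r r (MonoidAlgebra k C)) (hF : F * F = F) (h : Z) (hs : List Z)
    (Φ : List (C × Z) → V) (hΦ : MV Φ) :
    TT (Equiv.refl r) Φ ((h :: hs).map (rv F)) =
      LL (fun c => Φ ((c, h) :: hs.map fun h => (1, h))) F.trace +
      LL (fun c => Φ ((c, 1) :: hs.map fun _ => 1)) (1 - F).trace := by
  unfold TT Matrix.trace
  rw [map_sum, map_sum, ← sum_add_distrib]
  apply sum_congr rfl
  intro s _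
  exact EE_rv F hF h hs Φ hΦ s _

variable [Fintype C]

/-- the multiset `C y` -/
def eC (y : C × Z) : Pt (C × Z) (Fintype.card C) :=
  ⟨(univ : Finset C).val.map fun c => (c, 1) * y, by rw [Multiset.card_map]; rfl⟩

lemma eC_mul (x y : C × Z) : eC (x * y) = (eC y).map (x * ·) := by
  apply Subtype.ext
  show (univ : Finset C).val.map (fun c => (c, 1) * (x * y)) =
    ((univ : Finset C).val.map fun c => (c, 1) * y).map (x * ·)
  rw [Multiset.map_map]
  apply Multiset.map_congr rfl
  intro c _
  obtain ⟨a, b⟩ := x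
  obtain ⟨a', b'⟩ := y
  simp only [Function.comp_apply, Prod.mk_mul_mk, one_mul]
  congr 1
  rw [← mul_assoc, mul_comm' c a, mul_assoc]

lemma eC_shift (d : C) (y : C × Z) : eC ((d, 1) * y) = eC y := by
  apply Subtype.ext
  show (univ : Finset C).val.map (fun c => (c, 1) * ((d, 1) * y)) =
    (univ : Finset C).val.map fun c => (c, 1) * y
  have h1 : (fun c : C => ((c, 1) : C × Z) * ((d, 1) * y)) =
      (fun c : C => ((c, 1) : C × Z) * y) ∘ (fun c => c * d) := by
    funext c
    simp only [Function.comp_apply]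
    rw [← mul_assoc, show ((c, 1) : C × Z) * (d, 1) = (c * d, 1) from Prod.ext rfl (mul_one 1)]
  rw [h1, ← Multiset.map_map]
  congr 1
  have h2 := congrArg Finset.val (Finset.map_univ_equiv (Equiv.mulRight d))
  rw [Finset.map_val] at h2
  exact h2

lemma MV_av (c : C × Z → List (C × Z) → V) :
    MV fun l => cs (c l.prod) ((pts 1 l).map eC) := by
  intro l l' d g g'
  have hcomm : ∀ x : C × Z, x * (d, 1) = (d, 1) * x := by
    rintro ⟨a, b⟩
    rw [Prod.mk_mul_mk, Prod.mk_mul_mk, mul_one, one_mul, mul_comm']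
  have hg : g * ((d, 1) * g') = (d, 1) * g * g' := by rw [← mul_assoc, hcomm g]
  have h1 : (l ++ ((d, 1) * g) :: g' :: l').prod = (l ++ g :: ((d, 1) * g') :: l').prod := by
    simp only [List.prod_append, List.prod_cons]
    rw [← mul_assoc g, hg, ← mul_assoc ((d, 1) * g)]
  have h2 : (pts 1 (l ++ ((d, 1) * g) :: g' :: l')).map eC =
      (pts 1 (l ++ g :: ((d, 1) * g') :: l')).map eC := by
    rw [pts_append, pts_append, List.map_append, List.map_append]
    congr 1
    simp only [pts_cons, List.map_cons]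
    congr 2
    · rw [one_mul, ← mul_assoc, hcomm, mul_assoc, eC_shift]
    · congr 2
      rw [mul_assoc (1 * l.prod), mul_assoc (1 * l.prod), hg]
  simp only [h1, h2]

end prod

end Pool.Agent.Y69.VN
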