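import Pool.Agent.Y69.VN.Prod
import Pool.Agent.W644.HK.CharP

/-!
# The product formula: the Dennis trace of products of idempotents and classes of the centralizer
-/

set_option autoImplicit false
set_option linter.unusedSectionVars false

namespace Pool.Agent.Y69.VN

open Finset Pool.Agent.W644.HK

universe u v w x y z

variable {k : Type u} [CommRing k] {C : Type v} [Group C] [IsMulCommutative C] {Z : Type w} [Group Z]
  {r : Type x} [Fintype r] [DecidableEq r] {V : Type y} [AddCommGroup V] [Module k V]

lemma LL_zsmul_fun {H : Type*} [Group H] (m : ℤ) (φ : H → V) (a : MonoidAlgebra k H) :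
    LL (fun h => m • φ h) a = m • LL φ a := by
  simp only [LL_eq_sum, smul_sum]
  exact sum_congr rfl fun _ _ => smul_comm _ _ _

lemma rv_one_left (h : Z) : rv (1 : Matrix r r (MonoidAlgebra k C)) h = dg k C r h := by
  unfold rv
  have h1 : inC Z (1 : Matrix r r (MonoidAlgebra k C)) = 1 := by
    unfold inC
    exact Matrix.map_one _ (map_zero _) (map_one _)
  rw [h1, mul_one, sub_self, add_zero]

lemma EE_dg (hs : List Z) (Φ : List (C × Z) → V) (s t : r) :
    EE (hs.map (dg k C r)) s t Φ = if s = t then Φ (hs.map fun h => ((1 : C), h)) else 0 := by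
  induction hs generalizing s Φ with
  | nil => rw [List.map_nil, EE_nil, List.map_nil]
  | cons h hs ih =>
    rw [List.map_cons, EE_cons, sum_eq_single s]
    · rw [dg, Matrix.scalar_apply, Matrix.diagonal_apply_eq, LL_single, one_smul, ih]
      rfl
    · intro b _ hb
      rw [dg, Matrix.scalar_apply, Matrix.diagonal_apply_ne _ hb.symm, map_zero]
    · simp

/-- the closed word of a bar simplex -/
def cl (x : List Z) : List Z := x ++ [x.prod⁻¹]

lemma cl_prod (x : List Z) : (cl x).prod = 1 := by
  rw [cl, List.prod_append]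
  simp

lemma length_cl (x : List Z) : (cl x).length = x.length + 1 := by simp [cl]

/-- words in `Z` as words in `C × Z` -/
def inr (C : Type v) [Group C] (x : List Z) : List (C × Z) := x.map fun h => ((1 : C), h)

lemma inr_prod (x : List Z) : (inr C x).prod = (1, x.prod) :=
  (map_list_prod (MonoidHom.inr C Z) x).symm

lemma central (a : C) (y : C × Z) : (a, (1 : Z)) * y = y * (a, 1) := by
  obtain ⟨b, h⟩ := y
  rw [Prod.mk_mul_mk, Prod.mk_mul_mk, mul_one, one_mul, mul_comm']

lemma Fam.shiftC {n : ℕ} {c : C × Z → List (C × Z) → V} (hc : Fam n c) (γ : C) :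
    Fam n fun g l => c ((γ, 1) * g) l where
  equiv x g l := by
    have h1 : (γ, (1 : Z)) * (x * g * x⁻¹) = x * ((γ, 1) * g) * x⁻¹ := by
      rw [← mul_assoc, ← mul_assoc, central γ x]
      group
    rw [h1]
    exact hc.equiv x _ l
  coc g l hl := hc.coc _ l hl

variable [Fintype C]

lemma cancel_pow {M : ℕ} (hM : ∀ v : V, M • v = 0 → v = 0) (a : ℕ) (v w : V)
    (h : M ^ a • v = M ^ a • w) : v = w := by
  have h1 : ∀ (a : ℕ) (v : V), M ^ a • v = 0 → v = 0 := by
    intro a
    induction a with
    | zero => intro v hv; simpa using hv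
    | succ a ih =>
      intro v hv
      rw [pow_succ, mul_smul] at hv
      exact hM v (ih _ hv)
  rw [← sub_eq_zero]
  apply h1 a
  rw [smul_sub, h, sub_self]

/-- averaging the value at a point `γ` of `C` -/
lemma av_points (k : Type u) [CommRing k] [Module k V]
    (hM : ∀ v : V, Fintype.card C • v = 0 → v = 0) (n : ℕ) (hn : 1 ≤ n)
    (c : C × Z → List (C × Z) → V) (hc : Fam n c) (γ : C)
    {ι : Type z} (I : Finset ι) (mm : ι → ℤ) (x : ι → List Z) (hz : IsCyc V n I mm x) :
    Fintype.card C ^ (n + 1) • ∑ i ∈ I, mm i • c (γ, 1) (pts 1 (inr C (cl (x i)))) =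
      ∑ i ∈ I, mm i • cs (c (γ, 1)) ((pts 1 (inr C (cl (x i)))).map eC) := by
  have h1 : ∀ (F : List (C × Z) → V) (y : List Z),
      TT (Equiv.refl Unit) F (XX (rvHom (k := k) (C := C) (Z := Z)
        (1 : Matrix Unit Unit (MonoidAlgebra k C)) (one_mul 1)) y) = F (inr C (cl y)) := by
    intro F y
    have h2 : XX (rvHom (k := k) (C := C) (Z := Z)
        (1 : Matrix Unit Unit (MonoidAlgebra k C)) (one_mul 1)) y = (cl y).map (dg k C Unit) := by
      unfold XX cl
      apply List.map_congr_left
      intro a _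
      exact rv_one_left a
    rw [h2, TT, Fintype.sum_unique, EE_dg]
    simp [inr]
  have hav := average' (k := k) (r := Unit) eC eC_mul hM (rvHom (k := k) (C := C) (Z := Z)
        (1 : Matrix Unit Unit (MonoidAlgebra k C)) (one_mul 1)) n hn
        (fun g l => c ((γ, 1) * g) l) (Fam.shiftC hc γ) I mm x hz
  simp only [SS, h1] at hav
  have h3 : ∀ y : List Z, ((γ, (1 : Z)) : C × Z) * (inr C (cl y)).prod = (γ, 1) := by
    intro y
    rw [inr_prod, cl_prod]
    simp
  simp only [CF, h3] at hav
  exact hav

/-- the total over constant points -/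
noncomputable def T0 (c : C × Z → List (C × Z) → V) (n : ℕ) (γ : C) : V :=
  cs (c (γ, 1)) (List.replicate (n + 1) (eC (1 : C × Z)))

lemma T0_zero (hM : ∀ v : V, Fintype.card C • v = 0 → v = 0) (n : ℕ)
    (c : C × Z → List (C × Z) → V) (hc : Fam n c) (γ : C)
    {ι : Type z} (I : Finset ι) (mm : ι → ℤ) (x : ι → List Z) (hz : IsCyc V n I mm x) :
    ∑ i ∈ I, mm i • T0 c n γ = 0 := by
  by_cases he : Even (n + 1)
  · have h1 : T0 c n γ = 0 := by
      have h2 := bd_cs hM (c (γ, 1)) (n + 2) (hc.coc (γ, 1))
        (List.replicate (n + 2) (eC (1 : C × Z))) (List.length_replicate ..)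
      rw [bd_eq_sum, List.length_replicate] at h2
      have h3 : ∀ j ∈ range (n + 2), (-1 : ℤ) ^ j •
          cs (c (γ, 1)) ((List.replicate (n + 2) (eC (1 : C × Z))).eraseIdx j) =
          (-1 : ℤ) ^ j • T0 c n γ := by
        intro j hj
        rw [mem_range] at hj
        rw [List.eraseIdx_replicate, if_pos hj]
        rfl
      rw [sum_congr rfl h3, ← sum_smul, neg_one_geom_sum, if_neg (by
        rw [Nat.not_even_iff_odd]
        exact he.add_one), one_smul] at h2
      exact h2
    simp [h1]
  · have h1 := hz.2 fun _ => T0 c n γ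
    rw [← h1]
    apply sum_congr rfl
    intro i _
    congr 1
    rw [← sum_smul, neg_one_geom_sum, if_neg he, one_smul]

lemma TT_cl_rv (F : Matrix r r (MonoidAlgebra k C)) (hF : F * F = F)
    (c : C × Z → List (C × Z) → V) (y : List Z) (n : ℕ) (hy : y.length = n) :
    TT (Equiv.refl r) (fun l => cs (c l.prod) ((pts 1 l).map eC)) (XX (k := k) (H := C × Z) (R := r) (rvHom (Z := Z) F hF) y) =
      LL (fun γ => cs (c (γ, 1)) ((pts 1 (inr C (cl y))).map eC)) F.trace +
      LL (fun γ => T0 c n γ) (1 - F).trace := by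
  have h1 : XX (k := k) (H := C × Z) (R := r) (rvHom (Z := Z) F hF) y = (cl y).map (rv F) := by
    unfold XX cl
    apply List.map_congr_left
    intro a _
    rfl
  rw [h1]
  obtain ⟨h, hs, hhs⟩ : ∃ h hs, cl y = h :: hs := by
    cases hc : cl y with
    | nil =>
      have := length_cl y
      rw [hc] at this
      simp at this
    | cons h hs => exact ⟨h, hs, rfl⟩
  have hlen : hs.length = n := by
    have := length_cl y
    rw [hhs, List.length_cons, hy] at this
    omega
  have hprod : h * hs.prod = 1 := by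
    rw [← List.prod_cons, ← hhs, cl_prod]
  rw [hhs, TT_rv F hF h hs _ (MV_av c)]
  congr 1
  · refine congrArg (fun φ : C → V => LL φ F.trace) (funext fun γ => ?_)
    have h2 : (((γ, h) : C × Z) :: hs.map fun h => ((1 : C), h)).prod = (γ, 1) := by
      have h3 := inr_prod (C := C) hs
      unfold inr at h3
      rw [List.prod_cons, h3, Prod.mk_mul_mk, mul_one, hprod]
    have h3 : (pts 1 (((γ, h) : C × Z) :: hs.map fun h => ((1 : C), h))).map eC =
        (pts 1 (inr C (h :: hs))).map eC := by
      have h4 : (1 : C × Z) * (γ, h) = (γ, 1) * (1, h) := by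
        rw [one_mul, Prod.mk_mul_mk, mul_one, one_mul]
      have h5 : inr C (h :: hs) = (1, h) :: hs.map fun h => ((1 : C), h) := rfl
      rw [h5, pts_cons, pts_cons, List.map_cons, List.map_cons, h4, one_mul, pts_mul, List.map_map]
      congr 1
      apply List.map_congr_left
      intro a _
      exact eC_shift γ a
    simp only [h2, h3]
  · refine congrArg (fun φ : C → V => LL φ (1 - F).trace) (funext fun γ => ?_)
    have h2 : (((γ, 1) : C × Z) :: hs.map fun _ => (1 : C × Z)).prod = (γ, 1) := by
      rw [List.prod_cons, List.map_const', List.prod_replicate, one_pow, mul_one]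
    have h3 : ∀ (b : C × Z) (m : ℕ), pts b (List.replicate m (1 : C × Z)) =
        List.replicate m b := by
      intro b m
      induction m with
      | zero => rfl
      | succ m ih => rw [List.replicate_succ, pts_cons, mul_one, ih, List.replicate_succ]
    have h4 : (pts 1 (((γ, 1) : C × Z) :: hs.map fun _ => (1 : C × Z))).map eC =
        List.replicate (n + 1) (eC (1 : C × Z)) := by
      rw [pts_cons, List.map_const', h3, List.map_cons, List.map_replicate, hlen,
        List.replicate_succ, one_mul]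
      congr 2
      have := eC_shift γ (1 : C × Z)
      rwa [mul_one] at this
    simp only [h2, h4]
    rfl

/-- **Product formula.** -/
theorem prod_val (F : Matrix r r (MonoidAlgebra k C)) (hF : F * F = F)
    (hM : ∀ v : V, Fintype.card C • v = 0 → v = 0) (n : ℕ) (hn : 1 ≤ n)
    (c : C × Z → List (C × Z) → V) (hc : Fam n c)
    {ι : Type z} (I : Finset ι) (mm : ι → ℤ) (x : ι → List Z) (hz : IsCyc V n I mm x) :
    ∑ i ∈ I, mm i • SS (k := k) (G := C × Z) (r := r) (rvHom (Z := Z) F hF) c (x i) =
      LL (fun γ : C => ∑ i ∈ I, mm i • c (γ, 1) (pts 1 (inr C (cl (x i))))) F.trace := by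
  apply cancel_pow hM (n + 1)
  have hav := average' (k := k) (G := C × Z) (r := r) (V := V) eC eC_mul hM
    (rvHom (Z := Z) F hF) n hn c hc I mm x hz
  rw [hav]
  have h1 : ∑ i ∈ I, mm i • TT (Equiv.refl r)
      (fun l => cs (c l.prod) ((pts 1 l).map eC)) (XX (k := k) (H := C × Z) (R := r) (rvHom (Z := Z) F hF) (x i)) =
      LL (fun γ => ∑ i ∈ I, mm i • cs (c (γ, 1)) ((pts 1 (inr C (cl (x i)))).map eC)) F.trace +
      LL (fun γ => ∑ i ∈ I, mm i • T0 c n γ) (1 - F).trace := by
    rw [LL_sum_fun, LL_sum_fun, ← sum_add_distrib]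
    apply sum_congr rfl
    intro i hi
    rw [TT_cl_rv F hF c (x i) n (hz.1 i hi), LL_zsmul_fun, LL_zsmul_fun, smul_add]
  rw [h1]
  have h2 : (fun γ => ∑ i ∈ I, mm i • T0 c n γ) = fun _ : C => (0 : V) := by
    funext γ
    exact T0_zero hM n c hc γ I mm x hz
  rw [h2, LL_zero_fun, add_zero]
  have h3 : (fun γ : C => ∑ i ∈ I, mm i • cs (c (γ, 1)) ((pts 1 (inr C (cl (x i)))).map eC)) =
      fun γ => ((Fintype.card C ^ (n + 1) : ℕ) : ℤ) •
        ∑ i ∈ I, mm i • c (γ, 1) (pts 1 (inr C (cl (x i)))) := by
    funext γ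
    rw [← av_points k hM n hn c hc γ I mm x hz, natCast_zsmul]
  rw [h3, LL_zsmul_fun, natCast_zsmul]

end Pool.Agent.Y69.VN
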