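import Pool.Agent.Y69.VN.Asm

/-!
# Vanishing of Dennis traces on root invariant cochains

No condition on roots in the group is needed: only that the element is not conjugate to its
`p ^ j`-th powers.
-/

set_option autoImplicit false
set_option linter.unusedSectionVars false

namespace Pool.Agent.Y69.VN

open Finset Pool.Agent.W644.HK

universe u v w x y z

section ri

variable {G : Type v} [Group G] {V : Type x} [AddCommGroup V]

/-- a cochain is root invariant at `P` if each point may be multiplied by each root of `P`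
separately -/
def RI (c : List G → V) (P : G) : Prop :=
  ∀ x : G, (∃ k : ℕ, 0 < k ∧ x ^ k = P) → ∀ (l l' : List G) (a : G),
    c (l ++ (x * a) :: l') = c (l ++ a :: l')

lemma RI.pow {c : List G → V} {P : G} (h : RI c P) {x : G} (hx : ∃ k : ℕ, 0 < k ∧ x ^ k = P)
    (t : ℕ) (l l' : List G) (a : G) : c (l ++ (x ^ t * a) :: l') = c (l ++ a :: l') := by
  induction t with
  | zero => simp
  | succ t ih => rw [pow_succ', mul_assoc, h x hx, ih]

variable {N : ℕ} [NeZero N]

/-- two positions in normal form give the same values -/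
lemma RI.pos {c : List G → V} {Q Y : ZMod N → G} (h : RI c (qq Q N)) (i j : ℕ)
    (hi : sh i (uu Q Y) = rep (uu Q Y)) (hj : sh j (uu Q Y) = rep (uu Q Y)) (l l' : List G) :
    c (l ++ yy Q Y i :: l') = c (l ++ yy Q Y j :: l') := by
  have key : ∀ i d : ℕ, sh i (uu Q Y) = rep (uu Q Y) → sh (i + d) (uu Q Y) = rep (uu Q Y) →
      c (l ++ yy Q Y i :: l') = c (l ++ yy Q Y (i + d) :: l') := by
    intro i d hi hj
    have hper : per (uu Q Y) ∣ d := (per_spec _ _).1 (sh_cancel i d _ (hj.trans hi.symm))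
    obtain ⟨t, rfl⟩ := hper
    have hN : 0 < N := Nat.pos_of_ne_zero (NeZero.ne N)
    have had : sh i (uu Q Y) = sh (i + per (uu Q Y)) (uu Q Y) := by
      rw [← sh_sh, (per_spec _ _).2 (dvd_refl _)]
    have h2 := yy_of_sh' Q Y i (per (uu Q Y)) had t
    have h3 := yy_of_sh' Q Y i (per (uu Q Y)) had (N / per (uu Q Y))
    have hdN : per (uu Q Y) ∣ N := per_dvd _
    rw [Nat.mul_div_cancel' hdN, show i + N = i + 1 * N by ring, yy_add_mul_p, pow_one] at h3
    have h4 := (mul_right_cancel h3).symm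
    rw [h2]
    refine (h.pow ⟨N / per (uu Q Y), ?_, h4⟩ t l l' _).symm
    exact Nat.div_pos (Nat.le_of_dvd hN hdN) (Nat.pos_of_dvd_of_pos hdN hN)
  rcases le_total i j with hle | hle
  · obtain ⟨d, rfl⟩ := Nat.exists_eq_add_of_le hle
    exact key i d hi hj
  · obtain ⟨d, rfl⟩ := Nat.exists_eq_add_of_le hle
    exact (key j d hj hi).symm

/-- the vertex map: one position in normal form -/
noncomputable def RV (Q Y : ZMod N → G) : Pt G 1 := Pt.rep 1 (yy Q Y (sel (uu Q Y)))

lemma RV_conj (x Q Y : ZMod N → G) :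
    RV (x * Q * (tau G N x)⁻¹) (x * Y) = (RV Q Y).map (x 0 * ·) := by
  apply Subtype.ext
  show Multiset.replicate 1 (yy (x * Q * (tau G N x)⁻¹) (x * Y)
      (sel (uu (x * Q * (tau G N x)⁻¹) (x * Y)))) =
    (Multiset.replicate 1 (yy Q Y (sel (uu Q Y)))).map (x 0 * ·)
  rw [Multiset.map_replicate, uu_conj, yy_conj]

lemma CG_RV (c : G → List G → V) (Q : ZMod N → G) (l : List (ZMod N → G)) :
    CG c RV Q l = c (qq Q N) (l.map fun Y => yy Q Y (sel (uu Q Y))) := by
  unfold CG
  have h : l.map (RV Q) = (l.map fun Y => yy Q Y (sel (uu Q Y))).map (Pt.rep 1) := by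
    rw [List.map_map]
    rfl
  rw [h, cs_rep, one_pow, one_smul]

/-- rotation invariance -/
lemma CG_RV_tau (c : G → List G → V)
    (hc : ∀ x g l, c (x * g * x⁻¹) (l.map (x * ·)) = c g l)
    (Q : ZMod N → G) (l : List (ZMod N → G))
    (h : (∀ l, c (qq Q N) l = 0) ∨ RI (c (qq Q N)) (qq Q N)) :
    CG c RV (tau G N Q) (l.map (tau G N)) = CG c RV Q l := by
  rw [CG_RV, CG_RV]
  have h1 : Q 0 * qq (tau G N Q) N * (Q 0)⁻¹ = qq Q N := by
    rw [qq_tau_p]
    group
  rw [← hc (Q 0) (qq (tau G N Q) N), h1, List.map_map, List.map_map]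
  rcases h with h | h
  · rw [h, h]
  · have key : ∀ (l : List (ZMod N → G)) (m : List G),
        c (qq Q N) (m ++ l.map ((fun y => Q 0 * y) ∘
          (fun Y => yy (tau G N Q) Y (sel (uu (tau G N Q) Y))) ∘ tau G N)) =
        c (qq Q N) (m ++ l.map fun Y => yy Q Y (sel (uu Q Y))) := by
      intro l
      induction l with
      | nil => intro m; rfl
      | cons Y l ih =>
        intro m
        rw [List.map_cons, List.map_cons]
        have h2 : Q 0 * yy (tau G N Q) (tau G N Y) (sel (uu (tau G N Q) (tau G N Y))) =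
            yy Q Y (sel (sh 1 (uu Q Y)) + 1) := by
          rw [yy_tau, uu_tau, mul_inv_cancel_left]
        have h3 : ((fun y => Q 0 * y) ∘ (fun Y => yy (tau G N Q) Y (sel (uu (tau G N Q) Y))) ∘
            tau G N) Y = yy Q Y (sel (sh 1 (uu Q Y)) + 1) := h2
        rw [h3]
        have h4 : sh (sel (sh 1 (uu Q Y)) + 1) (uu Q Y) = rep (uu Q Y) := by
          rw [← sh_sh, sel_spec, rep_sh]
        rw [h.pos _ (sel (uu Q Y)) h4 (sel_spec _)]
        have h5 := ih (m ++ [yy Q Y (sel (uu Q Y))])
        rw [List.append_assoc, List.append_assoc] at h5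
        exact h5
    have := key l []
    rw [List.nil_append, List.nil_append] at this
    exact this

end ri

section fin

variable {G : Type v} [Group G]

open Classical in
/-- products of `d` elements of a finite set -/
noncomputable def prods (S : Finset G) : ℕ → Finset G
  | 0 => {1}
  | d + 1 => (prods S d ×ˢ S).image fun x => x.1 * x.2

lemma qq_mem_prods {N : ℕ} [NeZero N] (S : Finset G) (Q : ZMod N → G)
    (hQ : ∀ j, Q j ∈ S) (d : ℕ) : qq Q d ∈ prods S d := by
  classical
  induction d with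
  | zero => simp [prods]
  | succ d ih =>
    rw [qq_succ, prods, mem_image]
    exact ⟨(qq Q d, Q d), mem_product.2 ⟨ih, hQ _⟩, rfl⟩

/-- in a finite set there are no elements with high powers in a class which is not stable under
`p ^ j`-th powers -/
lemma no_high_power {p : ℕ} (P : G) (hP : ∀ j : ℕ, 1 ≤ j → ¬ IsConj P (P ^ p ^ j))
    (S : Finset G) : ∃ e0 : ℕ, ∀ t ∈ S, ∀ e : ℕ, e0 ≤ e → ¬ IsConj P (t ^ p ^ e) := by
  classical
  induction S using Finset.induction_on with
  | empty => exact ⟨0, by simp⟩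
  | insert a S _ ih =>
    obtain ⟨e0, he0⟩ := ih
    by_cases h : ∃ e1, IsConj P (a ^ p ^ e1)
    · obtain ⟨e1, he1⟩ := h
      refine ⟨max e0 (e1 + 1), fun t ht e he => ?_⟩
      rcases mem_insert.1 ht with rfl | ht
      · intro hc
        have hlt : e1 < e := lt_of_lt_of_le (Nat.lt_succ_self e1) (le_trans (le_max_right _ _) he)
        obtain ⟨d, rfl⟩ := Nat.exists_eq_add_of_lt hlt
        apply hP (d + 1) (Nat.le_add_left 1 d)
        obtain ⟨g, hg⟩ := isConj_iff.1 he1
        have h1 : IsConj (P ^ p ^ (d + 1)) (t ^ p ^ (e1 + d + 1)) := by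
          refine isConj_iff.2 ⟨g, ?_⟩
          rw [← conj_pow, hg, ← pow_mul, ← pow_add]
          rfl
        exact hc.trans h1.symm
      · exact he0 t ht e (le_trans (le_max_left _ _) he)
    · refine ⟨e0, fun t ht e he => ?_⟩
      rcases mem_insert.1 ht with rfl | ht
      · exact fun hc => h ⟨e, hc⟩
      · exact he0 t ht e he

end fin

variable {k : Type u} [CommRing k] {G : Type v} [Group G] {r : Type w} [Fintype r] [DecidableEq r]
  {V : Type x} [AddCommGroup V] [Module k V]

/-- the divisibility, for sums over necklaces of length `p ^ e` -/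
theorem total_div_ri {p : ℕ} [hp : Fact p.Prime] (e b : ℕ)
    (c : G → List G → V) (hc : ∀ x g l, c (x * g * x⁻¹) (l.map (x * ·)) = c g l)
    (hsupp : ∀ P l, c P l ≠ 0 → RI (c P) P) (S : Finset G)
    (hS : ∀ d, d ≤ p ^ b → ∀ t ∈ prods S d, ∀ i, e ≤ i + b →
      ∀ l, c (t ^ p ^ i) l = 0)
    (Xs : List (Matrix r r (MonoidAlgebra k G)))
    (hXs : ∀ l ∈ Lset Xs, l.prod ∈ S) :
    ∃ v : V, TT (pperm (Equiv.addRight (1 : ZMod (p ^ e)))) (CF (CG c RV))
        (Xs.map om) = p ^ (b + 1) • v := by
  classical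
  have hp0 : 0 < p := hp.out.pos
  rw [TT_eq_NN]
  have hinv : ∀ l : List (ZMod (p ^ e) → G),
      CF (CG c RV) (l.map (tau G (p ^ e))) = CF (CG c RV) l := by
    intro l
    rw [CF, CF]
    have h5 : (l.map (tau G (p ^ e))).prod = tau G (p ^ e) l.prod := (map_list_prod _ l).symm
    have h6 : pts 1 (l.map (tau G (p ^ e))) = (pts 1 l).map (tau G (p ^ e)) := by
      rw [map_pts (tau G (p ^ e)) (fun a b => (tau G (p ^ e)).map_mul a b), map_one]
    rw [h5, h6]
    apply CG_RV_tau c hc
    by_cases h0 : ∀ l', c (qq l.prod (p ^ e)) l' = 0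
    · exact Or.inl h0
    · right
      push Not at h0
      obtain ⟨l', hl'⟩ := h0
      exact hsupp _ l' hl'
  apply orbit_div ro _ (p ^ e) _ (pow_pos hp0 e) _ _ rfl
  · exact fun x hx => ro_mem Xs x hx
  · exact fun x _ => ro_iterate_N x
  · exact fun x _ => NN_ro _ Xs x (hinv x.2)
  · rintro ⟨s, l⟩ hx hF
    set d := Function.minimalPeriod ro (s, l) with hd
    have hper : Function.IsPeriodicPt ro (p ^ e) (s, l) := ro_iterate_N (s, l)
    have hdN : d ∣ p ^ e := hper.minimalPeriod_dvd
    have hfix : ro^[d] (s, l) = (s, l) := Function.isPeriodicPt_minimalPeriod ro (s, l)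
    rw [ro_iterate] at hfix
    have hl : l.map (sh d) = l := congrArg Prod.snd hfix
    have hQ : sh d l.prod = l.prod := by rw [← prod_map_sh, hl]
    have hPd : qq l.prod d ^ (p ^ e / d) = qq l.prod (p ^ e) := by
      rw [← qq_mul_of_sh l.prod d hQ, Nat.mul_div_cancel' hdN]
    have hF' : CF (CG c RV) l ≠ 0 := by
      intro h0
      apply hF
      rw [NN, h0, smul_zero]
    have hex : ∃ l', c (qq l.prod (p ^ e)) l' ≠ 0 := by
      by_contra hcon
      push Not at hcon
      apply hF'
      rw [CF, CG]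
      have h1 : c (qq l.prod (p ^ e)) = fun _ => 0 := funext hcon
      rw [h1, cs_zero]
    obtain ⟨l', hl'⟩ := hex
    obtain ⟨i, hi, hdi⟩ := (Nat.dvd_prime_pow hp.out).1 hdN
    have hbi : b < i := by
      by_contra hlt
      push Not at hlt
      apply hl'
      have hmemS : ∀ j, l.prod j ∈ S := by
        intro j
        have h2 : unt l j ∈ Lset Xs := (mem_AN _ _).1 (mem_product.1 hx).2 j
        have h3 := hXs _ h2
        have h4 : (unt l j).prod = l.prod j :=
          (map_list_prod (Pi.evalMonoidHom (fun _ : ZMod (p ^ e) => G) j) l).symm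
        rwa [h4] at h3
      have h5 := qq_mem_prods S l.prod hmemS d
      have h6 : p ^ e / d = p ^ (e - i) := by rw [hdi]; exact Nat.pow_div hi hp0
      rw [← hPd, h6]
      exact hS d (by rw [hdi]; exact Nat.pow_le_pow_right hp0 hlt) _ h5 (e - i) (by omega) _
    rw [hdi]
    exact pow_dvd_pow p hbi

end Pool.Agent.Y69.VN
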