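import Pool.Agent.Y69.VN.Ri

/-!
# Vanishing of Dennis traces on root invariant cochains: families, degree one
-/

set_option autoImplicit false
set_option linter.unusedSectionVars false

namespace Pool.Agent.Y69.VN

open Finset Pool.Agent.W644.HK

universe u v w x y z

section main

variable {k : Type u} [CommRing k] {G : Type v} [Group G] {r : Type w} [Fintype r] [DecidableEq r]
  {V : Type x} [AddCommGroup V] [Module k V]

/-- **Vanishing** for root invariant families at one conjugacy class -/
theorem vanish_ri {p : ℕ} [hp : Fact p.Prime]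
    (hsep : ∀ v : V, (∀ e : ℕ, ∃ v' : V, v = p ^ e • v') → v = 0)
    {𝒢 : Type y} [Group 𝒢] (θ : 𝒢 →* Matrix r r (MonoidAlgebra k G))
    (n : ℕ) (hn : 1 ≤ n) (c : G → List G → V) (hc : Fam n c) (P0 : G)
    (hP0 : ∀ j : ℕ, 1 ≤ j → ¬ IsConj P0 (P0 ^ p ^ j))
    (hsupp : ∀ P l, c P l ≠ 0 → IsConj P0 P ∧ RI (c P) P)
    {ι : Type z} (I : Finset ι) (mm : ι → ℤ) (x : ι → List 𝒢) (hz : IsCyc V n I mm x) :
    ∑ i ∈ I, mm i • SS θ c (x i) = 0 := by
  classical
  apply hsep
  intro b
  set S : Finset G := I.biUnion fun i => (Lset (XX θ (x i))).image List.prod with hS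
  set T : Finset G := (range (p ^ b + 1)).biUnion fun d => prods S d with hT
  obtain ⟨e0, he0⟩ := no_high_power (p := p) P0 hP0 T
  have h0 := compare' (N := p ^ (e0 + b)) (M := 1) (fun v hv => by simpa using hv) RV RV_conj
    θ n hn c hc I mm x hz
  rw [one_pow, one_smul] at h0
  have h1 : ∀ i, ∃ v : V, i ∈ I →
      TT (pperm (Equiv.addRight (1 : ZMod (p ^ (e0 + b))))) (CF (CG c RV)) ((XX θ (x i)).map om) =
        p ^ (b + 1) • v := by
    intro i
    by_cases hi : i ∈ I
    · obtain ⟨v, hv⟩ := total_div_ri (e0 + b) b c hc.equiv (fun P l h => (hsupp P l h).2) S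
        (by
          intro d hd t ht i hi l
          by_contra hne
          refine he0 t ?_ i (by omega) (hsupp _ l hne).1
          exact mem_biUnion.2 ⟨d, mem_range.2 (by omega), ht⟩)
        (XX θ (x i))
        (fun l hl => mem_biUnion.2 ⟨i, hi, mem_image_of_mem _ hl⟩)
      exact ⟨v, fun _ => hv⟩
    · exact ⟨0, fun h => absurd h hi⟩
  choose v hv using h1
  refine ⟨p • ∑ i ∈ I, mm i • v i, ?_⟩
  rw [h0, smul_smul, ← pow_succ, smul_sum]
  apply sum_congr rfl
  intro i hi
  rw [hv i hi, smul_comm]

/-- **Vanishing** for root invariant families -/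
theorem vanish_fam_ri
    {𝒢 : Type y} [Group 𝒢] (θ : 𝒢 →* Matrix r r (MonoidAlgebra k G))
    (n : ℕ) (hn : 1 ≤ n) (c : G → List G → V) (hc : Fam n c)
    (hsupp : ∀ P l, c P l ≠ 0 → RI (c P) P ∧ ∃ p : ℕ, p.Prime ∧
      (∀ v : V, (∀ e : ℕ, ∃ v' : V, v = p ^ e • v') → v = 0) ∧
        ∀ j : ℕ, 1 ≤ j → ¬ IsConj P (P ^ p ^ j))
    {ι : Type z} (I : Finset ι) (mm : ι → ℤ) (x : ι → List 𝒢) (hz : IsCyc V n I mm x) :
    ∑ i ∈ I, mm i • SS θ c (x i) = 0 := by
  classical
  set S : Finset G := I.biUnion fun i => (Lset (XX θ (x i))).image List.prod with hS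
  set K : Finset (ConjClasses G) := S.image ConjClasses.mk with hK
  have h1 : ∀ i ∈ I, SS θ c (x i) =
      ∑ κ ∈ K, SS θ (fun g l => if ConjClasses.mk g = κ then c g l else 0) (x i) := by
    intro i hi
    rw [← SS_sum]
    apply SS_congr
    intro l hl
    rw [sum_ite_eq, if_pos]
    rw [hK, mem_image]
    exact ⟨l.prod, mem_biUnion.2 ⟨i, hi, mem_image_of_mem _ hl⟩, rfl⟩
  rw [sum_congr rfl fun i hi => by rw [h1 i hi, smul_sum], sum_comm]
  apply sum_eq_zero
  intro κ _
  set cκ : G → List G → V := fun g l => if ConjClasses.mk g = κ then c g l else 0 with hcκ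
  have hfam : Fam n cκ := hc.restrict κ
  have hval : ∀ P l, cκ P l ≠ 0 → ConjClasses.mk P = κ ∧ c P l ≠ 0 := by
    intro P l h
    simp only [hcκ] at h
    split_ifs at h with h'
    · exact ⟨h', h⟩
    · exact absurd rfl h
  by_cases hne : ∃ P l, cκ P l ≠ 0
  · obtain ⟨P0, l0, h0⟩ := hne
    obtain ⟨hP0, hc0⟩ := hval P0 l0 h0
    obtain ⟨_, p, hp, hsep, hconj⟩ := hsupp P0 l0 hc0
    have : Fact p.Prime := ⟨hp⟩
    refine vanish_ri (p := p) hsep θ n hn cκ hfam P0 hconj ?_ I mm x hz
    intro P l hPl
    obtain ⟨hP, hcP⟩ := hval P l hPl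
    refine ⟨ConjClasses.mk_eq_mk_iff_isConj.1 (hP0.trans hP.symm), ?_⟩
    have h3 : cκ P = c P := by
      funext l
      simp only [hcκ, if_pos hP]
    rw [h3]
    exact (hsupp P l hcP).1
  · push Not at hne
    apply sum_eq_zero
    intro i _
    have h2 : SS θ cκ (x i) = SS θ (fun _ _ => (0 : V)) (x i) :=
      SS_congr _ _ _ _ fun l _ => hne _ _
    have h3 : SS θ (fun _ _ => (0 : V)) (x i) = 0 := by
      have := SS_hom θ (fun _ _ => (0 : V)) (0 : V →ₗ[k] V) (x i)
      simpa using this
    rw [h2, h3, smul_zero]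

end main

section degone

variable {G : Type v} [Group G] {V : Type x} [AddCommGroup V]

/-- in degree one, shift invariance implies root invariance -/
lemma RI_of_deg_one (htf : ∀ (a : ℕ) (v : V), 0 < a → a • v = 0 → v = 0)
    (c : G → List G → V) (hc : Fam 1 c) (hlen : ∀ P l, l.length ≠ 2 → c P l = 0) (P : G)
    (hP : IsOfFinOrder P ∨ SI (c P) P) : RI (c P) P := by
  have coc : ∀ a b d : G, c P [b, d] - c P [a, d] + c P [a, b] = 0 := by
    intro a b d
    have h := hc.coc P [a, b, d] rfl
    rw [bd_cons, bd_cons, bd_cons, bd_nil] at h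
    have h2 : c P [b, d] - (c P [a, d] - (c P [a, b] - 0)) = 0 := h
    rw [← h2]
    abel
  have caa : ∀ a : G, c P [a, a] = 0 := by
    intro a
    have := coc a a a
    simpa using this
  have anti : ∀ a b : G, c P [b, a] = - c P [a, b] := by
    intro a b
    have h := coc a b a
    rw [caa a, sub_zero] at h
    exact eq_neg_of_add_eq_zero_left h
  have step : ∀ (x : G), x * P * x⁻¹ = P → ∀ (i : ℕ) (a : G),
      c P [a, x ^ i * a] = i • c P [a, x * a] := by
    intro x hx i a
    have heq : ∀ (i : ℕ) (a b : G), c P [x ^ i * a, x ^ i * b] = c P [a, b] := by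
      intro i
      induction i with
      | zero => intro a b; simp
      | succ i ih =>
        intro a b
        have h := hc.equiv x P [x ^ i * a, x ^ i * b]
        rw [hx, List.map_cons, List.map_cons, List.map_nil, ← mul_assoc, ← mul_assoc,
          ← pow_succ'] at h
        rw [h, ih]
    induction i with
    | zero => simp [caa]
    | succ i ih =>
      have h := coc a (x ^ i * a) (x ^ (i + 1) * a)
      have h2 : c P [x ^ i * a, x ^ (i + 1) * a] = c P [a, x * a] := by
        rw [pow_succ, mul_assoc]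
        exact heq i a (x * a)
      rw [h2, ih] at h
      rw [add_smul, one_smul]
      have h3 : c P [a, x ^ (i + 1) * a] = c P [a, x * a] + i • c P [a, x * a] := by
        rw [← sub_eq_zero, ← neg_eq_zero, ← h]
        abel
      rw [h3, add_comm]
  have hPa : ∀ a : G, c P [a, P * a] = 0 := by
    intro a
    rcases hP with hfin | hsi
    · obtain ⟨m, hm, hm1⟩ := isOfFinOrder_iff_pow_eq_one.1 hfin
      have h := step P (by group) m a
      rw [hm1, one_mul, caa] at h
      exact htf m _ hm h.symm
    · have h := hsi [a] [] a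
      rw [List.cons_append, List.nil_append, List.cons_append, List.nil_append, caa] at h
      exact h
  intro x ⟨k, hk, hxk⟩ l l' a
  have hxP : x * P * x⁻¹ = P := by
    rw [← hxk, ← pow_succ', pow_succ, mul_inv_cancel_right]
  have hx0 : ∀ a : G, c P [a, x * a] = 0 := by
    intro a
    have h := step x hxP k a
    rw [hxk, hPa] at h
    exact htf k _ hk h.symm
  by_cases hl : (l ++ a :: l').length = 2
  · rcases l with _ | ⟨b, l⟩
    · rcases l' with _ | ⟨b, l'⟩
      · simp at hl
      · have hl' : l' = [] := by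
          simp only [List.nil_append, List.length_cons] at hl
          exact List.length_eq_zero_iff.1 (by omega)
        subst hl'
        show c P [x * a, b] = c P [a, b]
        have h := coc (x * a) a b
        rw [anti a (x * a), hx0, neg_zero, add_zero] at h
        exact (sub_eq_zero.1 h).symm
    · have hl1 : l = [] ∧ l' = [] := by
        simp only [List.cons_append, List.length_cons, List.length_append] at hl
        constructor <;> exact List.length_eq_zero_iff.1 (by omega)
      obtain ⟨rfl, rfl⟩ := hl1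
      show c P [b, x * a] = c P [b, a]
      have h := coc b a (x * a)
      rw [hx0, zero_sub] at h
      exact (neg_add_eq_zero.1 h)
  · rw [hlen _ _ hl, hlen]
    simpa using hl

end degone

end Pool.Agent.Y69.VN
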