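import Pool.Agent.Y69.VN.Fld

/-!
# Vanishing of cyclic Dennis traces at elements of infinite order over torsion-free rings
-/

set_option autoImplicit false
set_option linter.unusedSectionVars false

namespace Pool.Agent.Y69.VN

open Finset Pool.Agent.W644.HK

universe u v w x y z

/-- a finitely generated torsion-free commutative ring is `p`-adically separated for almost all
primes `p` -/
theorem finite_not_sep (A : Type u) [CommRing A] [hft : Algebra.FiniteType ℤ A]
    (htf : ∀ (a : ℕ) (v : A), 0 < a → a • v = 0 → v = 0) :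
    {p : ℕ | p.Prime ∧ ∃ v : A, v ≠ 0 ∧ ∀ e : ℕ, ∃ v' : A, v = p ^ e • v'}.Finite := by
  classical
  have hN : IsNoetherianRing A := Algebra.FiniteType.isNoetherianRing ℤ A
  have hfin : (associatedPrimes A A).Finite := associatedPrimes.finite A A
  have key : ∀ P ∈ associatedPrimes A A,
      {p : ℕ | p.Prime ∧ ∃ a : A, 1 - (p : A) * a ∈ P}.Finite := by
    intro P hP
    obtain ⟨hPp, x, hx⟩ := (Submodule.isAssociatedPrime_iff (N := (⊥ : Submodule A A))).1 hP
    have hc : CharZero (A ⧸ P) := by
      apply charZero_of_inj_zero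
      intro m hm
      by_contra hm0
      have h1 : (m : A) ∈ P := by
        rw [← Ideal.Quotient.eq_zero_iff_mem]
        simpa using hm
      rw [hx, Submodule.mem_colon_singleton, Submodule.mem_bot, smul_eq_mul] at h1
      have h2 : x = 0 := htf m x (Nat.pos_of_ne_zero hm0) (by rw [nsmul_eq_mul, h1])
      apply hPp.ne_top
      rw [hx, Ideal.eq_top_iff_one, Submodule.mem_colon_singleton, h2]
      simp
    obtain ⟨S, hS⟩ := hft.out
    obtain ⟨L, _, _, ψ, hψ⟩ : ∃ (L : Type u) (_ : Field L) (_ : CharZero L) (ψ : A →+* L),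
        ∀ a ∈ P, ψ a = 0 := by
      have hinj : Function.Injective (algebraMap (A ⧸ P) (FractionRing (A ⧸ P))) :=
        IsFractionRing.injective _ _
      refine ⟨FractionRing (A ⧸ P), inferInstance, charZero_of_injective_algebraMap hinj,
        (algebraMap (A ⧸ P) (FractionRing (A ⧸ P))).comp (Ideal.Quotient.mk P), fun a ha => ?_⟩
      rw [RingHom.comp_apply, Ideal.Quotient.eq_zero_iff_mem.2 ha, map_zero]
    refine (Pool.Agent.H23R2.finite_inv_primes (S.image ψ)).subset ?_
    rintro p ⟨hp, a, ha⟩
    refine ⟨hp, ?_⟩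
    have h0 : ψ (1 - (p : A) * a) = 0 := hψ _ ha
    have h1 : (p : L) * ψ a = 1 := by
      rw [map_sub, map_one, map_mul, map_natCast, sub_eq_zero] at h0
      exact h0.symm
    rw [inv_eq_of_mul_eq_one_right h1]
    have h2 : ψ.toIntAlgHom a ∈ (Algebra.adjoin ℤ (S : Set A)).map ψ.toIntAlgHom :=
      ⟨a, by rw [hS]; trivial, rfl⟩
    rw [AlgHom.map_adjoin] at h2
    rw [Finset.coe_image]
    exact h2
  refine (hfin.biUnion key).subset ?_
  rintro p ⟨hp, v, hv0, hv⟩
  have h1 : v ∈ (⨅ i : ℕ, Ideal.span {(p : A)} ^ i • ⊤ : Submodule A A) := by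
    rw [Submodule.mem_iInf]
    intro e
    obtain ⟨v', hv'⟩ := hv e
    rw [hv', nsmul_eq_mul, ← smul_eq_mul]
    refine Submodule.smul_mem_smul ?_ Submodule.mem_top
    rw [Nat.cast_pow]
    exact Ideal.pow_mem_pow (Ideal.mem_span_singleton_self _) e
  obtain ⟨r, hr⟩ := (Ideal.mem_iInf_smul_pow_eq_bot_iff _ v).1 h1
  obtain ⟨a, ha⟩ := Ideal.mem_span_singleton'.1 r.2
  obtain ⟨P, hP, hle⟩ := exists_le_isAssociatedPrime_of_isNoetherianRing A v hv0
  refine Set.mem_biUnion hP ⟨hp, a, hle ?_⟩
  rw [Submodule.mem_colon_singleton, Submodule.mem_bot, sub_smul, one_smul, mul_comm, ha, hr,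
    sub_self]

/-- **Vanishing over torsion-free rings.** -/
theorem dennis_ring {K : Type u} [CommRing K]
    (htfK : ∀ (a : ℕ) (v : K), 0 < a → a • v = 0 → v = 0) {G : Type v} [Group G] {r : Type w}
    [Fintype r] [DecidableEq r] {n : ℕ}
    (z : (Fin (n + 1) → (Matrix r r (MonoidAlgebra K G))ˣ) →₀ ℤ) (hz : barBoundary z = 0)
    (f : (Fin (n + 2) → G) → K)
    (hval : ∀ H : Subgroup G, H.FG → ∃ s : Finset K, ∀ g : Fin (n + 2) → H,
      f (fun i => (g i : G)) ∈ Algebra.adjoin ℤ (s : Set K))
    (hf : IsHochschildCocycle f)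
    (hcyc : ∀ (P : G) (y : Fin (n + 2) → G) (j : Fin (n + 2)), ¬ IsOfFinOrder P →
      f (pointWord P (Function.update y j (P * y j))) = f (pointWord P y))
    (hsupp : ∀ g : Fin (n + 2) → G, f g ≠ 0 → ∀ H : Subgroup G, H.FG →
      {p : ℕ | p.Prime ∧ ∃ h : ℕ, ∀ a ∈ H, a ^ p ^ h ≠ (List.ofFn g).prod}.Infinite) :
    dennis f z = 0 := by
  classical
  set H : Subgroup G := Subgroup.closure ((zsupp z : Finset G) : Set G) with hH
  have hHfg : H.FG := ⟨zsupp z, rfl⟩
  obtain ⟨s, hs⟩ := hval H hHfg
  set T : Finset K := zcoef z ∪ s with hT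
  set A : Subring K := (Algebra.adjoin ℤ (T : Set K)).toSubring with hAdef
  have hTA : ∀ c ∈ T, c ∈ A := fun c hc => Algebra.subset_adjoin hc
  have hfA : ∀ g : Fin (n + 2) → H, f (fun i => (g i : G)) ∈ A := fun g =>
    Algebra.adjoin_mono (by intro y hy; simp only [hT, Finset.coe_union]; exact Or.inr hy) (hs g)
  obtain ⟨L, hL⟩ := exists_lift_chain z A H (fun c hc => hTA c (mem_union_left _ hc))
    (fun g hg => Subgroup.subset_closure hg)
  set f' : (Fin (n + 2) → H) → A := fun g => ⟨f fun i => (g i : G), hfA g⟩ with hf'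
  let θ' : (Matrix r r (MonoidAlgebra A H))ˣ →* Matrix r r (MonoidAlgebra A H) := Units.coeHom _
  let ι₀ : (Matrix r r (MonoidAlgebra A H))ˣ →* (Matrix r r (MonoidAlgebra K G))ˣ :=
    Units.map (ThM r A.subtype H.subtype).toMonoidHom
  have hinj : Function.Injective (ThM r A.subtype H.subtype) := by
    intro M N h
    ext1 a b
    apply Th_injective A.subtype H.subtype Subtype.val_injective Subtype.val_injective
    rw [← ThM_apply, ← ThM_apply, h]
  have hι₀ : Function.Injective ι₀ := Units.map_injective hinj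
  have hofFn : ∀ x ∈ z.support, List.ofFn x = (List.ofFn (L x)).map ι₀ := by
    intro x hx
    rw [List.map_ofFn]
    congr 1
    funext i
    exact (hL x hx i).symm
  have hvl : A.subtype (∑ x ∈ z.support, z x • SS θ' (cf f') (List.ofFn (L x))) =
      dennis f z := by
    rw [dennis_eq]
    have h1 : ∀ a : A, A.subtype a = A.subtype.toAddMonoidHom a := fun a => rfl
    rw [h1, map_sum]
    apply sum_congr rfl
    intro x hx
    rw [map_zsmul]
    congr 1
    rw [hofFn x hx]
    symm
    apply SS_Th ι₀ θ' (Units.coeHom _) A.subtype H.subtype (fun a => rfl)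
      A.subtype.toAddMonoidHom (fun c v => by simp)
    intro g l
    apply cf_map
    intro g
    rfl
  have hcycz : IsCyc A (n + 1) z.support z fun x => List.ofFn (L x) :=
    isCyc_lift ι₀ hι₀ A z.support z _ _ hofFn (isCyc_of_barBoundary z hz A)
  have hcoc : IsHochschildCocycle f' := by
    apply hoch_lift _ A.subtype.toAddMonoidHom Subtype.val_injective
    exact hoch_comp f hf H.subtype
  rw [← hvl]
  have htf : ∀ (a : ℕ) (v : A), 0 < a → a • v = 0 → v = 0 := by
    intro a v ha hv
    apply Subtype.ext
    apply htfK a _ ha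
    have h := congrArg A.subtype hv
    rwa [map_nsmul, map_zero] at h
  have hftA : Algebra.FiniteType ℤ A := by
    have h : Algebra.FiniteType ℤ (Algebra.adjoin ℤ (T : Set K)) := by
      rw [← Subalgebra.fg_iff_finiteType]
      exact ⟨T, rfl⟩
    exact h
  have h0 := vanish_fam (k := A) (G := H) (r := r) (V := A) htf θ' (n + 1)
    (Nat.le_add_left 1 n) (cf f') (fam_cf f' hcoc) ?_ z.support z
    (fun x => List.ofFn (L x)) hcycz
  · rw [h0, map_zero]
  · intro P l hPl
    have hlen : l.length = n + 2 := by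
      by_contra hne
      exact hPl (cf_of_length_ne f' P l hne)
    constructor
    · by_cases hP : IsOfFinOrder P
      · exact Or.inl hP
      · right
        apply SI_cf f' P
        intro y j
        apply Subtype.ext
        have hP' : ¬ IsOfFinOrder (P : G) := fun h =>
          hP ((Submonoid.isOfFinOrder_coe (H := H.toSubmonoid)).1 h)
        have h1 := hcyc (P : G) (fun i => (y i : G)) j hP'
        have h2 : ∀ y : Fin (n + 2) → H, (fun i => ((pointWord P y i : H) : G)) =
            pointWord (P : G) fun i => (y i : G) := by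
          intro y
          funext i
          unfold pointWord
          split_ifs <;> push_cast <;> rfl
        have h3 : (fun i => ((Function.update y j (P * y j) i : H) : G)) =
            Function.update (fun i => (y i : G)) j ((P : G) * (y j : G)) := by
          funext i
          by_cases hi : i = j
          · subst hi
            simp
          · rw [Function.update_of_ne hi, Function.update_of_ne hi]
        show f (fun i => ((pointWord P (Function.update y j (P * y j)) i : H) : G)) =
          f (fun i => ((pointWord P y i : H) : G))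
        rw [h2, h2, h3, h1]
    · rw [cf_of_length f' P l hlen] at hPl
      have h1 : f (fun i => ((lt (n := n + 1) P l i : H) : G)) ≠ 0 := by
        intro h0
        exact hPl (Subtype.ext h0)
      obtain ⟨p, ⟨hp, h, hroot⟩, hpT⟩ :=
        ((hsupp _ h1 H hHfg).sdiff (finite_not_sep A htf)).nonempty
      refine ⟨p, hp, ?_, h, ?_⟩
      · intro v hv
        by_contra hv0
        exact hpT ⟨hp, v, hv0, hv⟩
      have h2 : (List.ofFn fun i => ((lt (n := n + 1) P l i : H) : G)).prod =
          (((List.ofFn (lt (n := n + 1) P l)).prod : H) : G) := by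
        have := map_list_prod H.subtype (List.ofFn (lt (n := n + 1) P l))
        rw [List.map_ofFn] at this
        exact this.symm
      rw [h2, prod_lt] at hroot
      intro g hg
      apply hroot ((l.getD (n + 1) 1)⁻¹ * g * l.getD (n + 1) 1 : H)
        ((l.getD (n + 1) 1)⁻¹ * g * l.getD (n + 1) 1 : H).2
      rw [← Subgroup.coe_pow]
      congr 1
      have h3 := conj_pow (a := (l.getD (n + 1) 1)⁻¹) (b := g) (i := p ^ h)
      rw [inv_inv] at h3
      rw [h3, hg]


end Pool.Agent.Y69.VN
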