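import Pool.Agent.Y69.VN.Ri2
import Pool.Agent.Y69.VN.Loc
import Pool.Agent.Y69.VN.Rng

/-!
# Vanishing of Dennis traces without conditions on roots: root invariant cocycles, degree one
-/

set_option autoImplicit false
set_option linter.unusedSectionVars false

namespace Pool.Agent.Y69.VN

open Finset Pool.Agent.W644.HK

universe u v w x y z

/-- root invariance in terms of tuples -/
lemma RI_cf {G : Type v} [Group G] {V : Type x} [AddCommGroup V] {n : ℕ}
    (f : (Fin (n + 1) → G) → V) (P : G)
    (h : ∀ (x : G) (k : ℕ), 0 < k → x ^ k = P → ∀ (y : Fin (n + 1) → G) (j : Fin (n + 1)),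
      f (pointWord P (Function.update y j (x * y j))) = f (pointWord P y)) : RI (cf f P) P := by
  intro x ⟨k, hk, hxk⟩ l l' a
  by_cases hlen : (l ++ a :: l').length = n + 1
  · have hlen' : (l ++ (x * a) :: l').length = n + 1 := by simpa using hlen
    rw [cf_of_length _ _ _ hlen, cf_of_length _ _ _ hlen', lt_eq_pointWord, lt_eq_pointWord]
    have hj : l.length < n + 1 := by simp at hlen; omega
    rw [← h x k hk hxk (fun i : Fin (n + 1) => (l ++ a :: l').getD i 1) ⟨l.length, hj⟩]
    congr 2
    funext i
    by_cases hi : (i : ℕ) = l.length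
    · have : i = ⟨l.length, hj⟩ := Fin.ext hi
      subst this
      rw [Function.update_self]
      simp
    · rw [Function.update_of_ne (fun h => hi (by rw [h]))]
      rcases lt_or_gt_of_ne hi with hlt | hgt
      · rw [List.getD_append _ _ _ _ hlt, List.getD_append _ _ _ _ hlt]
      · rw [List.getD_append_right _ _ _ _ hgt.le, List.getD_append_right _ _ _ _ hgt.le]
        obtain ⟨t, ht⟩ : ∃ t, (i : ℕ) - l.length = t + 1 := ⟨(i : ℕ) - l.length - 1, by omega⟩
        rw [ht, List.getD_cons_succ, List.getD_cons_succ]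
  · rw [cf_of_length_ne _ _ _ hlen, cf_of_length_ne]
    simpa using hlen

/-- root invariance of the restriction of `f` to a subgroup -/
def RIs {G : Type v} [Group G] {V : Type x} [AddCommGroup V] {n : ℕ}
    (f : (Fin (n + 1) → G) → V) : Prop :=
  ∀ (H : Subgroup G) (P : H), RI (cf (fun g : Fin (n + 1) → H => f fun i => (g i : G)) P) P

/-- conjugacy of elements of a subgroup -/
lemma not_conj_sub {G : Type v} [Group G] (H : Subgroup G) (P y : H) (q : ℕ)
    (h : ∀ a ∈ H, a * ((y⁻¹ * P * y : H) : G) * a⁻¹ ≠ ((y⁻¹ * P * y : H) : G) ^ q) :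
    ¬ IsConj P (P ^ q) := by
  intro hc
  obtain ⟨a, ha⟩ := isConj_iff.1 hc
  apply h ((y⁻¹ * a * y : H) : G) (y⁻¹ * a * y : H).2
  rw [← Subgroup.coe_mul, ← Subgroup.coe_inv, ← Subgroup.coe_mul, ← Subgroup.coe_pow]
  congr 1
  have h3 := conj_pow (a := y⁻¹) (b := P) (i := q)
  rw [inv_inv] at h3
  rw [h3, ← ha]
  group

/-- **Vanishing** for root invariant cocycles with values in separated groups. -/
theorem dennis_ri {k : Type u} [CommRing k] {G : Type v} [Group G] {r : Type w} [Fintype r]
    [DecidableEq r] {V : Type x} [AddCommGroup V] [Module k V]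
    {n : ℕ}
    (z : (Fin (n + 1) → (Matrix r r (MonoidAlgebra k G))ˣ) →₀ ℤ) (hz : barBoundary z = 0)
    (f : (Fin (n + 2) → G) → V) (hf : IsHochschildCocycle f)
    (hri : RIs f)
    (hsupp : ∀ g : Fin (n + 2) → G, f g ≠ 0 → ∀ H : Subgroup G, H.FG → (List.ofFn g).prod ∈ H →
      ∃ p : ℕ, p.Prime ∧ (∀ v : V, (∀ e : ℕ, ∃ v' : V, v = p ^ e • v') → v = 0) ∧
        ∀ j : ℕ, 1 ≤ j → ∀ a ∈ H, a * (List.ofFn g).prod * a⁻¹ ≠ (List.ofFn g).prod ^ p ^ j) :
    dennis f z = 0 := by
  classical
  set A : Subring k := ⊤ with hAdef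
  set H : Subgroup G := Subgroup.closure ((zsupp z : Finset G) : Set G) with hH
  have hHfg : H.FG := ⟨zsupp z, rfl⟩
  obtain ⟨L, hL⟩ := exists_lift_chain z A H (fun c _ => Subring.mem_top c)
    (fun g hg => Subgroup.subset_closure hg)
  set f' : (Fin (n + 2) → H) → V := fun g => f fun i => (g i : G) with hf'
  let θ' : (Matrix r r (MonoidAlgebra A H))ˣ →* Matrix r r (MonoidAlgebra A H) := Units.coeHom _
  let ι₀ : (Matrix r r (MonoidAlgebra A H))ˣ →* (Matrix r r (MonoidAlgebra k G))ˣ :=
    Units.map (ThM r A.subtype H.subtype).toMonoidHom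
  have hinj : Function.Injective (ThM r A.subtype H.subtype) := by
    intro M N h
    ext1 a b
    apply Th_injective A.subtype H.subtype Subtype.val_injective Subtype.val_injective
    rw [← ThM_apply, ← ThM_apply, h]
  have hι₀ : Function.Injective ι₀ := Units.map_injective hinj
  have hofFn : ∀ x ∈ z.support, List.ofFn x = (List.ofFn (L x)).map ι₀ := by
    intro x hx
    rw [List.map_ofFn]
    congr 1
    funext i
    exact (hL x hx i).symm
  have hval : ∑ x ∈ z.support, z x • SS θ' (cf f') (List.ofFn (L x)) = dennis f z := by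
    rw [dennis_eq]
    apply sum_congr rfl
    intro x hx
    congr 1
    rw [hofFn x hx]
    symm
    apply SS_Th ι₀ θ' (Units.coeHom _) A.subtype H.subtype (fun a => rfl)
      (AddMonoidHom.id V) (fun c v => rfl)
    intro g l
    apply cf_map
    intro g
    rfl
  have hcycz : IsCyc V (n + 1) z.support z fun x => List.ofFn (L x) :=
    isCyc_lift ι₀ hι₀ V z.support z _ _ hofFn (isCyc_of_barBoundary z hz V)
  have hcoc : IsHochschildCocycle f' := hoch_comp f hf H.subtype
  rw [← hval]
  refine vanish_fam_ri (k := A) (G := H) (r := r) (V := V) θ' (n + 1)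
    (Nat.le_add_left 1 n) (cf f') (fam_cf f' hcoc) ?_ z.support z
    (fun x => List.ofFn (L x)) hcycz
  intro P l hPl
  have hlen : l.length = n + 2 := by
    by_contra hne
    exact hPl (cf_of_length_ne f' P l hne)
  refine ⟨hri H P, ?_⟩
  rw [cf_of_length f' P l hlen] at hPl
  have h2 : (List.ofFn fun i => ((lt (n := n + 1) P l i : H) : G)).prod =
      (((List.ofFn (lt (n := n + 1) P l)).prod : H) : G) := by
    have := map_list_prod H.subtype (List.ofFn (lt (n := n + 1) P l))
    rw [List.map_ofFn] at this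
    exact this.symm
  obtain ⟨p, hp, hsep, hconj⟩ := hsupp _ hPl H hHfg (by rw [h2]; exact Subtype.property _)
  refine ⟨p, hp, hsep, fun j hj => ?_⟩
  have h3 := hconj j hj
  rw [h2, prod_lt] at h3
  exact not_conj_sub H P (l.getD (n + 1) 1) (p ^ j) h3

/-- **Vanishing** for root invariant cocycles over torsion-free rings. -/
theorem dennis_ri_ring {K : Type u} [CommRing K]
    (htfK : ∀ (a : ℕ) (v : K), 0 < a → a • v = 0 → v = 0) {G : Type v} [Group G] {r : Type w}
    [Fintype r] [DecidableEq r] {n : ℕ}
    (z : (Fin (n + 1) → (Matrix r r (MonoidAlgebra K G))ˣ) →₀ ℤ) (hz : barBoundary z = 0)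
    (f : (Fin (n + 2) → G) → K)
    (hval : ∀ H : Subgroup G, H.FG → ∃ s : Finset K, ∀ g : Fin (n + 2) → H,
      f (fun i => (g i : G)) ∈ Algebra.adjoin ℤ (s : Set K))
    (hf : IsHochschildCocycle f)
    (hri : RIs f)
    (hsupp : ∀ g : Fin (n + 2) → G, f g ≠ 0 → ∀ H : Subgroup G, H.FG → (List.ofFn g).prod ∈ H →
      {p : ℕ | p.Prime ∧ ∀ j : ℕ, 1 ≤ j → ∀ a ∈ H,
        a * (List.ofFn g).prod * a⁻¹ ≠ (List.ofFn g).prod ^ p ^ j}.Infinite) :
    dennis f z = 0 := by
  classical
  set H : Subgroup G := Subgroup.closure ((zsupp z : Finset G) : Set G) with hH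
  have hHfg : H.FG := ⟨zsupp z, rfl⟩
  obtain ⟨s, hs⟩ := hval H hHfg
  set T : Finset K := zcoef z ∪ s with hT
  set A : Subring K := (Algebra.adjoin ℤ (T : Set K)).toSubring with hAdef
  have hTA : ∀ c ∈ T, c ∈ A := fun c hc => Algebra.subset_adjoin hc
  have hfA : ∀ g : Fin (n + 2) → H, f (fun i => (g i : G)) ∈ A := fun g =>
    Algebra.adjoin_mono (by intro y hy; simp only [hT, Finset.coe_union]; exact Or.inr hy) (hs g)
  obtain ⟨L, hL⟩ := exists_lift_chain z A H (fun c hc => hTA c (mem_union_left _ hc))
    (fun g hg => Subgroup.subset_closure hg)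
  set f' : (Fin (n + 2) → H) → A := fun g => ⟨f fun i => (g i : G), hfA g⟩ with hf'
  let θ' : (Matrix r r (MonoidAlgebra A H))ˣ →* Matrix r r (MonoidAlgebra A H) := Units.coeHom _
  let ι₀ : (Matrix r r (MonoidAlgebra A H))ˣ →* (Matrix r r (MonoidAlgebra K G))ˣ :=
    Units.map (ThM r A.subtype H.subtype).toMonoidHom
  have hinj : Function.Injective (ThM r A.subtype H.subtype) := by
    intro M N h
    ext1 a b
    apply Th_injective A.subtype H.subtype Subtype.val_injective Subtype.val_injective
    rw [← ThM_apply, ← ThM_apply, h]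
  have hι₀ : Function.Injective ι₀ := Units.map_injective hinj
  have hofFn : ∀ x ∈ z.support, List.ofFn x = (List.ofFn (L x)).map ι₀ := by
    intro x hx
    rw [List.map_ofFn]
    congr 1
    funext i
    exact (hL x hx i).symm
  have hvl : A.subtype (∑ x ∈ z.support, z x • SS θ' (cf f') (List.ofFn (L x))) =
      dennis f z := by
    rw [dennis_eq]
    have h1 : ∀ a : A, A.subtype a = A.subtype.toAddMonoidHom a := fun a => rfl
    rw [h1, map_sum]
    apply sum_congr rfl
    intro x hx
    rw [map_zsmul]
    congr 1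
    rw [hofFn x hx]
    symm
    apply SS_Th ι₀ θ' (Units.coeHom _) A.subtype H.subtype (fun a => rfl)
      A.subtype.toAddMonoidHom (fun c v => by simp)
    intro g l
    apply cf_map
    intro g
    rfl
  have hcycz : IsCyc A (n + 1) z.support z fun x => List.ofFn (L x) :=
    isCyc_lift ι₀ hι₀ A z.support z _ _ hofFn (isCyc_of_barBoundary z hz A)
  have hcoc : IsHochschildCocycle f' := by
    apply hoch_lift _ A.subtype.toAddMonoidHom Subtype.val_injective
    exact hoch_comp f hf H.subtype
  rw [← hvl]
  have htf : ∀ (a : ℕ) (v : A), 0 < a → a • v = 0 → v = 0 := by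
    intro a v ha hv
    apply Subtype.ext
    apply htfK a _ ha
    have h := congrArg A.subtype hv
    rwa [map_nsmul, map_zero] at h
  have hftA : Algebra.FiniteType ℤ A := by
    have h : Algebra.FiniteType ℤ (Algebra.adjoin ℤ (T : Set K)) := by
      rw [← Subalgebra.fg_iff_finiteType]
      exact ⟨T, rfl⟩
    exact h
  have h0 := vanish_fam_ri (k := A) (G := H) (r := r) (V := A) θ' (n + 1)
    (Nat.le_add_left 1 n) (cf f') (fam_cf f' hcoc) ?_ z.support z
    (fun x => List.ofFn (L x)) hcycz
  · rw [h0, map_zero]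
  · intro P l hPl
    have hlen : l.length = n + 2 := by
      by_contra hne
      exact hPl (cf_of_length_ne f' P l hne)
    constructor
    · intro x hx l l' a
      apply Subtype.ext
      have h1 := hri H P x hx l l' a
      have h2 : ∀ l : List H, ((cf f' P l : A) : K) =
          cf (fun g : Fin (n + 2) → H => f fun i => (g i : G)) P l := by
        intro l
        by_cases h : l.length = n + 1 + 1
        · rw [cf_of_length _ _ _ h, cf_of_length _ _ _ h]
        · rw [cf_of_length_ne _ _ _ h, cf_of_length_ne _ _ _ h]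
          rfl
      rw [h2, h2, h1]
    · rw [cf_of_length f' P l hlen] at hPl
      have h1 : f (fun i => ((lt (n := n + 1) P l i : H) : G)) ≠ 0 := by
        intro h0
        exact hPl (Subtype.ext h0)
      have h2 : (List.ofFn fun i => ((lt (n := n + 1) P l i : H) : G)).prod =
          (((List.ofFn (lt (n := n + 1) P l)).prod : H) : G) := by
        have := map_list_prod H.subtype (List.ofFn (lt (n := n + 1) P l))
        rw [List.map_ofFn] at this
        exact this.symm
      obtain ⟨p, ⟨hp, hconj⟩, hpT⟩ :=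
        ((hsupp _ h1 H hHfg (by rw [h2]; exact Subtype.property _)).sdiff
          (finite_not_sep A htf)).nonempty
      refine ⟨p, hp, ?_, fun j hj => ?_⟩
      · intro v hv
        by_contra hv0
        exact hpT ⟨hp, v, hv0, hv⟩
      · have h3 := hconj j hj
        rw [h2, prod_lt] at h3
        exact not_conj_sub H P (l.getD (n + 1) 1) (p ^ j) h3

/-- root invariant cocycles -/
lemma RIs_of {G : Type v} [Group G] {V : Type x} [AddCommGroup V] {n : ℕ}
    (f : (Fin (n + 1) → G) → V)
    (h : ∀ (P x : G) (k : ℕ), 0 < k → x ^ k = P → ∀ (y : Fin (n + 1) → G) (j : Fin (n + 1)),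
      f (pointWord P (Function.update y j (x * y j))) = f (pointWord P y)) : RIs f := by
  intro H P
  apply RI_cf
  intro x k hk hxk y j
  have h1 := h (P : G) (x : G) k hk (by rw [← Subgroup.coe_pow, hxk]) (fun i => (y i : G)) j
  have h3 : (fun i => ((Function.update y j (x * y j) i : H) : G)) =
      Function.update (fun i => (y i : G)) j ((x : G) * (y j : G)) := by
    funext i
    by_cases hi : i = j
    · subst hi
      simp
    · rw [Function.update_of_ne hi, Function.update_of_ne hi]
  show f (fun i => ((pointWord P (Function.update y j (x * y j)) i : H) : G)) =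
    f (fun i => ((pointWord P y i : H) : G))
  rw [coe_pointWord, coe_pointWord, h3, h1]

/-- in degree one shift invariance is enough -/
lemma RIs_of_one {G : Type v} [Group G] {V : Type x} [AddCommGroup V]
    (htf : ∀ (a : ℕ) (v : V), 0 < a → a • v = 0 → v = 0)
    (f : (Fin 2 → G) → V) (hf : IsHochschildCocycle (n := 1) f)
    (hcyc : ∀ (P : G) (y : Fin 2 → G) (j : Fin 2), ¬ IsOfFinOrder P →
      f (pointWord P (Function.update y j (P * y j))) = f (pointWord P y)) :
    RIs (n := 1) f := by
  intro H P
  set f' : (Fin 2 → H) → V := fun g => f fun i => (g i : G) with hf'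
  have hcoc : IsHochschildCocycle (n := 1) f' := hoch_comp f hf H.subtype
  refine RI_of_deg_one htf (cf (n := 1) f') (fam_cf f' hcoc)
    (fun P l hl => cf_of_length_ne f' P l hl) P ?_
  by_cases hP : IsOfFinOrder P
  · exact Or.inl hP
  · right
    apply SI_cf f' P
    intro y j
    have hP' : ¬ IsOfFinOrder (P : G) := fun h =>
      hP ((Submonoid.isOfFinOrder_coe (H := H.toSubmonoid)).1 h)
    have h1 := hcyc (P : G) (fun i => (y i : G)) j hP'
    have h3 : (fun i => ((Function.update y j (P * y j) i : H) : G)) =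
        Function.update (fun i => (y i : G)) j ((P : G) * (y j : G)) := by
      funext i
      by_cases hi : i = j
      · subst hi
        simp
      · rw [Function.update_of_ne hi, Function.update_of_ne hi]
    show f (fun i => ((pointWord P (Function.update y j (P * y j)) i : H) : G)) =
      f (fun i => ((pointWord P y i : H) : G))
    rw [coe_pointWord, coe_pointWord, h3, h1]

end Pool.Agent.Y69.VN
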