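import Pool.Agent.Y69.VN.Vert

/-!
# Evaluation of the two cochains on tensor powers
-/

set_option autoImplicit false
set_option linter.unusedSectionVars false

namespace Pool.Agent.Y69.VN

open Finset Pool.Agent.W644.HK

universe u v w x y z

section coch

variable {G : Type v} [Group G] {N : ℕ} [NeZero N] {V : Type x} [AddCommGroup V] {M : ℕ}

/-- the cochain on necklaces given by a vertex map -/
def CG (c : G → List G → V) (e : (ZMod N → G) → (ZMod N → G) → Pt G M)
    (Q : ZMod N → G) (Ys : List (ZMod N → G)) : V := cs (c (qq Q N)) (Ys.map (e Q))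

/-- the prism cochain between two vertex maps -/
def PG (c : G → List G → V) (e e' : (ZMod N → G) → (ZMod N → G) → Pt G M)
    (Q : ZMod N → G) (Ys : List (ZMod N → G)) : V := prism (e Q) (e' Q) (cs (c (qq Q N))) Ys

lemma cs_conj (c : G → List G → V)
    (hc : ∀ x g l, c (x * g * x⁻¹) (l.map (x * ·)) = c g l) (x g : G) (l : List (Pt G M)) :
    cs (c (x * g * x⁻¹)) (l.map (Pt.map (x * ·))) = cs (c g) l := by
  rw [cs_map]
  congr 1
  funext l'
  exact hc x g l'

lemma PG_conj (c : G → List G → V)
    (hc : ∀ x g l, c (x * g * x⁻¹) (l.map (x * ·)) = c g l)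
    (e e' : (ZMod N → G) → (ZMod N → G) → Pt G M)
    (h0 : ∀ x Q Y, e (x * Q * (tau G N x)⁻¹) (x * Y) = (e Q Y).map (x 0 * ·))
    (h1 : ∀ x Q Y, e' (x * Q * (tau G N x)⁻¹) (x * Y) = (e' Q Y).map (x 0 * ·))
    (x Q : ZMod N → G) (l : List (ZMod N → G)) :
    PG c e e' (x * Q * (tau G N x)⁻¹) (l.map (x * ·)) = PG c e e' Q l := by
  unfold PG
  rw [qq_conj_p]
  exact prism_congr _ _ _ _ (x * ·) (Pt.map (x 0 * ·)) (fun a => h0 x Q a) (fun a => h1 x Q a) _ _
      (fun l => cs_conj c hc (x 0) _ l) l

lemma bd_PG (hM : ∀ v : V, M • v = 0 → v = 0) (c : G → List G → V) (n : ℕ)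
    (hcoc : ∀ (g : G) (l : List G), l.length = n + 2 → bd (c g) l = 0)
    (e e' : (ZMod N → G) → (ZMod N → G) → Pt G M)
    (Q : ZMod N → G) (l : List (ZMod N → G)) (hl : l.length = n + 1) :
    bd (PG c e e' Q) l = CG c e' Q l - CG c e Q l := by
  unfold CG
  rw [← prism_identity,
      prism_eq_zero _ _ (bd (cs (c (qq Q N)))) l (fun l' hl' => ?_), add_zero]
  · rfl
  · exact bd_cs hM _ (n + 2) (hcoc _) l' (by omega)

/-- the vertex map reading off block `0` -/
def F0 (M : ℕ) (_ Y : ZMod N → G) : Pt G M := Pt.rep M (Y 0)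

lemma F0_conj (x Q Y : ZMod N → G) :
    F0 M (x * Q * (tau G N x)⁻¹) (x * Y) = (F0 M Q Y).map (x 0 * ·) := by
  apply Subtype.ext
  show Multiset.replicate M (x 0 * Y 0) = (Multiset.replicate M (Y 0)).map (x 0 * ·)
  rw [Multiset.map_replicate]

lemma CG_F0 (c : G → List G → V) (Q : ZMod N → G) (l : List (ZMod N → G)) :
    CG (M := M) c (F0 M) Q l = M ^ l.length • c (qq Q N) (l.map fun Y => Y 0) := by
  have h1 : l.map (F0 M Q) = (l.map fun Y => Y 0).map (Pt.rep M) := by
    rw [List.map_map]
    rfl
  rw [CG, h1, cs_rep, List.length_map]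

/-- rotation invariance -/
lemma CG_EV_tau {m : ℕ} (hm : 0 < m) (c : G → List G → V)
    (hc : ∀ x g l, c (x * g * x⁻¹) (l.map (x * ·)) = c g l)
    (Q : ZMod N → G) (l : List (ZMod N → G))
    (h : (∀ l, c (qq Q N) l = 0) ∨ (qq Q N ^ m = 1 ∧ ∀ Y ∈ l, (E m Q Y).card ∣ M)) :
    CG c (EV m M) (tau G N Q) (l.map (tau G N)) = CG c (EV m M) Q l := by
  have hconj := hc ((Q 0)⁻¹) (qq Q N)
  rw [inv_inv] at hconj
  rcases h with h | ⟨hP, hd⟩
  · unfold CG
    have h1 : c (qq Q N) = fun _ => 0 := funext h
    have h2 : c (qq (tau G N Q) N) = fun _ => 0 := by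
      funext l'
      rw [qq_tau_p]
      have h3 : l' = (l'.map (Q 0 * ·)).map ((Q 0)⁻¹ * ·) := by
        rw [List.map_map]
        conv_lhs => rw [← List.map_id l']
        apply List.map_congr_left
        intro a _
        simp
      rw [h3, hconj, h]
    rw [h1, h2, cs_zero, cs_zero]
  · unfold CG
    have h1 : (l.map (tau G N)).map (EV m M (tau G N Q)) =
        (l.map (EV m M Q)).map (Pt.map ((Q 0)⁻¹ * ·)) := by
      rw [List.map_map, List.map_map]
      apply List.map_congr_left
      intro Y hY
      exact EV_tau hm Q Y hP (hd Y hY)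
    have h2 := cs_conj (M := M) c hc ((Q 0)⁻¹) (qq Q N) (l.map (EV m M Q))
    rw [inv_inv] at h2
    rw [h1, qq_tau_p, h2]

end coch

variable {k : Type u} [CommRing k] {G : Type v} [Group G] {r : Type w} [Fintype r] [DecidableEq r]
  {V : Type x} [AddCommGroup V] [Module k V] {N : ℕ} [NeZero N]

/-- evaluation of the cochain of block `0` -/
lemma TT_F (c : G → List G → V) (Xs : List (Matrix r r (MonoidAlgebra k G)))
    (hXs : Xs.prod = 1) :
    TT (pperm (Equiv.addRight (1 : ZMod N)))
      (CF fun (Q : ZMod N → G) l => c (qq Q N) (l.map fun Y => Y 0)) (Xs.map om) =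
      TT (Equiv.refl r) (CF c) Xs := by
  classical
  let Φ : (ZMod N → List G) → V := fun f =>
    c (qq (fun j => (f j).prod) N) (pts 1 (f 0))
  have hΦ : ∀ l : List (ZMod N → G),
      CF (fun (Q : ZMod N → G) l => c (qq Q N) (l.map fun Y => Y 0)) l = Φ (unt l) := by
    intro l
    rw [CF]
    have h1 : l.prod = fun j => (unt l j).prod := by
      funext j
      exact map_list_prod (Pi.evalMonoidHom (fun _ : ZMod N => G) j) l
    have h2 : ((pts 1 l).map fun Y => Y 0) = pts 1 (unt l 0) :=
      map_pts (fun Y : ZMod N → G => Y 0) (fun _ _ => rfl) 1 l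
    rw [h2]
    show c (qq l.prod N) _ = c (qq (fun j => (unt l j).prod) N) _
    rw [← h1]
  let nrm : ZMod N → List G → List G := fun j l => if j = 0 then l else [l.prod]
  have hnrm : ∀ f, Φ (fun j => nrm j (f j)) = Φ f := by
    intro f
    show c (qq (fun j => (nrm j (f j)).prod) N) (pts 1 (nrm 0 (f 0))) =
      c (qq (fun j => (f j).prod) N) (pts 1 (f 0))
    have h1 : (fun j => (nrm j (f j)).prod) = fun j => (f j).prod := by
      funext j
      simp only [nrm]
      split_ifs <;> simp
    rw [h1]
    simp [nrm]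
  have hstep : ∀ s : ZMod N → r,
      EE (Xs.map om) s (pperm (Equiv.addRight (1 : ZMod N)) s)
        (CF fun (Q : ZMod N → G) l => c (qq Q N) (l.map fun Y => Y 0)) =
      Finsupp.linearCombination k Φ
        (tens fun j => if j = 0 then mu Xs (s 0) (s 1) else
          if s j = s (j + 1) then Finsupp.single [1] 1 else 0) := by
    intro s
    have h1 : (CF fun (Q : ZMod N → G) l => c (qq Q N) (l.map fun Y => Y 0)) =
        fun l => Φ (unt l) := funext hΦ
    rw [h1, EE_unt]
    have h2 : Finsupp.linearCombination k Φ (tens fun j => mu Xs (s j)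
        (pperm (Equiv.addRight (1 : ZMod N)) s j)) =
        Finsupp.linearCombination k Φ ((tens fun j => mu Xs (s j)
        (pperm (Equiv.addRight (1 : ZMod N)) s j)).mapDomain fun f j => nrm j (f j)) := by
      rw [Finsupp.linearCombination_mapDomain]
      congr 2
      funext f
      exact (hnrm f).symm
    rw [h2, tens_mapDomain]
    congr 2
    funext j
    by_cases hj : j = 0
    · subst hj
      simp [nrm]
      exact Finsupp.mapDomain_id
    · rw [if_neg hj]
      have h3 : nrm j = fun l => [l.prod] := by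
        funext l
        simp [nrm, hj]
      rw [h3, mapDomain_prod Xs hXs]
      rfl
  unfold TT
  simp_rw [hstep]
  rw [← sum_subset (subset_univ (univ.image fun s : r => fun _ : ZMod N => s))]
  · rw [sum_image (fun a _ b _ hab => congrFun hab 0)]
    apply sum_congr rfl
    intro s _
    have h1 : (tens fun j : ZMod N => if j = 0 then mu Xs s s else
          if s = s then (Finsupp.single [1] 1 : List G →₀ k) else 0) =
        (mu Xs s s).mapDomain fun l => fun j : ZMod N => if j = 0 then l else [1] := by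
      ext f
      rw [tens_apply, ← mul_prod_erase univ _ (mem_univ (0 : ZMod N)), if_pos rfl]
      have hinj : Function.Injective
          (fun (l : List G) => fun j : ZMod N => if j = 0 then l else ([1] : List G)) := by
        intro l l' h
        simpa using congrFun h 0
      by_cases hf : ∀ j, j ≠ 0 → f j = [1]
      · have h2 : f = fun j => if j = 0 then f 0 else [1] := by
          funext j
          split_ifs with h
          · rw [h]
          · exact hf j h
        rw [h2, Finsupp.mapDomain_apply hinj, prod_eq_one, mul_one]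
        · simp
        · intro j hj
          rw [if_neg (ne_of_mem_erase hj), if_pos rfl]
          simp [ne_of_mem_erase hj]
      · push Not at hf
        obtain ⟨j, hj, hfj⟩ := hf
        rw [Finsupp.mapDomain_of_notMem_range]
        · rw [prod_eq_zero (mem_erase.2 ⟨hj, mem_univ j⟩), mul_zero]
          rw [if_neg hj, if_pos rfl, Finsupp.single_apply, if_neg (fun h => hfj h.symm)]
        · rintro ⟨l, rfl⟩
          simp [hj] at hfj
    rw [h1, Finsupp.linearCombination_mapDomain]
    show _ = EE Xs s s _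
    rw [EE]
    congr 2
    funext l
    show c (qq (fun j : ZMod N => (if j = 0 then l else [1]).prod) N)
      (pts 1 (if (0 : ZMod N) = 0 then l else [1])) = c l.prod (pts 1 l)
    rw [qq_single]
    · simp
    · intro j hj
      simp [hj]
  · intro s _ hs
    have h1 : ∃ j : ZMod N, j ≠ 0 ∧ s j ≠ s (j + 1) := by
      by_contra hcon
      push Not at hcon
      apply hs
      rw [mem_image]
      refine ⟨s 0, mem_univ _, ?_⟩
      funext j
      exact (const_of_succ s hcon j).symm
    obtain ⟨j, hj, hsj⟩ := h1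
    have h2 : (tens fun j => if j = 0 then mu Xs (s 0) (s 1) else
          if s j = s (j + 1) then Finsupp.single [1] 1 else 0) = 0 := by
      ext f
      rw [tens_apply]
      apply prod_eq_zero (mem_univ j)
      rw [if_neg hj, if_neg hsj]
      rfl
    rw [h2, map_zero]

/-- the necklace words occurring in the path measures of tensor powers -/
noncomputable def AN (N : ℕ) [NeZero N] (Xs : List (Matrix r r (MonoidAlgebra k G))) :
    Finset (List (ZMod N → G)) :=
  (Fintype.piFinset fun _ : ZMod N => Lset Xs).preimage unt unt_injective.injOn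

lemma mem_AN (Xs : List (Matrix r r (MonoidAlgebra k G))) (l : List (ZMod N → G)) :
    l ∈ AN N Xs ↔ ∀ j, unt l j ∈ Lset Xs := by
  rw [AN, mem_preimage, Fintype.mem_piFinset]

lemma EE_AN (Xs : List (Matrix r r (MonoidAlgebra k G))) (s t : ZMod N → r)
    (F : List (ZMod N → G) → V) :
    EE (Xs.map om) s t F = ∑ l ∈ AN N Xs, mu (Xs.map om) s t l • F l := by
  rw [EE_eq_sum]
  apply sum_subset
  · intro l hl
    rw [Finsupp.mem_support_iff, mu_om] at hl
    rw [mem_AN]
    intro j
    exact mem_Lset Xs _ _ _ (fun h => hl (prod_eq_zero (mem_univ j) h))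
  · intro l _ hl
    rw [Finsupp.notMem_support_iff.1 hl, zero_smul]

/-- rotation of a state and a word -/
def ro (x : (ZMod N → r) × List (ZMod N → G)) : (ZMod N → r) × List (ZMod N → G) :=
  (pperm (Equiv.addRight (1 : ZMod N)) x.1, x.2.map (tau G N))

lemma ro_iterate (i : ℕ) (x : (ZMod N → r) × List (ZMod N → G)) :
    ro^[i] x = (fun j => x.1 (j + (i : ZMod N)), x.2.map (sh i)) := by
  induction i with
  | zero =>
    rw [Function.iterate_zero_apply]
    refine Prod.ext ?_ ?_
    · simp
    · have : (sh 0 : (ZMod N → G) → (ZMod N → G)) = id := funext fun u => sh_zero u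
      rw [this, List.map_id]
  | succ i ih =>
    rw [Function.iterate_succ_apply', ih, ro]
    refine Prod.ext ?_ ?_
    · funext j
      show x.1 (j + 1 + (i : ZMod N)) = x.1 (j + ((i + 1 : ℕ) : ZMod N))
      rw [show j + 1 + (i : ZMod N) = j + ((i + 1 : ℕ) : ZMod N) by push_cast; ring]
    · simp only [List.map_map]
      congr 1
      funext u
      rw [Function.comp_apply, tau_eq_sh, sh_sh, add_comm]

lemma ro_iterate_N (x : (ZMod N → r) × List (ZMod N → G)) : ro^[N] x = x := by
  rw [ro_iterate]
  refine Prod.ext ?_ ?_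
  · simp
  · have : (sh N : (ZMod N → G) → (ZMod N → G)) = id := by
      funext u
      have := sh_mul_p 1 u
      rwa [one_mul] at this
    rw [this, List.map_id]

lemma unt_map_tau' (l : List (ZMod N → G)) (j : ZMod N) :
    unt (l.map (tau G N)) j = unt l (j + 1) := by
  simp only [unt, List.map_map]
  rfl

/-- the summand of the total -/
noncomputable def NN (F : List (ZMod N → G) → V) (Xs : List (Matrix r r (MonoidAlgebra k G)))
    (x : (ZMod N → r) × List (ZMod N → G)) : V :=
  mu (Xs.map om) x.1 (pperm (Equiv.addRight (1 : ZMod N)) x.1) x.2 • F x.2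

lemma TT_eq_NN (F : List (ZMod N → G) → V) (Xs : List (Matrix r r (MonoidAlgebra k G))) :
    TT (pperm (Equiv.addRight (1 : ZMod N))) F (Xs.map om) =
      ∑ x ∈ univ ×ˢ AN N Xs, NN F Xs x := by
  rw [sum_product]
  unfold TT
  apply sum_congr rfl
  intro s _
  rw [EE_AN]
  rfl

lemma ro_mem (Xs : List (Matrix r r (MonoidAlgebra k G)))
    (x : (ZMod N → r) × List (ZMod N → G)) (hx : x ∈ univ ×ˢ AN N Xs) :
    ro x ∈ univ ×ˢ AN N Xs := by
  rw [mem_product] at hx ⊢
  refine ⟨mem_univ _, ?_⟩
  rw [mem_AN]
  intro j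
  show unt (x.2.map (tau G N)) j ∈ _
  rw [unt_map_tau']
  exact (mem_AN _ _).1 hx.2 (j + 1)

lemma NN_ro (F : List (ZMod N → G) → V) (Xs : List (Matrix r r (MonoidAlgebra k G)))
    (x : (ZMod N → r) × List (ZMod N → G)) (hF : F (x.2.map (tau G N)) = F x.2) :
    NN F Xs (ro x) = NN F Xs x := by
  unfold NN
  show mu (Xs.map om) _ _ (x.2.map (tau G N)) • F (x.2.map (tau G N)) = _
  rw [hF]
  congr 1
  rw [mu_om, mu_om]
  refine Fintype.prod_equiv (Equiv.addRight (1 : ZMod N)) _ _ fun j => ?_
  have := unt_map_tau' x.2 j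
  simp only [unt] at this
  rw [this]
  rfl

end Pool.Agent.Y69.VN
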