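import Pool.Agent.Y69.VN.Ms

/-!
# The rotation invariant multiset of vertices of a necklace
-/

set_option autoImplicit false
set_option linter.unusedSectionVars false

namespace Pool.Agent.Y69.VN

open Finset Pool.Agent.W644.HK

universe u v w x y z

section vert

variable {G : Type v} [Group G] {N : ℕ} [NeZero N]

lemma sh_iter (t : ℕ) (u : ZMod N → G) : (sh 1)^[t] u = sh t u := by
  induction t with
  | zero => simp
  | succ t ih => rw [Function.iterate_succ_apply', ih, sh_sh, add_comm]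

lemma sh_cancel (a t : ℕ) (u : ZMod N → G) (h : sh (a + t) u = sh a u) : sh t u = u := by
  have h1 := congrArg (sh (a * (N - 1))) h
  rw [sh_sh, sh_sh] at h1
  have hN : 1 ≤ N := Nat.one_le_iff_ne_zero.2 (NeZero.ne N)
  have h2 : a * (N - 1) + a = a * N := by
    obtain ⟨q, rfl⟩ : ∃ q, N = q + 1 := ⟨N - 1, by omega⟩
    simp
    ring
  rw [← add_assoc, h2, sh_mul_p, add_comm, ← sh_sh, sh_mul_p] at h1
  exact h1

lemma sh_add_mul (i t : ℕ) (u : ZMod N → G) : sh (i + t * N) u = sh i u := by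
  rw [← sh_sh, sh_mul_p]

open Classical in
/-- the points of the necklace at the positions where the word is in normal form -/
noncomputable def E (m : ℕ) (Q Y : ZMod N → G) : Finset G :=
  ((range (N * m)).filter fun i => sh i (uu Q Y) = rep (uu Q Y)).image (yy Q Y)

lemma yy_add_period {m : ℕ} (Q Y : ZMod N → G) (hP : qq Q N ^ m = 1) (i t : ℕ) :
    yy Q Y (i + t * (N * m)) = yy Q Y i := by
  rw [show i + t * (N * m) = i + (m * t) * N by ring, yy_add_mul_p, pow_mul, hP, one_pow, one_mul]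

lemma mem_E {m : ℕ} (hm : 0 < m) (Q Y : ZMod N → G) (hP : qq Q N ^ m = 1) (g : G) :
    g ∈ E m Q Y ↔ ∃ i, sh i (uu Q Y) = rep (uu Q Y) ∧ yy Q Y i = g := by
  classical
  have hN : 0 < N := Nat.pos_of_ne_zero (NeZero.ne N)
  rw [E, mem_image]
  constructor
  · rintro ⟨i, hi, hg⟩
    exact ⟨i, (mem_filter.1 hi).2, hg⟩
  · rintro ⟨i, hi, hg⟩
    have h1 : i % (N * m) + i / (N * m) * (N * m) = i := by
      rw [add_comm, mul_comm (i / (N * m))]
      exact Nat.div_add_mod i (N * m)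
    refine ⟨i % (N * m), mem_filter.2 ⟨mem_range.2 (Nat.mod_lt _ (by positivity)), ?_⟩, ?_⟩
    · rw [← hi]
      conv_rhs => rw [← h1]
      rw [show i / (N * m) * (N * m) = (i / (N * m) * m) * N by ring, sh_add_mul]
    · rw [← hg]
      conv_rhs => rw [← h1]
      rw [yy_add_period Q Y hP]

open Classical in
lemma E_conj (m : ℕ) (x Q Y : ZMod N → G) :
    E m (x * Q * (tau G N x)⁻¹) (x * Y) = (E m Q Y).image (x 0 * ·) := by
  rw [E, E, uu_conj, image_image]
  congr 1
  funext i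
  exact yy_conj x Q Y i

lemma qq_tau_pow {m : ℕ} (Q : ZMod N → G) (hP : qq Q N ^ m = 1) :
    qq (tau G N Q) N ^ m = 1 := by
  rw [qq_tau_p]
  have := conj_pow (a := (Q 0)⁻¹) (b := qq Q N) (i := m)
  rw [inv_inv] at this
  rw [this, hP]
  group

open Classical in
lemma E_tau {m : ℕ} (hm : 0 < m) (Q Y : ZMod N → G) (hP : qq Q N ^ m = 1) :
    E m (tau G N Q) (tau G N Y) = (E m Q Y).image ((Q 0)⁻¹ * ·) := by
  have hN : 0 < N := Nat.pos_of_ne_zero (NeZero.ne N)
  ext g
  rw [mem_E hm _ _ (qq_tau_pow Q hP), mem_image]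
  constructor
  · rintro ⟨i, hi, hg⟩
    refine ⟨yy Q Y (i + 1), (mem_E hm Q Y hP _).2 ⟨i + 1, ?_, rfl⟩, ?_⟩
    · rw [uu_tau, rep_sh, sh_sh] at hi
      exact hi
    · rw [← hg, yy_tau]
  · rintro ⟨g', hg', rfl⟩
    obtain ⟨i, hi, rfl⟩ := (mem_E hm Q Y hP _).1 hg'
    have h1 : i + N * m - 1 + 1 = i + 1 * (N * m) := by
      have : 0 < N * m := by positivity
      omega
    refine ⟨i + N * m - 1, ?_, ?_⟩
    · rw [uu_tau, rep_sh, sh_sh, h1, ← hi, show 1 * (N * m) = m * N by ring, sh_add_mul]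
    · rw [yy_tau, h1, yy_add_period Q Y hP]

/-- the period of a word -/
noncomputable def per (u : ZMod N → G) : ℕ := Function.minimalPeriod (sh 1) u

lemma per_spec (u : ZMod N → G) (t : ℕ) : sh t u = u ↔ per u ∣ t := by
  rw [per, ← Function.isPeriodicPt_iff_minimalPeriod_dvd, Function.IsPeriodicPt,
    Function.IsFixedPt, sh_iter]

lemma per_dvd (u : ZMod N → G) : per u ∣ N := by
  rw [← per_spec]
  have := sh_mul_p 1 u
  rwa [one_mul] at this

open Classical in
lemma E_card {m : ℕ} (hm : 0 < m) (Q Y : ZMod N → G) (hP : qq Q N ^ m = 1) :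
    ∃ (a : ℕ) (g : G), g = yy Q Y (a + per (uu Q Y)) * (yy Q Y a)⁻¹ ∧
      g ^ (N / per (uu Q Y)) = qq Q N ∧ (E m Q Y).card = orderOf g ∧
      (E m Q Y) = (range (orderOf g)).image (fun t => g ^ t * yy Q Y a) := by
  classical
  have hN : 0 < N := Nat.pos_of_ne_zero (NeZero.ne N)
  set d := per (uu Q Y) with hd
  have hdN : d ∣ N := per_dvd _
  have hd0 : 0 < d := Nat.pos_of_dvd_of_pos hdN hN
  obtain ⟨a, ha⟩ := exists_sel (uu Q Y)
  set g := yy Q Y (a + d) * (yy Q Y a)⁻¹ with hg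
  have hshd : sh d (uu Q Y) = uu Q Y := (per_spec _ _).2 (dvd_refl _)
  have had : sh a (uu Q Y) = sh (a + d) (uu Q Y) := by rw [← sh_sh, hshd]
  have hpow : ∀ t, yy Q Y (a + d * t) = g ^ t * yy Q Y a := yy_of_sh' Q Y a d had
  have hgN : g ^ (N / d) = qq Q N := by
    have h1 := hpow (N / d)
    rw [Nat.mul_div_cancel' hdN, show a + N = a + 1 * N by ring, yy_add_mul_p, pow_one] at h1
    exact (mul_right_cancel h1).symm
  have hfin : 0 < orderOf g := by
    rw [orderOf_pos_iff, isOfFinOrder_iff_pow_eq_one]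
    refine ⟨N / d * m, ?_, ?_⟩
    · exact Nat.mul_pos (Nat.div_pos (Nat.le_of_dvd hN hdN) hd0) hm
    · rw [pow_mul, hgN, hP]
  have hE : E m Q Y = (range (orderOf g)).image (fun t => g ^ t * yy Q Y a) := by
    ext b
    rw [mem_E hm Q Y hP, mem_image]
    constructor
    · rintro ⟨i, hi, rfl⟩
      have h1 : sh (i + a * m * N) (uu Q Y) = sh a (uu Q Y) := by rw [sh_add_mul, hi, ha]
      have hle : a ≤ i + a * m * N := by
        have : a * 1 * 1 ≤ a * m * N := Nat.mul_le_mul (Nat.mul_le_mul_left _ hm) hN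
        omega
      obtain ⟨t, ht⟩ := Nat.exists_eq_add_of_le hle
      rw [ht] at h1
      obtain ⟨q, hq⟩ := (per_spec _ _).1 (sh_cancel a t _ h1)
      refine ⟨q % orderOf g, mem_range.2 (Nat.mod_lt _ hfin), ?_⟩
      rw [pow_mod_orderOf, ← hpow, hd, ← hq, ← ht, show a * m * N = a * (N * m) by ring,
        yy_add_period Q Y hP]
    · rintro ⟨t, _, rfl⟩
      refine ⟨a + d * t, ?_, hpow t⟩
      rw [← sh_sh, (per_spec _ _).2 (dvd_mul_right _ _), ha]
  refine ⟨a, g, rfl, hgN, ?_, hE⟩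
  rw [hE, card_image_of_injOn, card_range]
  intro s hs t ht hst
  simp only [coe_range, Set.mem_Iio] at hs ht
  have h1 : g ^ s = g ^ t := mul_right_cancel hst
  exact pow_injOn_Iio_orderOf hs ht h1

variable {M : ℕ}

open Classical in
/-- the vertex map: the normal positions with equal multiplicities -/
noncomputable def EV (m M : ℕ) (Q Y : ZMod N → G) : Pt G M :=
  if h : (E m Q Y).card ∣ M then
    ⟨(M / (E m Q Y).card) • (E m Q Y).val, by
      rw [Multiset.card_nsmul, Finset.card_val, Nat.div_mul_cancel h]⟩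
  else Pt.rep M (Y 0)

lemma EV_pos (m : ℕ) (Q Y : ZMod N → G) (h : (E m Q Y).card ∣ M) :
    (EV m M Q Y).1 = (M / (E m Q Y).card) • (E m Q Y).val := by
  rw [EV, dif_pos h]

lemma EV_image {m : ℕ} (Q Y Q' Y' : ZMod N → G) (a : G)
    (h : (E m Q' Y').val = (E m Q Y).val.map (a * ·)) (hd : (E m Q Y).card ∣ M) :
    EV m M Q' Y' = (EV m M Q Y).map (a * ·) := by
  have hcard : (E m Q' Y').card = (E m Q Y).card := by
    rw [← Finset.card_val, h, Multiset.card_map, Finset.card_val]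
  apply Subtype.ext
  show _ = (EV m M Q Y).1.map (a * ·)
  rw [EV_pos m Q' Y' (by rwa [hcard]), EV_pos m Q Y hd, hcard, h, Multiset.map_nsmul]

open Classical in
lemma val_image (a : G) (s : Finset G) : (s.image (a * ·)).val = s.val.map (a * ·) :=
  Finset.image_val_of_injOn (fun _ _ _ _ h => mul_left_cancel h)

lemma EV_conj (m M : ℕ) (x Q Y : ZMod N → G) :
    EV m M (x * Q * (tau G N x)⁻¹) (x * Y) = (EV m M Q Y).map (x 0 * ·) := by
  classical
  have h := congrArg Finset.val (E_conj m x Q Y)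
  rw [val_image] at h
  by_cases hd : (E m Q Y).card ∣ M
  · exact EV_image Q Y _ _ (x 0) h hd
  · have hcard : (E m (x * Q * (tau G N x)⁻¹) (x * Y)).card = (E m Q Y).card := by
      rw [← Finset.card_val, h, Multiset.card_map, Finset.card_val]
    rw [EV, dif_neg (by rwa [hcard]), EV, dif_neg hd]
    apply Subtype.ext
    show Multiset.replicate M (x 0 * Y 0) = (Multiset.replicate M (Y 0)).map (x 0 * ·)
    rw [Multiset.map_replicate]

lemma EV_tau {m : ℕ} (hm : 0 < m) (Q Y : ZMod N → G) (hP : qq Q N ^ m = 1)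
    (hd : (E m Q Y).card ∣ M) :
    EV m M (tau G N Q) (tau G N Y) = (EV m M Q Y).map ((Q 0)⁻¹ * ·) := by
  classical
  have h := congrArg Finset.val (E_tau hm Q Y hP)
  rw [val_image] at h
  exact EV_image Q Y _ _ _ h hd

end vert

end Pool.Agent.Y69.VN
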